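import Mathlib

set_option autoImplicit false

/-! A form of the critical factorization theorem for finite words. -/

namespace Pool.Agent.Lib.MP_52ae34_co

variable {β : Type*}

/-- Lexicographic comparison (weak) attached to a strict order `r` on letters. -/
def lexle (r : β → β → Prop) : List β → List β → Prop
  | [], _ => True
  | _ :: _, [] => False
  | a :: s, b :: t => r a b ∨ (a = b ∧ lexle r s t)

theorem lexle_refl (r : β → β → Prop) (s : List β) : lexle r s s := by
  induction s with
  | nil => exact trivial
  | cons a s ih => exact Or.inr ⟨rfl, ih⟩

theorem lexle_trans (r : β → β → Prop) [IsTrans β r] :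
    ∀ {s t u : List β}, lexle r s t → lexle r t u → lexle r s u := by
  intro s
  induction s with
  | nil => intro t u _ _; exact trivial
  | cons a s ih =>
    intro t u h1 h2
    cases t with
    | nil => exact h1.elim
    | cons b t =>
      cases u with
      | nil => exact h2.elim
      | cons c u =>
        rcases h1 with h1 | ⟨rfl, h1⟩
        · rcases h2 with h2 | ⟨rfl, h2⟩
          · exact Or.inl (IsTrans.trans _ _ _ h1 h2)
          · exact Or.inl h1
        · rcases h2 with h2 | ⟨rfl, h2⟩
          · exact Or.inl h2
          · exact Or.inr ⟨rfl, ih h1 h2⟩

theorem lexle_total (r : β → β → Prop) [Std.Trichotomous r] (s t : List β) :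
    lexle r s t ∨ lexle r t s := by
  induction s generalizing t with
  | nil => exact Or.inl trivial
  | cons a s ih =>
    cases t with
    | nil => exact Or.inr trivial
    | cons b t =>
      rcases trichotomous_of r a b with h | h | h
      · exact Or.inl (Or.inl h)
      · subst h
        rcases ih t with h | h
        · exact Or.inl (Or.inr ⟨rfl, h⟩)
        · exact Or.inr (Or.inr ⟨rfl, h⟩)
      · exact Or.inr (Or.inl h)

theorem lexle_antisymm (r : β → β → Prop) [Std.Asymm r] {s t : List β}
    (h1 : lexle r s t) (h2 : lexle r t s) : s = t := by
  induction s generalizing t with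
  | nil =>
    cases t with
    | nil => rfl
    | cons b t => exact h2.elim
  | cons a s ih =>
    cases t with
    | nil => exact h1.elim
    | cons b t =>
      rcases h1 with h1 | ⟨rfl, h1⟩
      · rcases h2 with h2 | ⟨rfl, h2⟩
        · exact (asymm h1 h2).elim
        · exact (asymm h1 h1).elim
      · rcases h2 with h2 | ⟨_, h2⟩
        · exact (asymm h2 h2).elim
        · rw [ih h1 h2]

theorem lexle_of_append (r : β → β → Prop) [Std.Asymm r] (z : List β) {s t : List β}
    (h : lexle r (z ++ s) (z ++ t)) : lexle r s t := by
  induction z with
  | nil => exact h
  | cons a z ih =>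
    rcases h with h | ⟨_, h⟩
    · exact (asymm h h).elim
    · exact ih h

theorem not_lexle_append (r : β → β → Prop) [Std.Asymm r] (s : List β) {t : List β}
    (ht : t ≠ []) : ¬ lexle r (s ++ t) s := by
  intro h
  have h' : lexle r (s ++ t) (s ++ []) := by simpa using h
  have := lexle_of_append r s h'
  cases t with
  | nil => exact ht rfl
  | cons b t => exact this.elim

/-- If `y` is below `v` for the two lexicographic orders attached to opposite orders of letters,
then `y` is a left factor of `v`. -/
theorem isLeftFactor_of_lexle (r : β → β → Prop) [Std.Asymm r] {y v : List β}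
    (h1 : lexle r y v) (h2 : lexle (fun a b => r b a) y v) : ∃ t, v = y ++ t := by
  induction y generalizing v with
  | nil => exact ⟨v, rfl⟩
  | cons a y ih =>
    cases v with
    | nil => exact h1.elim
    | cons b v =>
      rcases h1 with h1 | ⟨rfl, h1⟩
      · rcases h2 with h2 | ⟨rfl, h2⟩
        · exact (asymm h1 h2).elim
        · exact (asymm h1 h1).elim
      · rcases h2 with h2 | ⟨_, h2⟩
        · exact (asymm h2 h2).elim
        · obtain ⟨t, rfl⟩ := ih h1 h2
          exact ⟨t, rfl⟩

/-- Existence of a maximum for a total transitive relation on an initial segment. -/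
theorem exists_max_of_total {γ : Type*} (le : γ → γ → Prop)
    (htrans : ∀ {a b c}, le a b → le b c → le a c) (htot : ∀ a b, le a b ∨ le b a)
    (f : ℕ → γ) (W : ℕ) (hW : 0 < W) : ∃ i < W, ∀ j < W, le (f j) (f i) := by
  induction W with
  | zero => exact absurd hW (lt_irrefl _)
  | succ W ih =>
    rcases Nat.eq_zero_or_pos W with h0 | h0
    · subst h0
      refine ⟨0, by omega, fun j hj => ?_⟩
      have : j = 0 := by omega
      subst this
      rcases htot (f 0) (f 0) with h | h <;> exact h
    · obtain ⟨i, hi, hmax⟩ := ih h0
      rcases htot (f i) (f W) with h | h
      · refine ⟨W, by omega, fun j hj => ?_⟩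
        rcases Nat.lt_succ_iff_lt_or_eq.mp hj with hj | rfl
        · exact htrans (hmax j hj) h
        · rcases htot (f j) (f j) with h | h <;> exact h
      · refine ⟨i, by omega, fun j hj => ?_⟩
        rcases Nat.lt_succ_iff_lt_or_eq.mp hj with hj | rfl
        · exact hmax j hj
        · exact h

/-- Local repetition of length `δ` at position `i` of `U` (overflow allowed on both sides). -/
def LocalRep (U : List β) (i δ : ℕ) : Prop :=
  ∀ a, a < i → i ≤ a + δ → a + δ < U.length → U[a]? = U[a + δ]?

/-- `U` has period `δ`. -/
def ListPer (U : List β) (δ : ℕ) : Prop := ∀ a, a + δ < U.length → U[a]? = U[a + δ]?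

/-- The half of the critical factorization theorem. -/
theorem critical_half (r : β → β → Prop) [Std.Asymm r] (U : List β) (i i' : ℕ)
    (hi : i < U.length) (hii : i' ≤ i)
    (hmax : ∀ j < U.length, lexle r (U.drop j) (U.drop i))
    (hmax' : ∀ j < U.length, lexle (fun a b => r b a) (U.drop j) (U.drop i'))
    (δ : ℕ) (hδ : 1 ≤ δ) (hrep : LocalRep U i δ) : ListPer U δ := by
  have hget : ∀ (j k : ℕ), (U.drop j)[k]? = U[j + k]? := by
    intro j k; rw [List.getElem?_drop]
  by_cases hc : δ ≤ i
  · -- `z` is a suffix of `u`
    exfalso
    by_cases hv : i + δ < U.length
    · -- v = z ++ y with y nonempty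
      have e1 : U.drop (i - δ) = (U.drop i).take δ ++ U.drop i := by
        apply List.ext_getElem?
        intro k
        rw [hget, List.getElem?_append]
        have hl : ((U.drop i).take δ).length = δ := by
          simp only [List.length_take, List.length_drop]; omega
        rw [hl]
        split_ifs with hk
        · rw [List.getElem?_take, if_pos hk, hget]
          have := hrep (i - δ + k) (by omega) (by omega) (by omega)
          rw [this]; congr 1; omega
        · rw [hget]; congr 1; omega
      have e2 : U.drop i = (U.drop i).take δ ++ U.drop (i + δ) := by
        rw [← List.drop_drop, List.take_append_drop]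
      have h1 := hmax (i - δ) (by omega)
      rw [e1] at h1
      have h2 : lexle r ((U.drop i).take δ ++ U.drop i) ((U.drop i).take δ ++ U.drop (i + δ)) := by
        rw [← e2]; exact h1
      have h3 := lexle_of_append r _ h2
      have h4 := hmax (i + δ) hv
      have h5 := lexle_antisymm r h3 h4
      have := congrArg List.length h5
      simp only [List.length_drop] at this
      omega
    · -- |v| ≤ δ
      have e1 : U.drop (i - δ) = U.drop i ++ (U.drop (i - δ)).drop (U.length - i) := by
        apply List.ext_getElem?
        intro k
        rw [hget, List.getElem?_append]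
        have hl : (U.drop i).length = U.length - i := by simp
        rw [hl]
        split_ifs with hk
        · rw [hget]
          have := hrep (i - δ + k) (by omega) (by omega) (by omega)
          rw [this]; congr 1; omega
        · rw [List.getElem?_drop, hget]; congr 1; omega
      have h1 := hmax (i - δ) (by omega)
      rw [e1] at h1
      refine not_lexle_append r _ ?_ h1
      intro h
      have := congrArg List.length h
      simp only [List.length_drop, List.length_nil] at this
      omega
  · intro a ha
    by_cases hai : a < i
    · exact hrep a hai (by omega) ha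
    · -- v = z ++ y
      have hv : i + δ < U.length := by omega
      have h1 := hmax (i + δ) hv
      -- u'' ++ y is a suffix of U
      have e1 : U.drop (i' + δ) = (U.drop i').take (i - i') ++ U.drop (i + δ) := by
        apply List.ext_getElem?
        intro k
        rw [hget, List.getElem?_append]
        have hl : ((U.drop i').take (i - i')).length = i - i' := by
          simp only [List.length_take, List.length_drop]; omega
        rw [hl]
        split_ifs with hk
        · rw [List.getElem?_take, if_pos hk, hget]
          have := hrep (i' + k) (by omega) (by omega) (by omega)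
          rw [this]; congr 1; omega
        · rw [hget]; congr 1; omega
      have e2 : U.drop i' = (U.drop i').take (i - i') ++ U.drop i := by
        conv_lhs => rw [← List.take_append_drop (i - i') (U.drop i')]
        rw [List.drop_drop]
        congr 2
        omega
      have h2 := hmax' (i' + δ) (by omega)
      rw [e1] at h2
      have h2' : lexle (fun a b => r b a) ((U.drop i').take (i - i') ++ U.drop (i + δ))
          ((U.drop i').take (i - i') ++ U.drop i) := by
        rw [← e2]; exact h2
      haveI : Std.Asymm (fun a b => r b a) := ⟨fun a b h h' => asymm h h'⟩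
      have h3 := lexle_of_append (fun a b => r b a) _ h2'
      obtain ⟨t, ht⟩ := isLeftFactor_of_lexle r h1 h3
      have h4 : (U.drop i)[a - i]? = (U.drop (i + δ))[a - i]? := by
        rw [ht, List.getElem?_append]
        have : a - i < (U.drop (i + δ)).length := by
          simp only [List.length_drop]; omega
        rw [if_pos this]
      rw [hget, hget] at h4
      have e3 : i + (a - i) = a := by omega
      have e4 : i + δ + (a - i) = a + δ := by omega
      rw [e3, e4] at h4
      exact h4

/-- **Critical factorization**: every nonempty finite word has a position `i` such that each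
local repetition at `i` has a length which is a period of the word. -/
theorem exists_critical (U : List β) (hU : 0 < U.length) :
    ∃ i < U.length, ∀ δ, 1 ≤ δ → LocalRep U i δ → ListPer U δ := by
  classical
  let r : β → β → Prop := WellOrderingRel
  haveI : Std.Asymm r := inferInstance
  haveI : IsTrans β r := inferInstance
  haveI : Std.Trichotomous r := inferInstance
  let r' : β → β → Prop := fun a b => r b a
  haveI : Std.Asymm r' := ⟨fun a b h h' => asymm (r := r) h h'⟩
  haveI : IsTrans β r' := ⟨fun a b c h h' => IsTrans.trans (r := r) _ _ _ h' h⟩
  haveI : Std.Trichotomous r' := ⟨fun a b h h' => Std.Trichotomous.trichotomous (r := r) a b h' h⟩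
  obtain ⟨i, hi, hmax⟩ := exists_max_of_total (lexle r) (fun h h' => lexle_trans r h h')
    (lexle_total r) (fun j => U.drop j) U.length hU
  obtain ⟨i', hi', hmax'⟩ := exists_max_of_total (lexle r') (fun h h' => lexle_trans r' h h')
    (lexle_total r') (fun j => U.drop j) U.length hU
  rcases le_total i' i with h | h
  · exact ⟨i, hi, fun δ hδ hrep => critical_half r U i i' hi h hmax hmax' δ hδ hrep⟩
  · exact ⟨i', hi', fun δ hδ hrep => critical_half r' U i' i hi' h hmax' hmax δ hδ hrep⟩

end Pool.Agent.Lib.MP_52ae34_co
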