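import Mathlib

set_option autoImplicit false

/-! Definitions for the asymptotic critical exponent and injective morphisms. -/

namespace Pool.Agent.Lib.MP_52ae34_co

open Filter
open scoped ENNReal

/-- The factor `w_i w_{i+1} ... w_{i+m-1}` (of length `m`) of the infinite word `w`. -/
def factor {α : Type*} (w : ℕ → α) (i m : ℕ) : List α := (List.range m).map fun j => w (i + j)

/-- `IsPower u v` says that `v` is nonempty and `u = v^{p/|v|}` with `p = |u|`, that is,
`u` is the beginning of length `|u|` of the infinite word `v v v ...`. -/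
def IsPower {α : Type*} (u v : List α) : Prop :=
  v ≠ [] ∧ ∀ j < u.length, u[j]? = v[j % v.length]?

/-- The fractional exponent `E(u)`: the supremum of the `r = |u|/|v|` with `u = v^r`. -/
noncomputable def expo {α : Type*} (u : List α) : ℝ≥0∞ :=
  ⨆ (v : List α) (_ : IsPower u v), (u.length : ℝ≥0∞) / (v.length : ℝ≥0∞)

/-- The asymptotic critical exponent of an infinite word:
`limsup_m sup {E(u) : u a factor of length m}`. -/
noncomputable def ACE {α : Type*} (w : ℕ → α) : ℝ≥0∞ :=
  limsup (fun m : ℕ => ⨆ i : ℕ, expo (factor w i m)) atTop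

/-- `h` is a morphism of free monoids. -/
def IsMorphism {α β : Type*} (h : List α → List β) : Prop := ∀ x y, h (x ++ y) = h x ++ h y

/-- `x` is the image `h(w)` of the infinite word `w`: the image of each beginning of `w` is a
beginning of `x`. (For injective `h` there is exactly one such `x`.) -/
def IsImage {α β : Type*} (h : List α → List β) (w : ℕ → α) (x : ℕ → β) : Prop :=
  ∀ n, h (factor w 0 n) = factor x 0 (h (factor w 0 n)).length

/-- `ACE_inj(w)`: the supremum of `ACE(h(w))` over the injective morphisms `h : Σ* → Γ*`. -/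
noncomputable def ACEinj {α : Type*} (Γ : Type*) (w : ℕ → α) : ℝ≥0∞ :=
  ⨆ (h : List α → List Γ) (x : ℕ → Γ)
    (_ : IsMorphism h ∧ Function.Injective h ∧ IsImage h w x), ACE x

/-- `S`: the supremum of `ACE_inj(w)/ACE(w)` over the infinite words `w` over `α` whose
asymptotic critical exponent is finite. -/
noncomputable def S (α Γ : Type*) : ℝ≥0∞ :=
  ⨆ (w : ℕ → α) (_ : ACE w ≠ ⊤), ACEinj Γ w / ACE w

/-- `w` has period `p` on the interval `[i, i+m)`. -/
def HasPer {α : Type*} (w : ℕ → α) (i m p : ℕ) : Prop := ∀ j, j + p < m → w (i + j) = w (i + j + p)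

variable {α : Type*} {β : Type*}

@[simp] theorem length_factor (w : ℕ → α) (i m : ℕ) : (factor w i m).length = m := by
  simp [factor]

theorem getElem?_factor (w : ℕ → α) (i m j : ℕ) (hj : j < m) :
    (factor w i m)[j]? = some (w (i + j)) := by
  simp [factor, hj]

theorem factor_add (w : ℕ → α) (i m k : ℕ) :
    factor w i (m + k) = factor w i m ++ factor w (i + m) k := by
  simp only [factor, List.range_add, List.map_append, List.map_map]
  congr 1
  apply List.map_congr_left
  intro j _
  simp [add_assoc]

theorem factor_one (w : ℕ → α) (i : ℕ) : factor w i 1 = [w i] := by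
  simp [factor]

theorem factor_zero (w : ℕ → α) (i : ℕ) : factor w i 0 = [] := by
  simp [factor]

theorem hasPer_of_isPower {w : ℕ → α} {i m : ℕ} {v : List α} (h : IsPower (factor w i m) v) :
    HasPer w i m v.length := by
  intro j hj
  have hv : 0 < v.length := List.length_pos_iff.mpr h.1
  have h1 := h.2 j (by simp only [length_factor]; omega)
  have h2 := h.2 (j + v.length) (by simpa using hj)
  rw [getElem?_factor w i m j (by omega)] at h1
  rw [getElem?_factor w i m _ hj, Nat.add_mod_right] at h2
  have := h1.trans h2.symm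
  rw [Option.some.injEq] at this
  rw [this, add_assoc]

theorem HasPer.mono_len {w : ℕ → α} {i m m' p : ℕ} (h : HasPer w i m p) (hm : m' ≤ m) :
    HasPer w i m' p := fun j hj => h j (by omega)

theorem HasPer.sub {w : ℕ → α} {i m p : ℕ} (h : HasPer w i m p) (k m' : ℕ) (hk : k + m' ≤ m) :
    HasPer w (i + k) m' p := by
  intro j hj
  have := h (k + j) (by omega)
  rw [← add_assoc] at this
  exact this

theorem HasPer.mul {w : ℕ → α} {i m p : ℕ} (h : HasPer w i m p) (k : ℕ) :
    HasPer w i m (k * p) := by
  induction k with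
  | zero => intro j _; simp
  | succ k ih =>
    intro j hj
    rw [add_mul, one_mul] at hj ⊢
    have h1 := ih j (by omega)
    have h2 := h (j + k * p) (by omega)
    rw [h1]
    rw [← add_assoc] at h2
    rw [h2, add_assoc (i + j)]

/-- In an interval with period `p ≥ 1`, the letter at offset `j` only depends on `j % p`. -/
theorem HasPer.eq_mod {w : ℕ → α} {i m p : ℕ} (h : HasPer w i m p)
    (j : ℕ) (hj : j < m) : w (i + j) = w (i + j % p) := by
  have h1 := (h.mul (j / p)) (j % p) (by
    have := Nat.mod_add_div j p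
    rw [mul_comm] at this
    omega)
  have h2 : j % p + j / p * p = j := by
    have := Nat.mod_add_div j p
    rw [mul_comm] at this
    exact this
  rw [add_assoc, h2] at h1
  exact h1.symm

theorem isPower_of_hasPer {w : ℕ → α} {i m p : ℕ} (h : HasPer w i m p) (hp : 1 ≤ p) : IsPower (factor w i m) (factor w i p) := by
  refine ⟨?_, ?_⟩
  · intro h0
    have := congrArg List.length h0
    simp only [length_factor, List.length_nil] at this
    omega
  · intro j hj
    rw [length_factor] at hj
    rw [getElem?_factor w i m j hj, length_factor,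
      getElem?_factor w i p _ (Nat.mod_lt _ (by omega)), h.eq_mod j hj]

theorem le_expo {w : ℕ → α} {i m p : ℕ} (h : HasPer w i m p) (hp : 1 ≤ p) :
    (m : ℝ≥0∞) / (p : ℝ≥0∞) ≤ expo (factor w i m) := by
  have := isPower_of_hasPer h hp
  unfold expo
  refine le_trans ?_ (le_iSup₂ (f := fun (v : List α) (_ : IsPower (factor w i m) v) =>
    ((factor w i m).length : ℝ≥0∞) / (v.length : ℝ≥0∞)) (factor w i p) this)
  simp

theorem expo_le {w : ℕ → α} {i m : ℕ} {c : ℝ≥0∞}
    (h : ∀ p, 1 ≤ p → HasPer w i m p → (m : ℝ≥0∞) / (p : ℝ≥0∞) ≤ c) :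
    expo (factor w i m) ≤ c := by
  unfold expo
  refine iSup₂_le fun v hv => ?_
  rw [length_factor]
  exact h v.length (List.length_pos_iff.mpr hv.1) (hasPer_of_isPower hv)

theorem one_le_expo {w : ℕ → α} {i m : ℕ} (hm : 1 ≤ m) : 1 ≤ expo (factor w i m) := by
  have h : HasPer w i m m := fun j hj => by omega
  refine le_trans ?_ (le_expo h hm)
  rw [ENNReal.div_self]
  · exact_mod_cast (by omega : m ≠ 0)
  · exact ENNReal.natCast_ne_top m

theorem one_le_ACE (w : ℕ → α) : 1 ≤ ACE w := by
  unfold ACE
  refine le_limsup_of_frequently_le' ?_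
  refine (Filter.Eventually.frequently ?_)
  filter_upwards [eventually_ge_atTop 1] with m hm
  exact le_trans (one_le_expo hm) (le_iSup (fun i => expo (factor w i m)) 0)

/-- If the asymptotic critical exponent is smaller than `T`, then there is no power of exponent
`T` with a long period. -/
theorem exists_no_power {w : ℕ → α} {T : ℕ} (hT : ACE w < T) :
    ∃ l0, 1 ≤ l0 ∧ ∀ p, l0 ≤ p → ∀ i, ¬ HasPer w i (T * p) p := by
  have h1 : 1 ≤ T := by
    rcases Nat.eq_zero_or_pos T with h | h
    · subst h; simp at hT
    · exact h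
  have h2 := eventually_lt_of_limsup_lt hT
  obtain ⟨M, hM⟩ := eventually_atTop.mp h2
  refine ⟨max M 1, le_max_right _ _, fun p hp i hper => ?_⟩
  have hp1 : 1 ≤ p := le_trans (le_max_right _ _) hp
  have hpM : M ≤ T * p := by
    have : p ≤ T * p := Nat.le_mul_of_pos_left p h1
    exact le_trans (le_trans (le_max_left _ _) hp) this
  have h3 := hM (T * p) hpM
  have h4 : (T : ℝ≥0∞) ≤ expo (factor w i (T * p)) := by
    refine le_trans ?_ (le_expo hper hp1)
    rw [Nat.cast_mul, mul_div_assoc, ENNReal.div_self]
    · simp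
    · exact_mod_cast (by omega : p ≠ 0)
    · exact ENNReal.natCast_ne_top p
  have h5 : expo (factor w i (T * p)) ≤ ⨆ i, expo (factor w i (T * p)) :=
    le_iSup (fun i => expo (factor w i (T * p))) i
  exact absurd (lt_of_le_of_lt (le_trans h4 h5) h3) (lt_irrefl _)

end Pool.Agent.Lib.MP_52ae34_co
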