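import Mathlib

set_option autoImplicit false

/-! A sequence over a finite alphabet all of whose long repetitions are far apart. -/

namespace Pool.Agent.Lib.MP_52ae34_co

/-- `sg c n` is the odd part of `n` modulo `2^c`. -/
def sg (c n : ℕ) : ℕ := (n / 2 ^ (padicValNat 2 n)) % 2 ^ c

theorem sg_lt (c n : ℕ) : sg c n < 2 ^ c := Nat.mod_lt _ (by positivity)

theorem sg_mul (c e t : ℕ) (ht : t % 2 = 1) : sg c (2 ^ e * t) = t % 2 ^ c := by
  have ht0 : t ≠ 0 := by rintro rfl; simp at ht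
  have h1 : padicValNat 2 (2 ^ e * t) = e := by
    rw [padicValNat.mul (by positivity) ht0, padicValNat.prime_pow,
      padicValNat.eq_zero_of_not_dvd (by omega), add_zero]
  unfold sg
  rw [h1, Nat.mul_div_cancel_left _ (by positivity)]

theorem exists_odd_mult (e a m : ℕ) (hm : 2 ^ (e + 1) ≤ m) :
    ∃ u < m, ∃ t, t % 2 = 1 ∧ a + u = 2 ^ e * t := by
  -- the first multiple of `2^e` which is at least `a` and has odd quotient
  set E := 2 ^ e with hE
  have hEpos : 0 < E := by positivity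
  have h2E : 2 ^ (e + 1) = 2 * E := by rw [hE, pow_succ]; ring
  obtain ⟨q, h1, h2⟩ : ∃ q, q * (2 * E) ≤ a + E ∧ a + E < q * (2 * E) + 2 * E :=
    ⟨(a + E) / (2 * E), Nat.div_mul_le_self _ _, Nat.lt_div_mul_add (by positivity)⟩
  -- candidates: (2q-1)E, (2q+1) E
  by_cases hc : a + E = q * (2 * E)
  · -- then a = (2q-1) E
    refine ⟨0, by omega, 2 * q - 1, ?_, ?_⟩
    · have : 1 ≤ q := by
        rcases Nat.eq_zero_or_pos q with h0 | h0
        · rw [h0] at hc; omega
        · exact h0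
      omega
    · have hq1 : 1 ≤ q := by
        rcases Nat.eq_zero_or_pos q with h0 | h0
        · rw [h0] at hc; omega
        · exact h0
      have : E * (2 * q - 1) + E = q * (2 * E) := by
        have : 2 * q - 1 + 1 = 2 * q := by omega
        calc E * (2 * q - 1) + E = E * (2 * q - 1 + 1) := by ring
          _ = q * (2 * E) := by rw [this]; ring
      omega
  · refine ⟨q * (2 * E) + E - a, ?_, 2 * q + 1, by omega, ?_⟩
    · omega
    · have : E * (2 * q + 1) = q * (2 * E) + E := by ring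
      omega

/-- Long repetitions in `sg c` are far apart. -/
theorem sg_repeat (c : ℕ) (hc : 2 ≤ c) (a d m : ℕ) (hd : 1 ≤ d)
    (h : ∀ u < m, sg c (a + u) = sg c (a + d + u)) : m < 8 ∨ m * 2 ^ c < 4 * d := by
  by_contra hcon
  push Not at hcon
  obtain ⟨hm8, hmc⟩ := hcon
  obtain ⟨g, q, hq, hdg⟩ := Nat.exists_eq_two_pow_mul_odd (n := d) (by omega)
  have hq1 : q % 2 = 1 := Nat.odd_iff.mp hq
  by_cases hg : c - 1 ≤ g
  · -- e = g - c + 1
    obtain ⟨e, he⟩ : ∃ e, g = e + (c - 1) := ⟨g - (c - 1), by omega⟩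
    have hle : 2 ^ (e + 1) ≤ m := by
      by_contra hlt
      push Not at hlt
      have h1 : m * 2 ^ c < 2 ^ (e + 1) * 2 ^ c := Nat.mul_lt_mul_of_pos_right hlt (by positivity)
      have h2 : 2 ^ (e + 1) * 2 ^ c = 4 * 2 ^ g := by
        rw [he, ← pow_add, show (4 : ℕ) = 2 ^ 2 by norm_num, ← pow_add]
        congr 1; omega
      have h3 : 2 ^ g ≤ d := by
        rw [hdg]; exact Nat.le_mul_of_pos_right _ (by omega)
      omega
    obtain ⟨u, hu, t, ht, hau⟩ := exists_odd_mult e a m hle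
    have h1 := h u hu
    have h2 : a + d + u = 2 ^ e * (t + 2 ^ (c - 1) * q) := by
      have : a + d + u = (a + u) + d := by ring
      rw [this, hau, hdg, he, pow_add]; ring
    have hpow : 2 ^ (c - 1) = 2 * 2 ^ (c - 2) := by
      rw [← pow_succ']; congr 1; omega
    rw [h2, hau, sg_mul _ _ _ ht, sg_mul _ _ _ (by rw [hpow, mul_assoc]; omega)] at h1
    have h3 : 2 ^ c ∣ 2 ^ (c - 1) * q := by
      have h4 : t ≡ t + 2 ^ (c - 1) * q [MOD 2 ^ c] := h1
      have h5 := (Nat.modEq_iff_dvd' (by omega)).mp h4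
      rwa [Nat.add_sub_cancel_left] at h5
    have h4 : 2 ^ c = 2 ^ (c - 1) * 2 := by rw [← pow_succ]; congr 1; omega
    rw [h4] at h3
    have h5 := Nat.dvd_of_mul_dvd_mul_left (by positivity) h3
    omega
  · by_cases hg0 : g = 0
    · subst hg0
      rw [pow_zero, one_mul] at hdg
      subst hdg
      -- d odd : find n
      obtain ⟨u, hu, hu1, hu2⟩ : ∃ u < 8, (a + u + d) % 4 = 2 ∧ (a + u) % 8 ≠ d % 8 := by
        have key : ∀ A < 8, ∀ D < 8, D % 2 = 1 → ∃ u < 8, (A + u + D) % 4 = 2 ∧ (A + u) % 8 ≠ D := by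
          decide
        obtain ⟨u, hu, h1, h2⟩ := key (a % 8) (Nat.mod_lt _ (by norm_num)) (d % 8)
          (Nat.mod_lt _ (by norm_num)) (by omega)
        exact ⟨u, hu, by omega, by omega⟩
      have h1 := h u (by omega)
      have hodd : (a + u) % 2 = 1 := by omega
      have e1 : a + u = 2 ^ 0 * (a + u) := by simp
      have e2 : a + d + u = 2 ^ 1 * ((a + d + u) / 2) := by omega
      rw [e1, e2, sg_mul _ _ _ hodd, sg_mul _ _ _ (by omega)] at h1
      have h2 : a + u ≡ (a + d + u) / 2 [MOD 2 ^ c] := h1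
      have h3 : a + u ≡ (a + d + u) / 2 [MOD 2 ^ 2] := h2.of_dvd (pow_dvd_pow 2 hc)
      have h4 : (a + u) % 4 = ((a + d + u) / 2) % 4 := h3
      omega
    · -- g ≥ 1, g < c - 1
      obtain ⟨u, hu, hu1⟩ : ∃ u < 2, (a + u) % 2 = 1 := by
        rcases Nat.mod_two_eq_zero_or_one a with h0 | h0
        · exact ⟨1, by omega, by omega⟩
        · exact ⟨0, by omega, by omega⟩
      have h1 := h u (by omega)
      have hdeven : d % 2 = 0 := by
        obtain ⟨g', rfl⟩ : ∃ g', g = g' + 1 := ⟨g - 1, by omega⟩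
        rw [hdg, pow_succ, mul_assoc, mul_comm, mul_assoc]
        omega
      have e1 : a + u = 2 ^ 0 * (a + u) := by simp
      have e2 : a + d + u = 2 ^ 0 * (a + d + u) := by simp
      rw [e1, e2, sg_mul _ _ _ hu1, sg_mul _ _ _ (by omega)] at h1
      have h2 : a + u ≡ a + d + u [MOD 2 ^ c] := h1
      have h3 := (Nat.modEq_iff_dvd' (by omega)).mp h2
      have h4 : a + d + u - (a + u) = d := by omega
      rw [h4, hdg] at h3
      have h5 : 2 ^ (g + 1) ∣ 2 ^ g * q := dvd_trans (pow_dvd_pow 2 (by omega)) h3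
      rw [pow_succ] at h5
      have h6 := Nat.dvd_of_mul_dvd_mul_left (by positivity) h5
      omega

end Pool.Agent.Lib.MP_52ae34_co
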