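import Mathlib
import Pool.Agent.Lib.MP_52ae34_co.Sigma

set_option autoImplicit false

/-! The sequence of tokens used in the sharp lower bound. -/

namespace Pool.Agent.Lib.MP_52ae34_co.Exact

/-- State `(j, G, p)` of a token: block `j`, segment `G` of the block, token `p` of the segment. -/
def st (N k : ℕ) : ℕ → ℕ × ℕ × ℕ
  | 0 => (0, 0, 0)
  | τ + 1 =>
    if (st N k τ).2.2 < k * (st N k τ).1 then
      ((st N k τ).1, (st N k τ).2.1, (st N k τ).2.2 + 1)
    else if (st N k τ).2.1 + 1 < N then ((st N k τ).1, (st N k τ).2.1 + 1, 0)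
    else ((st N k τ).1 + 1, 0, 0)

def tA (k : ℕ) : ℕ → ℕ
  | 0 => 0
  | j + 1 => tA k j + k * j

def tB (N k : ℕ) : ℕ → ℕ
  | 0 => 0
  | j + 1 => tB N k j + N * (k * j + 1)

theorem tA_succ (k j : ℕ) : tA k (j + 1) = tA k j + k * j := rfl

theorem tB_succ (N k j : ℕ) : tB N k (j + 1) = tB N k j + N * (k * j + 1) := rfl

variable {N k : ℕ}

theorem st_succ_in {τ j G p : ℕ} (h : st N k τ = (j, G, p)) (hp : p < k * j) :
    st N k (τ + 1) = (j, G, p + 1) := by
  rw [st, h]; simp [hp]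

theorem st_succ_next {τ j G : ℕ} (h : st N k τ = (j, G, k * j)) (hG : G + 1 < N) :
    st N k (τ + 1) = (j, G + 1, 0) := by
  rw [st, h]; simp [hG]

theorem st_succ_last {τ j G : ℕ} (h : st N k τ = (j, G, k * j)) (hG : ¬ G + 1 < N) :
    st N k (τ + 1) = (j + 1, 0, 0) := by
  rw [st, h]; simp [hG]

theorem st_inv (hN : 1 ≤ N) (τ : ℕ) :
    (st N k τ).2.2 ≤ k * (st N k τ).1 ∧ (st N k τ).2.1 < N ∧
      τ = tB N k (st N k τ).1 + (st N k τ).2.1 * (k * (st N k τ).1 + 1) + (st N k τ).2.2 := by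
  induction τ with
  | zero => simp [st, tB]; omega
  | succ τ ih =>
    obtain ⟨h1, h2, h3⟩ := ih
    rcases hs : st N k τ with ⟨j, G, p⟩
    rw [hs] at h1 h2 h3
    dsimp only at h1 h2 h3
    by_cases hp : p < k * j
    · rw [st_succ_in hs hp]
      dsimp only
      omega
    · have hpj : p = k * j := by omega
      subst hpj
      by_cases hG : G + 1 < N
      · rw [st_succ_next hs hG]
        dsimp only
        refine ⟨by omega, hG, ?_⟩
        have : (G + 1) * (k * j + 1) = G * (k * j + 1) + (k * j + 1) := by ring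
        omega
      · rw [st_succ_last hs hG]
        dsimp only
        refine ⟨by omega, by omega, ?_⟩
        have hG' : N = G + 1 := by omega
        have : N * (k * j + 1) = G * (k * j + 1) + (k * j + 1) := by rw [hG']; ring
        rw [tB_succ]
        omega

theorem st_add {τ j G p : ℕ} (h : st N k τ = (j, G, p)) (u : ℕ) (hu : p + u ≤ k * j) :
    st N k (τ + u) = (j, G, p + u) := by
  induction u with
  | zero => simpa using h
  | succ u ih =>
    have := st_succ_in (ih (by omega)) (by omega)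
    rw [← add_assoc, this]
    rfl

theorem st_seg {τ j G : ℕ} (h : st N k τ = (j, G, 0)) (s : ℕ)
    (hs : G + s < N) : st N k (τ + s * (k * j + 1)) = (j, G + s, 0) := by
  induction s with
  | zero => simpa using h
  | succ s ih =>
    have h1 := st_add (ih (by omega)) (k * j) (by omega)
    rw [zero_add] at h1
    have h2 := st_succ_next h1 (by omega)
    have e : τ + (s + 1) * (k * j + 1) = τ + s * (k * j + 1) + k * j + 1 := by ring
    rw [e, h2]
    rfl

theorem st_B (hN : 1 ≤ N) (j : ℕ) : st N k (tB N k j) = (j, 0, 0) := by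
  induction j with
  | zero => simp [tB, st]
  | succ j ih =>
    have h1 := st_seg ih (N - 1) (by omega)
    have h2 := st_add h1 (k * j) (by omega)
    simp only [zero_add] at h2
    have h3 := st_succ_last h2 (by omega)
    have e : tB N k (j + 1) = tB N k j + (N - 1) * (k * j + 1) + k * j + 1 := by
      rw [tB_succ]
      have : N * (k * j + 1) = (N - 1) * (k * j + 1) + (k * j + 1) := by
        obtain ⟨n, rfl⟩ : ∃ n, N = n + 1 := ⟨N - 1, by omega⟩
        rw [Nat.add_sub_cancel]; ring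
      omega
    rw [e, h3]

theorem st_of (hN : 1 ≤ N) {j G p : ℕ} (hG : G < N) (hp : p ≤ k * j) :
    st N k (tB N k j + G * (k * j + 1) + p) = (j, G, p) := by
  have h0 := st_B (N := N) (k := k) hN j
  have h1 := st_seg h0 G (by omega)
  simp only [zero_add] at h1
  have h2 := st_add h1 p (by omega)
  simp only [zero_add] at h2
  exact h2

/-- The number of fillers in front of the letter of a token, as a function of its state. -/
def zt (k M c E : ℕ) (s : ℕ × ℕ × ℕ) : ℕ :=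
  if s.2.2 = 0 then (if s.2.1 = 0 then 2 * 2 ^ c + M else 2 * 2 ^ c + s.2.1 % M)
  else if s.2.1 % M = M - 1 then
    (if s.2.1 = k * M - 1 then E else 0) + (3 * 2 ^ c + sg c (tA k s.1 + s.2.2))
  else 2 ^ c + sg c ((M - 1) * tA k s.1 + s.2.1 % M * (k * s.1) + s.2.2)

/-- The number of segments in a block. -/
def nb (k M : ℕ) : ℕ := 2 * k * M - 1

def zf (k M c E τ : ℕ) : ℕ := zt k M c E (st (nb k M) k τ)

/-- The track of a token as a function of its state. -/
def tt (k M : ℕ) (s : ℕ × ℕ × ℕ) : ℕ :=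
  if s.2.1 % M = M - 1 then s.2.1 % k else (s.2.1 + s.2.2) % k

def trk (k M τ : ℕ) : ℕ := tt k M (st (nb k M) k τ)

/-- Position of the letter of token `τ`. -/
def pos (k M c E : ℕ) : ℕ → ℕ
  | 0 => zf k M c E 0
  | τ + 1 => pos k M c E τ + zf k M c E (τ + 1) + 1

theorem pos_succ (k M c E τ : ℕ) :
    pos k M c E (τ + 1) = pos k M c E τ + zf k M c E (τ + 1) + 1 := rfl

theorem pos_strictMono (k M c E : ℕ) : StrictMono (pos k M c E) :=
  strictMono_nat_of_lt_succ fun τ => by rw [pos_succ]; omega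

section zt

variable {M c E : ℕ}

theorem zt_special_zero {s : ℕ × ℕ × ℕ} (h : s.2.2 = 0) (h2 : s.2.1 = 0) :
    zt k M c E s = 2 * 2 ^ c + M := by
  unfold zt; rw [if_pos h, if_pos h2]

theorem zt_special {s : ℕ × ℕ × ℕ} (h : s.2.2 = 0) (h2 : s.2.1 ≠ 0) :
    zt k M c E s = 2 * 2 ^ c + s.2.1 % M := by
  unfold zt; rw [if_pos h, if_neg h2]

theorem zt_rot {s : ℕ × ℕ × ℕ} (h : s.2.2 ≠ 0) (h2 : s.2.1 % M ≠ M - 1) :
    zt k M c E s = 2 ^ c + sg c ((M - 1) * tA k s.1 + s.2.1 % M * (k * s.1) + s.2.2) := by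
  unfold zt; rw [if_neg h, if_neg h2]

theorem zt_keep {s : ℕ × ℕ × ℕ} (h : s.2.2 ≠ 0) (h2 : s.2.1 % M = M - 1)
    (h3 : s.2.1 ≠ k * M - 1) : zt k M c E s = 3 * 2 ^ c + sg c (tA k s.1 + s.2.2) := by
  unfold zt; rw [if_neg h, if_pos h2, if_neg h3, zero_add]

theorem zt_dense (hk : 1 ≤ k) (hM : 1 ≤ M) {s : ℕ × ℕ × ℕ} (h : s.2.2 ≠ 0)
    (h3 : s.2.1 = k * M - 1) : zt k M c E s = E + (3 * 2 ^ c + sg c (tA k s.1 + s.2.2)) := by
  have h2 : s.2.1 % M = M - 1 := by
    rw [h3]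
    obtain ⟨k', rfl⟩ : ∃ k', k = k' + 1 := ⟨k - 1, by omega⟩
    have e : (k' + 1) * M - 1 = (M - 1) + M * k' := by
      have : (k' + 1) * M = M * k' + M := by ring
      omega
    rw [e, Nat.add_mul_mod_self_left]
    exact Nat.mod_eq_of_lt (by omega)
  unfold zt; rw [if_neg h, if_pos h2, if_pos h3]

/-- All the information on the value of `zt`. -/
theorem zt_cases (k : ℕ) (hk : 1 ≤ k) (hM : 1 ≤ M) (hMc : M < 2 ^ c) (s : ℕ × ℕ × ℕ) :
    (s.2.2 = 0 ∧ 2 * 2 ^ c ≤ zt k M c E s ∧ zt k M c E s < 3 * 2 ^ c ∧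
      (s.2.1 = 0 ∧ zt k M c E s = 2 * 2 ^ c + M ∨
        s.2.1 ≠ 0 ∧ zt k M c E s = 2 * 2 ^ c + s.2.1 % M)) ∨
    (s.2.2 ≠ 0 ∧ s.2.1 % M ≠ M - 1 ∧ 2 ^ c ≤ zt k M c E s ∧ zt k M c E s < 2 * 2 ^ c) ∨
    (s.2.2 ≠ 0 ∧ s.2.1 % M = M - 1 ∧ s.2.1 ≠ k * M - 1 ∧ 3 * 2 ^ c ≤ zt k M c E s ∧
      zt k M c E s < 4 * 2 ^ c) ∨
    (s.2.2 ≠ 0 ∧ s.2.1 % M = M - 1 ∧ s.2.1 = k * M - 1 ∧ E + 3 * 2 ^ c ≤ zt k M c E s ∧
      zt k M c E s < E + 4 * 2 ^ c) := by
  by_cases h0 : s.2.2 = 0
  · left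
    by_cases h1 : s.2.1 = 0
    · rw [zt_special_zero h0 h1]
      exact ⟨h0, by omega, by omega, Or.inl ⟨h1, rfl⟩⟩
    · rw [zt_special h0 h1]
      have := Nat.mod_lt s.2.1 (show M > 0 by omega)
      exact ⟨h0, by omega, by omega, Or.inr ⟨h1, rfl⟩⟩
  · right
    by_cases h1 : s.2.1 % M = M - 1
    · right
      have h4 := sg_lt c (tA k s.1 + s.2.2)
      by_cases h2 : s.2.1 = k * M - 1
      · right
        rw [zt_dense hk hM h0 h2]
        exact ⟨h0, h1, h2, by omega, by omega⟩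
      · left
        rw [zt_keep h0 h1 h2]
        exact ⟨h0, h1, h2, by omega, by omega⟩
    · left
      rw [zt_rot h0 h1]
      have h4 := sg_lt c ((M - 1) * tA k s.1 + s.2.1 % M * (k * s.1) + s.2.2)
      exact ⟨h0, h1, by omega, by omega⟩

theorem zt_ge (hk : 1 ≤ k) (hM : 1 ≤ M) (hMc : M < 2 ^ c) (s : ℕ × ℕ × ℕ) :
    2 ^ c ≤ zt k M c E s := by
  have := zt_cases (E := E) k hk hM hMc s
  omega

theorem zt_le (hk : 1 ≤ k) (hM : 1 ≤ M) (hMc : M < 2 ^ c) (s : ℕ × ℕ × ℕ) :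
    zt k M c E s ≤ E + 4 * 2 ^ c := by
  have := zt_cases (E := E) k hk hM hMc s
  omega

theorem pos_add_ge (hk : 1 ≤ k) (hM : 1 ≤ M) (hMc : M < 2 ^ c) (τ s : ℕ) :
    pos k M c E τ + s * (2 ^ c + 1) ≤ pos k M c E (τ + s) := by
  induction s with
  | zero => simp
  | succ s ih =>
    have h1 := zt_ge (E := E) hk hM hMc (st (nb k M) k (τ + s + 1))
    have h2 : pos k M c E (τ + (s + 1)) = pos k M c E (τ + s) + zf k M c E (τ + s + 1) + 1 := rfl
    unfold zf at h2
    have h3 : (s + 1) * (2 ^ c + 1) = s * (2 ^ c + 1) + (2 ^ c + 1) := by ring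
    omega

end zt

/-- Number of dense tokens up to `τ`. -/
def ds (k M : ℕ) (s : ℕ × ℕ × ℕ) : ℕ :=
  tA k s.1 + (if s.2.1 < k * M - 1 then 0 else if s.2.1 = k * M - 1 then s.2.2 else k * s.1)

def dc (k M τ : ℕ) : ℕ := ds k M (st (nb k M) k τ)

theorem nb_pos {k M : ℕ} (hk : 1 ≤ k) (hM : 2 ≤ M) : 1 ≤ nb k M := by
  unfold nb
  have : 1 * 2 ≤ k * M := Nat.mul_le_mul hk hM
  have e : 2 * k * M = 2 * (k * M) := by ring
  omega

theorem dc_step {k M c E : ℕ} (hk : 1 ≤ k) (hM : 2 ≤ M) (τ : ℕ) :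
    (E + 3 * 2 ^ c + 1) * dc k M (τ + 1) + pos k M c E τ
      ≤ pos k M c E (τ + 1) + (E + 3 * 2 ^ c + 1) * dc k M τ ∧ dc k M τ ≤ dc k M (τ + 1) := by
  have hnb := nb_pos hk hM
  have hinv := st_inv (k := k) hnb τ
  have hkM : 2 ≤ k * M := by
    have : 1 * 2 ≤ k * M := Nat.mul_le_mul hk hM
    omega
  rcases hs : st (nb k M) k τ with ⟨j, G, p⟩
  rw [hs] at hinv
  obtain ⟨h1, h2, -⟩ := hinv
  dsimp only at h1 h2
  have hpos : pos k M c E (τ + 1) = pos k M c E τ + zf k M c E (τ + 1) + 1 := rfl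
  by_cases hp : p < k * j
  · have hs' := st_succ_in hs hp
    unfold zf at hpos
    unfold dc
    rw [hs'] at hpos ⊢
    rw [hs]
    unfold ds
    dsimp only
    by_cases hG : G = k * M - 1
    · rw [if_neg (by omega), if_pos hG, if_neg (by omega), if_pos hG]
      have hz : zt k M c E (j, G, p + 1) = E + (3 * 2 ^ c + sg c (tA k j + (p + 1))) :=
        zt_dense hk (by omega) (by simp) hG
      have e : (E + 3 * 2 ^ c + 1) * (tA k j + (p + 1))
          = (E + 3 * 2 ^ c + 1) * (tA k j + p) + (E + 3 * 2 ^ c + 1) := by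
        ring
      omega
    · rw [if_neg hG, if_neg hG]
      omega
  · have hpj : p = k * j := by omega
    subst hpj
    by_cases hG : G + 1 < nb k M
    · have hs' := st_succ_next hs hG
      have hdc : dc k M (τ + 1) = dc k M τ := by
        unfold dc
        rw [hs, hs']
        unfold ds
        dsimp only
        split_ifs <;> omega
      rw [hdc]; omega
    · have hs' := st_succ_last hs hG
      have hdc : dc k M (τ + 1) = dc k M τ := by
        unfold dc
        rw [hs, hs']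
        unfold ds
        dsimp only
        rw [tA_succ]
        unfold nb at hG
        have e : 2 * k * M = 2 * (k * M) := by ring
        split_ifs <;> omega
      rw [hdc]; omega

theorem dc_mono {k M : ℕ} (hk : 1 ≤ k) (hM : 2 ≤ M) : Monotone (dc k M) :=
  monotone_nat_of_le_succ fun τ => (dc_step (c := 0) (E := 0) hk hM τ).2

theorem dc_mono_pos {k M c E : ℕ} (hk : 1 ≤ k) (hM : 2 ≤ M) (τ s : ℕ) :
    (E + 3 * 2 ^ c + 1) * dc k M (τ + s) + pos k M c E τ
      ≤ pos k M c E (τ + s) + (E + 3 * 2 ^ c + 1) * dc k M τ := by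
  induction s with
  | zero => simp; omega
  | succ s ih =>
    have := (dc_step (c := c) (E := E) hk hM (τ + s)).1
    have e : τ + (s + 1) = τ + s + 1 := rfl
    rw [e]; omega

end Pool.Agent.Lib.MP_52ae34_co.Exact
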