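import Mathlib
import Pool.Agent.Lib.MP_52ae34_co.ExactTokens

set_option autoImplicit false

/-! Repetitions in the sequence of tokens (sharp lower bound). -/

namespace Pool.Agent.Lib.MP_52ae34_co.Exact

/-- The tokens `t, ..., t+m-1` coincide with the tokens `t+D, ..., t+D+m-1`. -/
def TMatch (k M c E t D m : ℕ) : Prop :=
  ∀ u < m, zf k M c E (t + u) = zf k M c E (t + D + u) ∧ trk k M (t + u) = trk k M (t + D + u)

/-- Total length of the tokens `t, ..., t+m-1`. -/
def LL (k M c E t m : ℕ) : ℕ := ∑ u ∈ Finset.range m, (zf k M c E (t + u) + 1)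

/-- Token `t` and token `t + D` are copies of each other in two windings of the same block. -/
def Aligned (k M t D : ℕ) : Prop :=
  st (nb k M) k (t + D) = ((st (nb k M) k t).1, (st (nb k M) k t).2.1 + k * M,
    (st (nb k M) k t).2.2) ∧ D = k * M * (k * (st (nb k M) k t).1 + 1)

theorem LL_le (k M c E t m b : ℕ) (h : ∀ u < m, zf k M c E (t + u) + 1 ≤ b) :
    LL k M c E t m ≤ m * b := by
  unfold LL
  calc ∑ u ∈ Finset.range m, (zf k M c E (t + u) + 1) ≤ ∑ _u ∈ Finset.range m, b :=
        Finset.sum_le_sum fun u hu => h u (Finset.mem_range.mp hu)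
    _ = m * b := by simp

theorem LL_add (k M c E t m m' : ℕ) :
    LL k M c E t (m + m') = LL k M c E t m + LL k M c E (t + m) m' := by
  unfold LL
  rw [Finset.sum_range_add]
  congr 1
  apply Finset.sum_congr rfl
  intro u _
  rw [add_assoc]

theorem tA_mono {k j j' : ℕ} (h : j ≤ j') : tA k j ≤ tA k j' := by
  induction j', h using Nat.le_induction with
  | base => exact le_rfl
  | succ n _ ih => rw [tA_succ]; omega

theorem tB_mono {N k j j' : ℕ} (h : j ≤ j') : tB N k j ≤ tB N k j' := by
  induction j', h using Nat.le_induction with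
  | base => exact le_rfl
  | succ n _ ih => rw [tB_succ]; omega

theorem tB_sub_tA {N k r : ℕ} (hr : r ≤ N) {j j' : ℕ} (h : j ≤ j') :
    tB N k j + r * tA k j' ≤ tB N k j' + r * tA k j := by
  induction j', h using Nat.le_induction with
  | base => exact le_rfl
  | succ n _ ih =>
    rw [tA_succ, tB_succ, Nat.mul_add]
    have : r * (k * n) ≤ N * (k * n + 1) := Nat.mul_le_mul hr (by omega)
    omega

/-- Number of segments: basic facts. -/
theorem nb_eq {k M : ℕ} (hk : 1 ≤ k) (hM : 2 ≤ M) :
    nb k M + 1 = 2 * (k * M) ∧ 2 ≤ k * M ∧ k * M < nb k M := by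
  have h1 : 1 * 2 ≤ k * M := Nat.mul_le_mul hk hM
  unfold nb
  have e : 2 * k * M = 2 * (k * M) := by ring
  omega

theorem mod_k {k M κ : ℕ} (hκ : M = k * κ + 1) (G : ℕ) : G % k = (G / M + G % M) % k := by
  have h1 := Nat.div_add_mod G M
  have h2 : G = (G / M + G % M) + k * (κ * (G / M)) := by
    calc G = M * (G / M) + G % M := h1.symm
      _ = (k * κ + 1) * (G / M) + G % M := by rw [← hκ]
      _ = _ := by ring
  calc G % k = ((G / M + G % M) + k * (κ * (G / M))) % k := by rw [← h2]
    _ = (G / M + G % M) % k := Nat.add_mul_mod_self_left _ _ _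

/-- Two segments of a block with equal positions in their windings and equal tracks. -/
theorem seg_eq {k M κ : ℕ} (hk : 1 ≤ k) (hM : 2 ≤ M) (hκ : M = k * κ + 1) {G G' : ℕ}
    (hG' : G' < nb k M) (hlt : G < G') (h1 : G % M = G' % M) (h2 : G % k = G' % k) :
    G' = G + k * M := by
  obtain ⟨n1, n2, n3⟩ := nb_eq hk hM
  have e1 := Nat.div_add_mod G M
  have e2 := Nat.div_add_mod G' M
  rw [mod_k hκ G, mod_k hκ G', h1] at h2
  have h3 : G / M ≡ G' / M [MOD k] := Nat.ModEq.add_right_cancel' _ h2
  have hω : G / M < G' / M := by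
    by_contra hcon
    push Not at hcon
    have := Nat.mul_le_mul_left M hcon
    omega
  have h4 := (Nat.modEq_iff_dvd' hω.le).mp h3
  obtain ⟨s, hs⟩ := h4
  have hω' : G' / M < 2 * k := by
    rw [Nat.div_lt_iff_lt_mul (by omega)]
    have e : 2 * k * M = 2 * (k * M) := by ring
    omega
  generalize G / M = a at *
  generalize G' / M = a' at *
  have hs1 : s = 1 := by
    rcases Nat.lt_or_ge s 1 with h | h
    · have : s = 0 := by omega
      subst this; omega
    · rcases Nat.lt_or_ge s 2 with h' | h'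
      · omega
      · have := Nat.mul_le_mul_left k h'
        omega
  subst hs1
  have h5 : a' = a + k := by omega
  have h6 : M * a' = M * a + k * M := by rw [h5]; ring
  omega

/-- States along a run of normal tokens. -/
theorem st_run {N k : ℕ} (hN : 1 ≤ N) {t m : ℕ} (hn : ∀ u < m, (st N k (t + u)).2.2 ≠ 0)
    {j G p : ℕ} (hs : st N k t = (j, G, p)) (u : ℕ) (hu : u < m) :
    st N k (t + u) = (j, G, p + u) ∧ p + u ≤ k * j := by
  induction u with
  | zero =>
    have := st_inv (k := k) hN t
    rw [hs] at this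
    exact ⟨by simpa using hs, by simpa using this.1⟩
  | succ u ih =>
    obtain ⟨h1, h2⟩ := ih (by omega)
    have h3 := hn (u + 1) hu
    by_cases hp : p + u < k * j
    · have := st_succ_in h1 hp
      exact ⟨by rw [← add_assoc, this]; rfl, by omega⟩
    · exfalso
      have hj : p + u = k * j := by omega
      rw [hj] at h1
      by_cases hG : G + 1 < N
      · have := st_succ_next h1 hG
        rw [← add_assoc, this] at h3
        exact h3 rfl
      · have := st_succ_last h1 hG
        rw [← add_assoc, this] at h3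
        exact h3 rfl

/-- Order of blocks. -/
theorem block_le {N k τ D j G p j' G' p' : ℕ}
    (h1 : τ = tB N k j + G * (k * j + 1) + p)
    (h2 : τ + D = tB N k j' + G' * (k * j' + 1) + p') (g2 : G' < N)
    (q2 : p' ≤ k * j') : j ≤ j' := by
  by_contra hcon
  push Not at hcon
  have h3 := tB_mono (N := N) (k := k) (show j' + 1 ≤ j by omega)
  rw [tB_succ] at h3
  have h4 : (G' + 1) * (k * j' + 1) ≤ N * (k * j' + 1) := Nat.mul_le_mul_right _ (by omega)
  have e : (G' + 1) * (k * j' + 1) = G' * (k * j' + 1) + (k * j' + 1) := by ring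
  omega

theorem rot_dist_same {M : ℕ} (hM : 2 ≤ M) {τ D B A G p G' p' L : ℕ}
    (h1 : τ = B + G * (L + 1) + p) (h2 : τ + D = B + G' * (L + 1) + p')
    (hpj : p ≤ L) (hpj' : p' ≤ L) (hp : 1 ≤ p) (hp' : 1 ≤ p')
    (hg : G % M ≠ M - 1) (hg' : G' % M ≠ M - 1) :
    A + G' % M * L + p' ≤ A + G % M * L + p + M * D ∧
      A + G % M * L + p ≤ A + G' % M * L + p' + M * D := by
  have m1 := Nat.mod_lt G (show M > 0 by omega)
  have m2 := Nat.mod_lt G' (show M > 0 by omega)
  have hDM : D ≤ M * D := Nat.le_mul_of_pos_left D (by omega)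
  have hgle : G % M * L + L ≤ (M - 1) * L := by
    have : (G % M + 1) * L ≤ (M - 1) * L := Nat.mul_le_mul_right _ (by omega)
    have e : (G % M + 1) * L = G % M * L + L := by ring
    omega
  have hgle' : G' % M * L + L ≤ (M - 1) * L := by
    have : (G' % M + 1) * L ≤ (M - 1) * L := Nat.mul_le_mul_right _ (by omega)
    have e : (G' % M + 1) * L = G' % M * L + L := by ring
    omega
  rcases lt_trichotomy G G' with hGG | hGG | hGG
  · rcases Nat.lt_or_ge (G + 1) G' with h3 | h3
    · -- far apart
      have h4 : (G + 2) * (L + 1) ≤ G' * (L + 1) := Nat.mul_le_mul_right _ (by omega)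
      have e3 : (G + 2) * (L + 1) = G * (L + 1) + 2 * (L + 1) := by ring
      have h5 : L ≤ D := by omega
      have h6 : (M - 1) * L ≤ M * D := Nat.mul_le_mul (by omega) h5
      omega
    · have h4 : G' = G + 1 := by omega
      have h5 : G' % M = G % M + 1 := by
        rw [h4, Nat.add_mod, Nat.mod_eq_of_lt (show 1 < M by omega)]
        exact Nat.mod_eq_of_lt (by omega)
      have h6 : G' * (L + 1) = G * (L + 1) + (L + 1) := by rw [h4]; ring
      have h7 : G' % M * L = G % M * L + L := by rw [h5]; ring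
      omega
  · rw [← hGG] at h2 ⊢
    omega
  · exfalso
    have h4 : (G' + 1) * (L + 1) ≤ G * (L + 1) := Nat.mul_le_mul_right _ (by omega)
    have e3 : (G' + 1) * (L + 1) = G' * (L + 1) + (L + 1) := by ring
    omega

theorem keep_dist_same {M : ℕ} (hM : 2 ≤ M) {τ D B A G p G' p' L : ℕ}
    (h1 : τ = B + G * (L + 1) + p) (h2 : τ + D = B + G' * (L + 1) + p')
    (hpj : p ≤ L) (hpj' : p' ≤ L) (hg : G % M = M - 1) (hg' : G' % M = M - 1) :
    A + p' ≤ A + p + D ∧ A + p ≤ A + p' + D := by
  rcases lt_trichotomy G G' with hGG | hGG | hGG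
  · have h3 : G + 2 ≤ G' := by
      by_contra hcon
      have h4 : G' = G + 1 := by omega
      rw [h4, Nat.add_mod, hg, Nat.mod_eq_of_lt (show 1 < M by omega)] at hg'
      have : (M - 1 + 1) % M = 0 := by rw [Nat.sub_add_cancel (by omega), Nat.mod_self]
      omega
    have h4 : (G + 2) * (L + 1) ≤ G' * (L + 1) := Nat.mul_le_mul_right _ h3
    have e3 : (G + 2) * (L + 1) = G * (L + 1) + 2 * (L + 1) := by ring
    omega
  · rw [← hGG] at h2
    omega
  · exfalso
    have h4 : (G' + 1) * (L + 1) ≤ G * (L + 1) := Nat.mul_le_mul_right _ (by omega)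
    have e3 : (G' + 1) * (L + 1) = G' * (L + 1) + (L + 1) := by ring
    omega

/-- Distance between indices of rotating tokens. -/
theorem rot_dist {k M : ℕ} (hk : 1 ≤ k) (hM : 2 ≤ M) {τ D j G p j' G' p' : ℕ}
    (h1 : τ = tB (nb k M) k j + G * (k * j + 1) + p)
    (h2 : τ + D = tB (nb k M) k j' + G' * (k * j' + 1) + p') (hG : G < nb k M)
    (hG' : G' < nb k M) (hp : 1 ≤ p) (hp' : 1 ≤ p') (hpj : p ≤ k * j) (hpj' : p' ≤ k * j')
    (hg : G % M ≠ M - 1) (hg' : G' % M ≠ M - 1) :
    (M - 1) * tA k j' + G' % M * (k * j') + p' ≤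
        (M - 1) * tA k j + G % M * (k * j) + p + M * D ∧
      (M - 1) * tA k j + G % M * (k * j) + p ≤
        (M - 1) * tA k j' + G' % M * (k * j') + p' + M * D := by
  obtain ⟨n1, n2, n3⟩ := nb_eq hk hM
  have hjj := block_le h1 h2 hG' hpj'
  rcases Nat.eq_or_lt_of_le hjj with hj | hj
  · -- same block
    subst hj
    exact rot_dist_same hM h1 h2 hpj hpj' hp hp' hg hg'
  · -- different blocks
    have m1 := Nat.mod_lt G (show M > 0 by omega)
    have e1 := Nat.div_add_mod G M
    have hDM : D ≤ M * D := Nat.le_mul_of_pos_left D (by omega)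
    have h3 := tB_sub_tA (N := nb k M) (k := k) (r := M - 1) (by
      have : M ≤ k * M := Nat.le_mul_of_pos_left M hk
      omega) (show j + 1 ≤ j' by omega)
    have e3 : (M - 1) * tA k (j + 1) = (M - 1) * tA k j + (M - 1) * (k * j) := by
      rw [tA_succ]; ring
    rw [tB_succ, e3] at h3
    have h4 : (M - 1) * tA k (j + 1) ≤ (M - 1) * tA k j' :=
      Nat.mul_le_mul_left _ (tA_mono (by omega))
    rw [e3] at h4
    have hω : G / M + 1 ≤ 2 * k := by
      have : G / M < 2 * k := by
        rw [Nat.div_lt_iff_lt_mul (by omega)]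
        have e : 2 * k * M = 2 * (k * M) := by ring
        omega
      omega
    have h8 : G' % M * (k * j') ≤ G' * (k * j' + 1) := Nat.mul_le_mul (Nat.mod_le _ _) (by omega)
    have hgle : G % M * (k * j) + k * j ≤ (M - 1) * (k * j) := by
      have : (G % M + 1) * (k * j) ≤ (M - 1) * (k * j) := Nat.mul_le_mul_right _ (by omega)
      have e : (G % M + 1) * (k * j) = G % M * (k * j) + k * j := by ring
      omega
    generalize G / M = a at *
    generalize G % M = g at *
    generalize k * j = L at *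
    generalize k * j' = L' at *
    have h5 : M * a + M ≤ 2 * (k * M) := by
      have := Nat.mul_le_mul_left M hω
      have e : M * (a + 1) = M * a + M := by ring
      have e' : M * (2 * k) = 2 * (k * M) := by ring
      omega
    have h6 : (M * a + (M - 1)) * (L + 1) ≤ nb k M * (L + 1) :=
      Nat.mul_le_mul_right _ (by omega)
    have e6 : (M * a + (M - 1)) * (L + 1)
        = M * a * (L + 1) + (M - 1) * L + (M - 1) := by ring
    have e7 : G * (L + 1) = M * a * (L + 1) + g * L + g := by
      calc G * (L + 1) = (M * a + g) * (L + 1) := by rw [e1]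
        _ = _ := by ring
    omega

/-- Distance between indices of keeping tokens. -/
theorem keep_dist {k M : ℕ} (hk : 1 ≤ k) (hM : 2 ≤ M) {τ D j G p j' G' p' : ℕ}
    (h1 : τ = tB (nb k M) k j + G * (k * j + 1) + p)
    (h2 : τ + D = tB (nb k M) k j' + G' * (k * j' + 1) + p') (hG : G < nb k M)
    (hG' : G' < nb k M) (hpj : p ≤ k * j) (hpj' : p' ≤ k * j')
    (hg : G % M = M - 1) (hg' : G' % M = M - 1) :
    tA k j' + p' ≤ tA k j + p + D ∧ tA k j + p ≤ tA k j' + p' + D := by
  obtain ⟨n1, n2, n3⟩ := nb_eq hk hM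
  have hjj := block_le h1 h2 hG' hpj'
  rcases Nat.eq_or_lt_of_le hjj with hj | hj
  · subst hj
    exact keep_dist_same hM h1 h2 hpj hpj' hg hg'
  · have h3 := tB_sub_tA (N := nb k M) (k := k) (r := 1) (by omega) (show j + 1 ≤ j' by omega)
    rw [tB_succ, tA_succ, one_mul, one_mul] at h3
    have h4 : tA k (j + 1) ≤ tA k j' := tA_mono (by omega)
    rw [tA_succ] at h4
    generalize k * j = L at *
    generalize k * j' = L' at *
    have h5 : (G + 1) * (L + 1) ≤ nb k M * (L + 1) := Nat.mul_le_mul_right _ (by omega)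
    have e5 : (G + 1) * (L + 1) = G * (L + 1) + (L + 1) := by ring
    have h6 : 0 ≤ G' * (L' + 1) := Nat.zero_le _
    omega

end Pool.Agent.Lib.MP_52ae34_co.Exact
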