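import Mathlib
import Pool.Agent.Lib.MP_52ae34_co.ExactMatch

set_option autoImplicit false

/-! Windows of matching tokens (sharp lower bound). -/

namespace Pool.Agent.Lib.MP_52ae34_co.Exact

section

variable {k M κ c E : ℕ}

theorem kM_mod (hk : 1 ≤ k) (hM : 2 ≤ M) : (k * M - 1) % M = M - 1 := by
  obtain ⟨k', rfl⟩ : ∃ k', k = k' + 1 := ⟨k - 1, by omega⟩
  have e : (k' + 1) * M - 1 = (M - 1) + M * k' := by
    have : (k' + 1) * M = M * k' + M := by ring
    omega
  rw [e, Nat.add_mul_mod_self_left]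
  exact Nat.mod_eq_of_lt (by omega)

theorem idx_inj {M k j j' g g' p p' : ℕ} (hg : g < M - 1) (hg' : g' < M - 1) (hp : 1 ≤ p)
    (hp' : 1 ≤ p') (hpj : p ≤ k * j) (hpj' : p' ≤ k * j')
    (h : (M - 1) * tA k j + g * (k * j) + p = (M - 1) * tA k j' + g' * (k * j') + p') :
    j = j' ∧ g = g' ∧ p = p' := by
  have key : ∀ {a a' b b' r r' : ℕ}, b < M - 1 → b' < M - 1 → 1 ≤ r' → r ≤ k * a →
      (M - 1) * tA k a + b * (k * a) + r = (M - 1) * tA k a' + b' * (k * a') + r' →
      ¬ (a < a') := by
    intro a a' b b' r r' h1 h2 h3 h4 h5 hlt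
    have h6 : (M - 1) * tA k (a + 1) ≤ (M - 1) * tA k a' :=
      Nat.mul_le_mul_left _ (tA_mono (by omega))
    have e3 : (M - 1) * tA k (a + 1) = (M - 1) * tA k a + (M - 1) * (k * a) := by
      rw [tA_succ]; ring
    have h7 : (b + 1) * (k * a) ≤ (M - 1) * (k * a) := Nat.mul_le_mul_right _ (by omega)
    have e7 : (b + 1) * (k * a) = b * (k * a) + k * a := by ring
    omega
  have hj : j = j' := by
    rcases lt_trichotomy j j' with h1 | h1 | h1
    · exact absurd h1 (key hg hg' hp' hpj h)
    · exact h1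
    · exact absurd h1 (key hg' hg hp hpj' h.symm)
  subst hj
  have hgg : g = g' := by
    rcases lt_trichotomy g g' with h1 | h1 | h1
    · have h7 : (g + 1) * (k * j) ≤ g' * (k * j) := Nat.mul_le_mul_right _ (by omega)
      have e7 : (g + 1) * (k * j) = g * (k * j) + k * j := by ring
      omega
    · exact h1
    · have h7 : (g' + 1) * (k * j) ≤ g * (k * j) := Nat.mul_le_mul_right _ (by omega)
      have e7 : (g' + 1) * (k * j) = g' * (k * j) + k * j := by ring
      omega
  subst hgg
  exact ⟨rfl, rfl, by omega⟩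

theorem idx2_inj {k j j' p p' : ℕ} (hp : 1 ≤ p) (hp' : 1 ≤ p') (hpj : p ≤ k * j)
    (hpj' : p' ≤ k * j') (h : tA k j + p = tA k j' + p') : j = j' ∧ p = p' := by
  have hj : j = j' := by
    rcases lt_trichotomy j j' with h1 | h1 | h1
    · exfalso
      have := tA_mono (k := k) (show j + 1 ≤ j' by omega)
      rw [tA_succ] at this
      omega
    · exact h1
    · exfalso
      have := tA_mono (k := k) (show j' + 1 ≤ j by omega)
      rw [tA_succ] at this
      omega
  subst hj
  exact ⟨rfl, by omega⟩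

/-- A repetition in `sg` written symmetrically. -/
theorem sg_rep {c a a' m : ℕ} (hc : 2 ≤ c) (hne : a ≠ a') (h : ∀ u < m, sg c (a + u) = sg c (a' + u))
    {B : ℕ} (h1 : a' ≤ a + B) (h2 : a ≤ a' + B) : m < 8 ∨ m * 2 ^ c < 4 * B := by
  rcases lt_or_gt_of_ne hne with hlt | hlt
  · have := sg_repeat c hc a (a' - a) m (by omega) fun u hu => by
      have e2 : a + (a' - a) + u = a' + u := by omega
      rw [e2]; exact h u hu
    omega
  · have := sg_repeat c hc a' (a - a') m (by omega) fun u hu => by
      have e2 : a' + (a - a') + u = a + u := by omega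
      rw [e2]; exact (h u hu).symm
    omega

theorem special_iff (hk : 1 ≤ k) (hM : 1 ≤ M) (hMc : M < 2 ^ c) (hE : 2 ^ c ≤ E)
    {s s' : ℕ × ℕ × ℕ} (h : zt k M c E s = zt k M c E s') : s.2.2 = 0 ↔ s'.2.2 = 0 := by
  have h1 := zt_cases (E := E) k hk hM hMc s
  have h2 := zt_cases (E := E) k hk hM hMc s'
  omega

theorem normal_run (hk : 1 ≤ k) (hM : 2 ≤ M) (hκ : M = k * κ + 1) (hMc : M < 2 ^ c) (hc : 2 ≤ c)
    (hE : 2 ^ c ≤ E) {t D m d : ℕ}
    (hD : 1 ≤ D) (hm : TMatch k M c E t D m) (hpos : pos k M c E (t + D) = pos k M c E t + d)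
    (hn : ∀ u < m, (st (nb k M) k (t + u)).2.2 ≠ 0) (hm1 : 1 ≤ m) :
    Aligned k M t D ∨ 2 ^ c * LL k M c E t m ≤ 16 * M * d + 8 * 2 ^ c * (E + 4 * 2 ^ c) := by
  obtain ⟨n1, n2, n3⟩ := nb_eq hk hM
  have hnb : 1 ≤ nb k M := by omega
  have hn' : ∀ u < m, (st (nb k M) k (t + D + u)).2.2 ≠ 0 := by
    intro u hu h0
    have h1 := (hm u hu).1
    unfold zf at h1
    exact hn u hu ((special_iff hk (by omega) hMc hE h1).mpr h0)
  rcases hs : st (nb k M) k t with ⟨j, G, p⟩
  rcases hs' : st (nb k M) k (t + D) with ⟨j', G', p'⟩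
  have hr := st_run hnb hn hs
  have hr' := st_run hnb hn' hs'
  have i1 := st_inv (k := k) hnb t
  have i2 := st_inv (k := k) hnb (t + D)
  rw [hs] at i1
  rw [hs'] at i2
  dsimp only at i1 i2
  obtain ⟨i1a, i1b, i1c⟩ := i1
  obtain ⟨i2a, i2b, i2c⟩ := i2
  have hp0 : p ≠ 0 := by have := hn 0 (by omega); rw [add_zero, hs] at this; exact this
  have hp0' : p' ≠ 0 := by have := hn' 0 (by omega); rw [add_zero, hs'] at this; exact this
  have htr : tt k M (j, G, p) = tt k M (j', G', p') := by
    have := (hm 0 (by omega)).2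
    unfold trk at this
    rw [add_zero, add_zero, hs, hs'] at this
    exact this
  have hzz : ∀ u < m, zt k M c E (j, G, p + u) = zt k M c E (j', G', p' + u) := by
    intro u hu
    have h1 := (hm u hu).1
    unfold zf at h1
    rw [(hr u hu).1, (hr' u hu).1] at h1
    exact h1
  have hDM : D ≤ M * D := Nat.le_mul_of_pos_left D (by omega)
  have hd := pos_add_ge (E := E) hk (by omega : 1 ≤ M) hMc t D
  have hdist : D * (2 ^ c + 1) ≤ d := by omega
  -- the bound from the number of tokens
  have hfin : ∀ b, b ≤ 4 → (∀ u < m, zf k M c E (t + u) + 1 ≤ b * 2 ^ c) →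
      ∀ B, B ≤ M * D → (m < 8 ∨ m * 2 ^ c < 4 * B) →
      2 ^ c * LL k M c E t m ≤ 16 * M * d + 8 * 2 ^ c * (E + 4 * 2 ^ c) := by
    intro b hb hlen B hB hrep
    have hLL := LL_le k M c E t m _ hlen
    have h3 : 2 ^ c * LL k M c E t m ≤ 2 ^ c * (m * (4 * 2 ^ c)) :=
      Nat.mul_le_mul_left _ (le_trans hLL (Nat.mul_le_mul_left _ (Nat.mul_le_mul_right _ hb)))
    refine le_trans h3 ?_
    rcases hrep with h | h
    · have h4 : 2 ^ c * (m * (4 * 2 ^ c)) ≤ 2 ^ c * (8 * (E + 4 * 2 ^ c)) :=
        Nat.mul_le_mul_left _ (Nat.mul_le_mul (by omega) (by omega))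
      have h5 : 2 ^ c * (8 * (E + 4 * 2 ^ c)) = 8 * 2 ^ c * (E + 4 * 2 ^ c) := by ring
      omega
    · have h4 : 2 ^ c * (m * (4 * 2 ^ c)) = (m * 2 ^ c) * (4 * 2 ^ c) := by ring
      have h5 : (m * 2 ^ c) * (4 * 2 ^ c) ≤ (4 * (M * D)) * (4 * 2 ^ c) :=
        Nat.mul_le_mul_right _ (by omega)
      have h6 : (4 * (M * D)) * (4 * 2 ^ c) = 16 * M * (D * 2 ^ c) := by ring
      have h7 : 16 * M * (D * 2 ^ c) ≤ 16 * M * d := Nat.mul_le_mul_left _ (by
        have : D * (2 ^ c + 1) = D * 2 ^ c + D := by ring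
        omega)
      omega
  have hz0 := hzz 0 (by omega)
  rw [add_zero, add_zero] at hz0
  have hc1 := zt_cases (E := E) k hk (by omega : 1 ≤ M) hMc (j, G, p)
  have hc2 := zt_cases (E := E) k hk (by omega : 1 ≤ M) hMc (j', G', p')
  dsimp only at hc1 hc2
  by_cases hrot : G % M ≠ M - 1
  · -- rotating tokens
    have hrot' : G' % M ≠ M - 1 := by omega
    have hsg : ∀ u < m, sg c ((M - 1) * tA k j + G % M * (k * j) + p + u)
        = sg c ((M - 1) * tA k j' + G' % M * (k * j') + p' + u) := by
      intro u hu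
      have h1 := hzz u hu
      rw [zt_rot (show (j, G, p + u).2.2 ≠ 0 by dsimp only; omega) hrot,
        zt_rot (show (j', G', p' + u).2.2 ≠ 0 by dsimp only; omega) hrot'] at h1
      dsimp only at h1
      rw [add_assoc _ p u, add_assoc _ p' u]
      omega
    have m1 := Nat.mod_lt G (show M > 0 by omega)
    have m2 := Nat.mod_lt G' (show M > 0 by omega)
    by_cases haa : (M - 1) * tA k j + G % M * (k * j) + p
        = (M - 1) * tA k j' + G' % M * (k * j') + p'
    · left
      obtain ⟨h1, h2, h3⟩ := idx_inj (by omega) (by omega) (by omega) (by omega) i1a i2a haa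
      subst h1
      subst h3
      have htk : G % k = G' % k := by
        unfold tt at htr
        dsimp only at htr
        rw [if_neg hrot, if_neg hrot'] at htr
        exact Nat.ModEq.add_right_cancel' p htr
      have hlt : G < G' := by
        by_contra hcon
        push Not at hcon
        have := Nat.mul_le_mul_right (k * j + 1) hcon
        omega
      have hGG := seg_eq hk hM hκ i2b hlt h2 htk
      subst hGG
      refine ⟨by rw [hs, hs'], ?_⟩
      rw [hs]
      dsimp only
      have : (G + k * M) * (k * j + 1) = G * (k * j + 1) + k * M * (k * j + 1) := by ring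
      omega
    · right
      obtain ⟨h1, h2⟩ := rot_dist hk hM i1c i2c i1b i2b (by omega) (by omega) i1a i2a hrot hrot'
      refine hfin 2 (by omega) ?_ (M * D) le_rfl (sg_rep hc haa hsg h1 h2)
      intro u hu
      unfold zf
      rw [(hr u hu).1, zt_rot (show (j, G, p + u).2.2 ≠ 0 by dsimp only; omega) hrot]
      dsimp only
      have := sg_lt c ((M - 1) * tA k j + G % M * (k * j) + (p + u))
      omega
  · push Not at hrot
    have hrot' : G' % M = M - 1 := by omega
    by_cases hG : G = k * M - 1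
    · -- dense tokens
      have hG' : G' = k * M - 1 := by omega
      have hsg : ∀ u < m, sg c (tA k j + p + u) = sg c (tA k j' + p' + u) := by
        intro u hu
        have h1 := hzz u hu
        rw [zt_dense hk (by omega) (show (j, G, p + u).2.2 ≠ 0 by dsimp only; omega) hG,
          zt_dense hk (by omega) (show (j', G', p' + u).2.2 ≠ 0 by dsimp only; omega) hG'] at h1
        dsimp only at h1
        rw [add_assoc _ p u, add_assoc _ p' u]
        omega
      have haa : tA k j + p ≠ tA k j' + p' := by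
        intro haa
        obtain ⟨h1, h3⟩ := idx2_inj (by omega) (by omega) i1a i2a haa
        subst h1
        subst h3
        rw [hG] at i1c
        rw [hG'] at i2c
        omega
      right
      have h1 := dc_mono_pos (c := c) (E := E) hk hM t D
      have hdc1 : dc k M t = tA k j + p := by
        unfold dc; rw [hs]; unfold ds; dsimp only
        rw [if_neg (by omega), if_pos hG]
      have hdc2 : dc k M (t + D) = tA k j' + p' := by
        unfold dc; rw [hs']; unfold ds; dsimp only
        rw [if_neg (by omega), if_pos hG']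
      have h2 : dc k M t ≤ dc k M (t + D) := dc_mono hk hM (by omega)
      rw [hdc1, hdc2] at h1 h2
      obtain ⟨δ, hδ⟩ := Nat.exists_eq_add_of_le h2
      have hrep : m < 8 ∨ m * 2 ^ c < 4 * δ := sg_rep hc haa hsg (by omega) (by omega)
      rw [hδ, Nat.mul_add] at h1
      have hWd : (E + 3 * 2 ^ c + 1) * δ ≤ d := by omega
      have hlen : ∀ u < m, zf k M c E (t + u) + 1 ≤ E + 4 * 2 ^ c := by
        intro u hu
        unfold zf
        rw [(hr u hu).1, zt_dense hk (by omega) (show (j, G, p + u).2.2 ≠ 0 by dsimp only; omega) hG]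
        dsimp only
        have := sg_lt c (tA k j + (p + u))
        omega
      have hLL := LL_le k M c E t m _ hlen
      have h3 : 2 ^ c * LL k M c E t m ≤ 2 ^ c * (m * (E + 4 * 2 ^ c)) :=
        Nat.mul_le_mul_left _ hLL
      refine le_trans h3 ?_
      rcases hrep with h | h
      · have h4 : 2 ^ c * (m * (E + 4 * 2 ^ c)) ≤ 2 ^ c * (8 * (E + 4 * 2 ^ c)) :=
          Nat.mul_le_mul_left _ (Nat.mul_le_mul (by omega) (by omega))
        have h5 : 2 ^ c * (8 * (E + 4 * 2 ^ c)) = 8 * 2 ^ c * (E + 4 * 2 ^ c) := by ring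
        omega
      · have h4 : 2 ^ c * (m * (E + 4 * 2 ^ c)) = (m * 2 ^ c) * (E + 4 * 2 ^ c) := by ring
        have h5 : (m * 2 ^ c) * (E + 4 * 2 ^ c) ≤ (4 * δ) * (2 * (E + 3 * 2 ^ c + 1)) :=
          Nat.mul_le_mul (by omega) (by omega)
        have h6 : (4 * δ) * (2 * (E + 3 * 2 ^ c + 1)) = 8 * ((E + 3 * 2 ^ c + 1) * δ) := by ring
        have h7 : 8 * d ≤ 16 * M * d := Nat.mul_le_mul_right _ (by omega)
        omega
    · -- keeping tokens
      have hG' : G' ≠ k * M - 1 := by omega
      have hsg : ∀ u < m, sg c (tA k j + p + u) = sg c (tA k j' + p' + u) := by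
        intro u hu
        have h1 := hzz u hu
        rw [zt_keep (show (j, G, p + u).2.2 ≠ 0 by dsimp only; omega) hrot hG,
          zt_keep (show (j', G', p' + u).2.2 ≠ 0 by dsimp only; omega) hrot' hG'] at h1
        dsimp only at h1
        rw [add_assoc _ p u, add_assoc _ p' u]
        omega
      by_cases haa : tA k j + p = tA k j' + p'
      · left
        obtain ⟨h1, h3⟩ := idx2_inj (by omega) (by omega) i1a i2a haa
        subst h1
        subst h3
        have htk : G % k = G' % k := by
          unfold tt at htr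
          dsimp only at htr
          rw [if_pos hrot, if_pos hrot'] at htr
          exact htr
        have hlt : G < G' := by
          by_contra hcon
          push Not at hcon
          have := Nat.mul_le_mul_right (k * j + 1) hcon
          omega
        have hGG := seg_eq hk hM hκ i2b hlt (by rw [hrot, hrot']) htk
        subst hGG
        refine ⟨by rw [hs, hs'], ?_⟩
        rw [hs]
        dsimp only
        have : (G + k * M) * (k * j + 1) = G * (k * j + 1) + k * M * (k * j + 1) := by ring
        omega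
      · right
        obtain ⟨h1, h2⟩ := keep_dist hk hM i1c i2c i1b i2b i1a i2a hrot hrot'
        refine hfin 4 (by omega) ?_ D hDM (sg_rep hc haa hsg h1 h2)
        intro u hu
        unfold zf
        rw [(hr u hu).1, zt_keep (show (j, G, p + u).2.2 ≠ 0 by dsimp only; omega) hrot hG]
        dsimp only
        have := sg_lt c (tA k j + (p + u))
        omega

theorem pos_shift {t D m d : ℕ} (hm : TMatch k M c E t D m)
    (hpos : pos k M c E (t + D) = pos k M c E t + d) (u : ℕ) (hu : u < m) :
    pos k M c E (t + u + D) = pos k M c E (t + u) + d := by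
  induction u with
  | zero => simpa using hpos
  | succ u ih =>
    have h1 := ih (by omega)
    have h2 := (hm (u + 1) hu).1
    have e1 : t + (u + 1) + D = t + u + D + 1 := by ring
    have e2 : t + D + (u + 1) = t + u + D + 1 := by ring
    have e3 : t + (u + 1) = t + u + 1 := by ring
    rw [e2, e3] at h2
    rw [e1, e3, pos_succ, pos_succ, h1, ← h2]
    ring

theorem aligned_bound (hk : 1 ≤ k) (hM : 2 ≤ M) (hMc : M < 2 ^ c)
    (hE2 : 4 * 2 ^ c * 2 ^ c * (k * M) ≤ E)
    {t D m d : ℕ} (hm : TMatch k M c E t D m)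
    (hpos : pos k M c E (t + D) = pos k M c E t + d) {u0 : ℕ} (hu0 : u0 < m)
    (hal : Aligned k M (t + u0) D) : 2 ^ c * LL k M c E t m ≤ d + E := by
  obtain ⟨n1, n2, n3⟩ := nb_eq hk hM
  have hnb : 1 ≤ nb k M := by omega
  rcases hs : st (nb k M) k (t + u0) with ⟨j, G, p⟩
  obtain ⟨ha1, ha2⟩ := hal
  rw [hs] at ha1 ha2
  dsimp only at ha1 ha2
  have i1 := st_inv (k := k) hnb (t + u0)
  have i2 := st_inv (k := k) hnb (t + u0 + D)
  rw [hs] at i1
  rw [ha1] at i2
  dsimp only at i1 i2
  obtain ⟨i1a, i1b, i1c⟩ := i1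
  obtain ⟨-, i2b, -⟩ := i2
  have hGk : G + 1 ≤ k * M - 1 := by omega
  -- the window starts after the first token of the block
  have claim1 : tB (nb k M) k j < t := by
    by_contra hcon
    have h1 := (hm (tB (nb k M) k j - t) (by omega)).1
    have e1 : t + (tB (nb k M) k j - t) = tB (nb k M) k j := by omega
    have e2 : t + D + (tB (nb k M) k j - t) = tB (nb k M) k j + k * M * (k * j + 1) + 0 := by omega
    unfold zf at h1
    rw [e1, e2, st_B hnb j, st_of hnb (by omega) (by omega), zt_special_zero rfl rfl,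
      zt_special rfl (show k * M ≠ 0 by omega)] at h1
    dsimp only at h1
    rw [Nat.mul_mod_left] at h1
    omega
  have hle : G * (k * j + 1) + (k * j + 1) ≤ (k * M - 1) * (k * j + 1) := by
    have := Nat.mul_le_mul_right (k * j + 1) hGk
    have e : (G + 1) * (k * j + 1) = G * (k * j + 1) + (k * j + 1) := by ring
    omega
  have claim2 : t + m ≤ tB (nb k M) k j + (k * M - 1) * (k * j + 1) := by
    by_contra hcon
    have h1 := (hm (tB (nb k M) k j + (k * M - 1) * (k * j + 1) - t) (by omega)).1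
    have e1 : t + (tB (nb k M) k j + (k * M - 1) * (k * j + 1) - t)
        = tB (nb k M) k j + (k * M - 1) * (k * j + 1) + 0 := by omega
    have e3 : (k * M - 1) * (k * j + 1) + k * M * (k * j + 1) = nb k M * (k * j + 1) := by
      rw [← Nat.add_mul]; congr 1; omega
    have e2 : t + D + (tB (nb k M) k j + (k * M - 1) * (k * j + 1) - t) = tB (nb k M) k (j + 1) := by
      rw [tB_succ]; omega
    unfold zf at h1
    rw [e1, e2, st_B hnb (j + 1), st_of hnb (by omega) (by omega),
      zt_special_zero (s := (j + 1, 0, 0)) rfl rfl,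
      zt_special (s := (j, k * M - 1, 0)) rfl (show k * M - 1 ≠ 0 by omega)] at h1
    dsimp only at h1
    rw [kM_mod hk hM] at h1
    omega
  have hst : ∀ τ, tB (nb k M) k j < τ → τ < tB (nb k M) k j + (k * M - 1) * (k * j + 1) →
      ∃ G' p', st (nb k M) k τ = (j, G', p') ∧ G' < k * M - 1 ∧ p' ≤ k * j ∧
        τ = tB (nb k M) k j + G' * (k * j + 1) + p' ∧ (p' = 0 → G' ≠ 0) := by
    intro τ h1 h2
    have h3 : (τ - tB (nb k M) k j) / (k * j + 1) < k * M - 1 := by
      rw [Nat.div_lt_iff_lt_mul (by omega)]; omega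
    have h4 : (τ - tB (nb k M) k j) % (k * j + 1) < k * j + 1 := Nat.mod_lt _ (by omega)
    have h5 : τ = tB (nb k M) k j + (τ - tB (nb k M) k j) / (k * j + 1) * (k * j + 1)
        + (τ - tB (nb k M) k j) % (k * j + 1) := by
      have := Nat.div_add_mod (τ - tB (nb k M) k j) (k * j + 1)
      rw [mul_comm] at this
      omega
    refine ⟨(τ - tB (nb k M) k j) / (k * j + 1), (τ - tB (nb k M) k j) % (k * j + 1), ?_, h3,
      by omega, h5, ?_⟩
    · conv_lhs => rw [h5]
      exact st_of hnb (by omega) (by omega)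
    · intro hp' hG'
      rw [hp', hG'] at h5
      omega
  have hz : ∀ u < m, zf k M c E (t + u) + 1 ≤ 4 * 2 ^ c := by
    intro u hu
    obtain ⟨G', p', h1, h2, -, -, h3⟩ := hst (t + u) (by omega) (by omega)
    unfold zf
    rw [h1]
    have := zt_cases (E := E) k hk (by omega : 1 ≤ M) hMc (j, G', p')
    dsimp only at this
    omega
  have hLL := LL_le k M c E t m _ hz
  have hmle : m ≤ k * M * (k * j + 1) := by
    have : (k * M - 1) * (k * j + 1) ≤ k * M * (k * j + 1) := Nat.mul_le_mul_right _ (by omega)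
    omega
  -- the distance
  have hd : (E + 3 * 2 ^ c + 1) * (k * j) ≤ d := by
    obtain ⟨G', p', h1, h2, h2', h3, -⟩ := hst t claim1 (by omega)
    have h4 : st (nb k M) k (t + D) = (j, G' + k * M, p') := by
      have e : t + D = tB (nb k M) k j + (G' + k * M) * (k * j + 1) + p' := by
        rw [Nat.add_mul]; omega
      rw [e]
      exact st_of hnb (by omega) h2'
    have h5 := dc_mono_pos (c := c) (E := E) hk hM t D
    have hdc1 : dc k M t = tA k j := by
      unfold dc; rw [h1]; unfold ds; dsimp only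
      rw [if_pos h2]; rfl
    have hdc2 : dc k M (t + D) = tA k j + k * j := by
      unfold dc; rw [h4]; unfold ds; dsimp only
      rw [if_neg (by omega), if_neg (by omega)]
    rw [hdc1, hdc2] at h5
    have e3 : (E + 3 * 2 ^ c + 1) * (tA k j + k * j)
        = (E + 3 * 2 ^ c + 1) * tA k j + (E + 3 * 2 ^ c + 1) * (k * j) := by ring
    omega
  calc 2 ^ c * LL k M c E t m ≤ 2 ^ c * (k * M * (k * j + 1) * (4 * 2 ^ c)) :=
        Nat.mul_le_mul_left _ (le_trans hLL (Nat.mul_le_mul_right _ hmle))
    _ = (4 * 2 ^ c * 2 ^ c * (k * M)) * (k * j + 1) := by ring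
    _ ≤ E * (k * j + 1) := Nat.mul_le_mul_right _ hE2
    _ ≤ d + E := by
        have e4 : (E + 3 * 2 ^ c + 1) * (k * j) = E * (k * j) + (3 * 2 ^ c + 1) * (k * j) := by ring
        have e5 : E * (k * j + 1) = E * (k * j) + E := by ring
        omega

/-- Two consecutive special tokens force an alignment. -/
theorem aligned_of_two_special (hk : 1 ≤ k) (hM : 2 ≤ M) (hκ : M = k * κ + 1) (hMc : M < 2 ^ c)
    (hE : 2 ^ c ≤ E) {t D m : ℕ}
    (hD : 1 ≤ D) (hm : TMatch k M c E t D m) {u1 u2 : ℕ} (h12 : u1 < u2) (hu2 : u2 < m)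
    (hs1 : (st (nb k M) k (t + u1)).2.2 = 0) (hs2 : (st (nb k M) k (t + u2)).2.2 = 0)
    (hbetween : ∀ u, u1 < u → u < u2 → (st (nb k M) k (t + u)).2.2 ≠ 0) :
    Aligned k M (t + u1) D := by
  obtain ⟨n1, n2, n3⟩ := nb_eq hk hM
  have hnb : 1 ≤ nb k M := by omega
  have hsp : ∀ u < m, ((st (nb k M) k (t + u)).2.2 = 0 ↔ (st (nb k M) k (t + D + u)).2.2 = 0) := by
    intro u hu
    have h1 := (hm u hu).1
    unfold zf at h1
    exact special_iff hk (by omega) hMc hE h1
  have key : ∀ (τ j G : ℕ), st (nb k M) k τ = (j, G, 0) →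
      (st (nb k M) k (τ + (u2 - u1))).2.2 = 0 →
      (∀ v, 1 ≤ v → v < u2 - u1 → (st (nb k M) k (τ + v)).2.2 ≠ 0) → u2 - u1 = k * j + 1 := by
    intro τ j G h1 h2 h3
    rcases lt_trichotomy (u2 - u1) (k * j + 1) with h | h | h
    · exfalso
      have := st_add h1 (u2 - u1) (by omega)
      rw [this] at h2
      dsimp only at h2
      omega
    · exact h
    · exfalso
      have h4 := st_add h1 (k * j) (by omega)
      rw [zero_add] at h4
      have h5 := h3 (k * j + 1) (by omega) h
      by_cases hG : G + 1 < nb k M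
      · have := st_succ_next h4 hG
        rw [← add_assoc, this] at h5
        exact h5 rfl
      · have := st_succ_last h4 hG
        rw [← add_assoc, this] at h5
        exact h5 rfl
  rcases hs : st (nb k M) k (t + u1) with ⟨j, G, p⟩
  rcases hs' : st (nb k M) k (t + D + u1) with ⟨j', G', p'⟩
  have hp : p = 0 := by rw [hs] at hs1; exact hs1
  have hp' : p' = 0 := by
    have := (hsp u1 (by omega)).mp hs1
    rw [hs'] at this; exact this
  subst hp
  subst hp'
  have k1 := key (t + u1) j G hs (by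
    have e : t + u1 + (u2 - u1) = t + u2 := by omega
    rw [e]; exact hs2) (by
    intro v hv1 hv2
    rw [add_assoc]
    exact hbetween (u1 + v) (by omega) (by omega))
  have k2 := key (t + D + u1) j' G' hs' (by
    have e : t + D + u1 + (u2 - u1) = t + D + u2 := by omega
    rw [e]; exact (hsp u2 hu2).mp hs2) (by
    intro v hv1 hv2 h0
    rw [add_assoc] at h0
    exact hbetween (u1 + v) (by omega) (by omega) ((hsp (u1 + v) (by omega)).mpr h0))
  have hjj : j = j' := by
    have h3 : k * j = k * j' := by omega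
    exact Nat.eq_of_mul_eq_mul_left (by omega) h3
  subst hjj
  have i1 := st_inv (k := k) hnb (t + u1)
  have i2 := st_inv (k := k) hnb (t + D + u1)
  rw [hs] at i1
  rw [hs'] at i2
  dsimp only at i1 i2
  obtain ⟨-, i1b, i1c⟩ := i1
  obtain ⟨-, i2b, i2c⟩ := i2
  have hlt : G < G' := by
    by_contra hcon
    push Not at hcon
    have := Nat.mul_le_mul_right (k * j + 1) hcon
    omega
  have hz := (hm u1 (by omega)).1
  have htr := (hm u1 (by omega)).2
  unfold zf at hz
  unfold trk at htr
  rw [hs, hs'] at hz htr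
  have hg : G % M = G' % M := by
    rw [zt_special (s := (j, G', 0)) rfl (show G' ≠ 0 by omega)] at hz
    dsimp only at hz
    have m2 := Nat.mod_lt G' (show M > 0 by omega)
    by_cases hG0 : G = 0
    · rw [zt_special_zero (s := (j, G, 0)) rfl hG0] at hz
      omega
    · rw [zt_special (s := (j, G, 0)) rfl hG0] at hz
      dsimp only at hz
      omega
  have htk : G % k = G' % k := by
    unfold tt at htr
    dsimp only at htr
    rw [add_zero, add_zero] at htr
    split_ifs at htr <;> exact htr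
  have hGG := seg_eq hk hM hκ i2b hlt hg htk
  subst hGG
  have e : t + u1 + D = t + D + u1 := by ring
  refine ⟨by rw [e, hs, hs'], ?_⟩
  rw [hs]
  dsimp only
  have : (G + k * M) * (k * j + 1) = G * (k * j + 1) + k * M * (k * j + 1) := by ring
  omega

theorem TMatch.sub {t D m : ℕ} (hm : TMatch k M c E t D m) (u m' : ℕ) (h : u + m' ≤ m) :
    TMatch k M c E (t + u) D m' := by
  intro v hv
  have := hm (u + v) (by omega)
  have e1 : t + u + v = t + (u + v) := by ring
  have e2 : t + u + D + v = t + D + (u + v) := by ring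
  rw [e1, e2]; exact this

theorem window_bound (hk : 1 ≤ k) (hM : 2 ≤ M) (hκ : M = k * κ + 1) (hMc : M < 2 ^ c)
    (hc : 2 ≤ c) (hE : 2 ^ c ≤ E) (hE2 : 4 * 2 ^ c * 2 ^ c * (k * M) ≤ E) {t D m d : ℕ}
    (hD : 1 ≤ D) (hm : TMatch k M c E t D m)
    (hpos : pos k M c E (t + D) = pos k M c E t + d) :
    2 ^ c * LL k M c E t m ≤ 32 * M * d + 32 * 2 ^ c * (E + 4 * 2 ^ c) := by
  classical
  set C := 8 * 2 ^ c * (E + 4 * 2 ^ c) with hC
  have hC4 : 32 * 2 ^ c * (E + 4 * 2 ^ c) = 4 * C := by rw [hC]; ring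
  have hEC : E ≤ C := by
    rw [hC]
    have h1 : 1 ≤ 8 * 2 ^ c := by have := Nat.one_le_two_pow (n := c); omega
    calc E ≤ 1 * (E + 4 * 2 ^ c) := by omega
      _ ≤ 8 * 2 ^ c * (E + 4 * 2 ^ c) := Nat.mul_le_mul_right _ h1
  have hMd : d ≤ 16 * M * d := by
    have : 1 * d ≤ 16 * M * d := Nat.mul_le_mul_right _ (by omega)
    omega
  have hMd2 : 32 * M * d = 2 * (16 * M * d) := by ring
  rw [hC4, hMd2]
  have hal : ∀ u0 < m, Aligned k M (t + u0) D →
      2 ^ c * LL k M c E t m ≤ 2 * (16 * M * d) + 4 * C := by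
    intro u0 hu0 h
    have := aligned_bound hk hM hMc hE2 hm hpos hu0 h
    omega
  -- a run of normal tokens inside the window
  have hrun : ∀ u m', u + m' ≤ m → (∀ v < m', (st (nb k M) k (t + u + v)).2.2 ≠ 0) →
      2 ^ c * LL k M c E t m ≤ 2 * (16 * M * d) + 4 * C ∨
        2 ^ c * LL k M c E (t + u) m' ≤ 16 * M * d + C := by
    intro u m' hum hn
    rcases Nat.eq_zero_or_pos m' with h0 | h0
    · subst h0
      right
      unfold LL
      simp
    · have hpos' := pos_shift hm hpos u (by omega)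
      rcases normal_run hk hM hκ hMc hc hE hD (hm.sub u m' hum) hpos' hn h0 with h | h
      · left; exact hal u (by omega) h
      · right; exact h
  by_cases hex : ∃ u, u < m ∧ (st (nb k M) k (t + u)).2.2 = 0
  · obtain ⟨hu1m, hu1⟩ := Nat.find_spec hex
    set u1 := Nat.find hex with hu1def
    have hmin : ∀ u < u1, (st (nb k M) k (t + u)).2.2 ≠ 0 := by
      intro u hu h0
      exact Nat.find_min hex hu ⟨by omega, h0⟩
    by_cases hex2 : ∃ u, u1 < u ∧ u < m ∧ (st (nb k M) k (t + u)).2.2 = 0
    · obtain ⟨h1, h2, h3⟩ := Nat.find_spec hex2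
      set u2 := Nat.find hex2 with hu2def
      have hbet : ∀ u, u1 < u → u < u2 → (st (nb k M) k (t + u)).2.2 ≠ 0 := by
        intro u ha hb h0
        exact Nat.find_min hex2 hb ⟨ha, by omega, h0⟩
      exact hal u1 hu1m (aligned_of_two_special hk hM hκ hMc hE hD hm h1 h2 hu1 h3 hbet)
    · push Not at hex2
      rcases hrun 0 u1 (by omega) (by intro v hv; rw [add_zero]; exact hmin v hv) with h | h
      · exact h
      · rcases hrun (u1 + 1) (m - (u1 + 1)) (by omega) (by
          intro v hv
          rw [add_assoc]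
          exact hex2 (u1 + 1 + v) (by omega) (by omega)) with h' | h'
        · exact h'
        · have e1 : m = u1 + (1 + (m - (u1 + 1))) := by omega
          have e2 : LL k M c E t m = LL k M c E t u1 + (LL k M c E (t + u1) 1
              + LL k M c E (t + (u1 + 1)) (m - (u1 + 1))) := by
            conv_lhs => rw [e1]
            rw [LL_add, LL_add, add_assoc]
          have e3 := LL_le k M c E (t + u1) 1 (E + 4 * 2 ^ c + 1) (by
            intro u _
            have := zt_le (E := E) hk (by omega : 1 ≤ M) hMc (st (nb k M) k (t + u1 + u))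
            unfold zf; omega)
          rw [one_mul] at e3
          have e4 : 2 ^ c * LL k M c E (t + u1) 1 ≤ C := by
            calc 2 ^ c * LL k M c E (t + u1) 1 ≤ 2 ^ c * (E + 4 * 2 ^ c + 1) :=
                  Nat.mul_le_mul_left _ e3
              _ ≤ 2 ^ c * (8 * (E + 4 * 2 ^ c)) := Nat.mul_le_mul_left _ (by omega)
              _ = C := by rw [hC]; ring
          rw [e2, Nat.mul_add, Nat.mul_add]
          rw [add_zero] at h
          omega
  · push Not at hex
    rcases hrun 0 m (by omega) (by intro v hv; rw [add_zero]; exact hex v hv) with h | h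
    · exact h
    · rw [add_zero] at h; omega

end

end Pool.Agent.Lib.MP_52ae34_co.Exact
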