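import Mathlib
import Pool.Agent.Lib.MP_52ae34_co.Defs
import Pool.Agent.Lib.MP_52ae34_co.ExactWindow

set_option autoImplicit false

/-! The infinite word of the sharp lower bound and its asymptotic critical exponent. -/

namespace Pool.Agent.Lib.MP_52ae34_co.Exact

open Filter
open scoped ENNReal

open Classical in
/-- The letter at position `n`: the track of a token, or the filler `k`. -/
noncomputable def wv (k M c E n : ℕ) : ℕ :=
  if h : ∃ τ, pos k M c E τ = n then trk k M h.choose else k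

theorem wv_pos (k M c E τ : ℕ) : wv k M c E (pos k M c E τ) = trk k M τ := by
  have h : ∃ τ', pos k M c E τ' = pos k M c E τ := ⟨τ, rfl⟩
  unfold wv
  rw [dif_pos h]
  congr 1
  exact (pos_strictMono k M c E).injective h.choose_spec

theorem wv_not {k M c E n : ℕ} (h : ∀ τ, pos k M c E τ ≠ n) : wv k M c E n = k := by
  unfold wv
  rw [dif_neg (by push Not; exact h)]

theorem trk_lt {k : ℕ} (hk : 1 ≤ k) (M τ : ℕ) : trk k M τ < k := by
  unfold trk tt
  split_ifs
  · exact Nat.mod_lt _ (by omega)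
  · exact Nat.mod_lt _ (by omega)

theorem wv_le {k : ℕ} (hk : 1 ≤ k) (M c E n : ℕ) : wv k M c E n ≤ k := by
  by_cases h : ∃ τ, pos k M c E τ = n
  · obtain ⟨τ, rfl⟩ := h
    rw [wv_pos]
    exact (trk_lt hk M τ).le
  · push Not at h
    rw [wv_not h]

theorem wv_lt_iff {k : ℕ} (hk : 1 ≤ k) (M c E n : ℕ) :
    wv k M c E n < k ↔ ∃ τ, pos k M c E τ = n := by
  constructor
  · intro h
    by_contra hcon
    push Not at hcon
    rw [wv_not hcon] at h
    omega
  · rintro ⟨τ, rfl⟩
    rw [wv_pos]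
    exact trk_lt hk M τ

theorem pos_add (k M c E τ m : ℕ) :
    pos k M c E (τ + m) = pos k M c E τ + LL k M c E (τ + 1) m := by
  induction m with
  | zero => simp [LL]
  | succ m ih =>
    have h1 : LL k M c E (τ + 1) (m + 1) = LL k M c E (τ + 1) m + (zf k M c E (τ + 1 + m) + 1) := by
      unfold LL
      rw [Finset.sum_range_succ]
    have e : τ + (m + 1) = τ + m + 1 := by ring
    have e2 : τ + 1 + m = τ + m + 1 := by ring
    rw [e, pos_succ, ih, h1, e2]
    ring

section

variable {k M κ c E : ℕ}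

theorem pos_succ_le (hk : 1 ≤ k) (hM : 1 ≤ M) (hMc : M < 2 ^ c) (τ : ℕ) :
    pos k M c E (τ + 1) ≤ pos k M c E τ + (E + 4 * 2 ^ c) + 1 := by
  rw [pos_succ]
  have := zt_le (E := E) hk hM hMc (st (nb k M) k (τ + 1))
  unfold zf
  omega

/-- The first token at or after a position. -/
theorem exists_first (hk : 1 ≤ k) (hM : 1 ≤ M) (hMc : M < 2 ^ c) (P : ℕ) :
    ∃ t, P ≤ pos k M c E t ∧ pos k M c E t ≤ P + (E + 4 * 2 ^ c)
    ∧ ∀ τ, P ≤ pos k M c E τ → t ≤ τ := by
  classical
  have hex : ∃ t, P ≤ pos k M c E t := ⟨P, (pos_strictMono k M c E).id_le P⟩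
  refine ⟨Nat.find hex, Nat.find_spec hex, ?_, fun τ hτ => Nat.find_le hτ⟩
  rcases Nat.eq_zero_or_pos (Nat.find hex) with h0 | h0
  · rw [h0]
    have h1 : pos k M c E 0 = zf k M c E 0 := rfl
    rw [h1]
    have := zt_le (E := E) hk hM hMc (st (nb k M) k 0)
    unfold zf
    omega
  · have h1 := Nat.find_min hex (m := Nat.find hex - 1) (by omega)
    have h2 := pos_succ_le (E := E) hk hM hMc (Nat.find hex - 1)
    rw [Nat.sub_add_cancel h0] at h2
    omega

theorem letter_bound (hk : 1 ≤ k) (hM : 2 ≤ M) (hκ : M = k * κ + 1) (hMc : M < 2 ^ c)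
    (hc : 2 ≤ c) (hE : 2 ^ c ≤ E) (hE2 : 4 * 2 ^ c * 2 ^ c * (k * M) ≤ E) {P d l : ℕ}
    (hd : 1 ≤ d) (h : ∀ i < l, wv k M c E (P + i) = wv k M c E (P + i + d)) :
    2 ^ c * l ≤ 32 * M * d + (32 * 2 ^ c * (E + 4 * 2 ^ c)
      + 2 ^ c * (2 * (E + 4 * 2 ^ c) + 1)) := by
  have hM1 : 1 ≤ M := by omega
  set Z := E + 4 * 2 ^ c with hZ
  set C := 32 * 2 ^ c * Z with hC
  have hmono := pos_strictMono k M c E
  obtain ⟨t, ht1, ht2, ht3⟩ := exists_first (E := E) hk hM1 hMc P
  rw [← hZ] at ht2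
  -- positions in the window
  have hiff : ∀ n, P ≤ n → n < P + l →
      ((∃ τ, pos k M c E τ = n) ↔ ∃ τ, pos k M c E τ = n + d) := by
    intro n h1 h2
    have h3 := h (n - P) (by omega)
    rw [Nat.add_sub_cancel' h1] at h3
    rw [← wv_lt_iff hk, ← wv_lt_iff hk, h3]
  have htrk : ∀ τ τ', P ≤ pos k M c E τ → pos k M c E τ < P + l →
      pos k M c E τ' = pos k M c E τ + d → trk k M τ = trk k M τ' := by
    intro τ τ' h1 h2 h4
    have h3 := h (pos k M c E τ - P) (by omega)
    rw [Nat.add_sub_cancel' h1, ← h4, wv_pos, wv_pos] at h3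
    exact h3
  by_cases hl : P + l ≤ pos k M c E t
  · have h1 : l ≤ Z := by omega
    have h2 : 2 ^ c * l ≤ 2 ^ c * (2 * Z + 1) := Nat.mul_le_mul_left _ (by omega)
    omega
  · push Not at hl
    obtain ⟨t', ht'⟩ := (hiff (pos k M c E t) ht1 hl).mp ⟨t, rfl⟩
    have htt' : t < t' := by
      rw [← hmono.lt_iff_lt (a := t)]; omega
    obtain ⟨D, hD, rfl⟩ : ∃ D, 1 ≤ D ∧ t' = t + D := ⟨t' - t, by omega, by omega⟩
    -- the number of further tokens in the window
    obtain ⟨e, he1, he2, he3⟩ := exists_first (E := E) hk hM1 hMc (P + l)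
    rw [← hZ] at he2
    have hte : t < e := by
      rw [← hmono.lt_iff_lt (a := t)]; omega
    obtain ⟨m, rfl⟩ : ∃ m, e = t + m + 1 := ⟨e - t - 1, by omega⟩
    have hlast : pos k M c E (t + m) < P + l := by
      by_contra hcon
      push Not at hcon
      have := he3 _ hcon
      omega
    have hin : ∀ u ≤ m, pos k M c E (t + u) < P + l ∧ P ≤ pos k M c E (t + u) := by
      intro u hu
      have h1 : pos k M c E (t + u) ≤ pos k M c E (t + m) := hmono.monotone (by omega)
      have h2 : pos k M c E t ≤ pos k M c E (t + u) := hmono.monotone (by omega)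
      omega
    have hshift : ∀ u ≤ m, pos k M c E (t + D + u) = pos k M c E (t + u) + d := by
      intro u
      induction u with
      | zero => intro _; simpa using ht'
      | succ u ih =>
        intro hu
        have h1 := ih (by omega)
        obtain ⟨h2, h3⟩ := hin (u + 1) hu
        obtain ⟨τ', hτ'⟩ := (hiff _ h3 h2).mp ⟨_, rfl⟩
        have h4 : pos k M c E (t + u) < pos k M c E (t + (u + 1)) := hmono (by omega)
        have h5 : t + D + u < τ' := by
          rw [← hmono.lt_iff_lt (a := t + D + u)]; omega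
        have h6 : pos k M c E (t + D + (u + 1)) ≤ pos k M c E τ' := hmono.monotone (by omega)
        have h7 : pos k M c E (t + D + u) < pos k M c E (t + D + (u + 1)) := hmono (by omega)
        -- the token before
        obtain ⟨h8, h9⟩ := hin u (by omega)
        obtain ⟨τ'', hτ''⟩ := (hiff (pos k M c E (t + D + (u + 1)) - d) (by omega) (by omega)).mpr
          ⟨t + D + (u + 1), by omega⟩
        have h10 : t + u < τ'' := by
          rw [← hmono.lt_iff_lt (a := t + u)]; omega
        have h11 : pos k M c E (t + (u + 1)) ≤ pos k M c E τ'' := hmono.monotone (by omega)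
        omega
    have hmatch : TMatch k M c E (t + 1) D m := by
      intro u hu
      have h1 := hshift u (by omega)
      have h2 := hshift (u + 1) (by omega)
      have e1 : t + D + (u + 1) = t + D + u + 1 := by ring
      have e2 : t + (u + 1) = t + u + 1 := by ring
      rw [e1, e2, pos_succ, pos_succ] at h2
      have e3 : t + 1 + u = t + u + 1 := by ring
      have e4 : t + 1 + D + u = t + D + u + 1 := by ring
      rw [e3, e4]
      refine ⟨by omega, ?_⟩
      obtain ⟨h5, h6⟩ := hin (u + 1) (by omega)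
      rw [← add_assoc] at h5 h6
      apply htrk _ _ h6 h5
      have h7 := hshift (u + 1) (by omega)
      rw [← add_assoc, ← add_assoc] at h7
      exact h7
    have hLL : 2 ^ c * LL k M c E (t + 1) m ≤ 32 * M * d + C := by
      rcases Nat.eq_zero_or_pos m with h0 | h0
      · subst h0
        unfold LL
        simp
      · refine window_bound hk hM hκ hMc hc hE hE2 hD hmatch ?_
        have h1 := hshift 1 (by omega)
        have e4 : t + 1 + D = t + D + 1 := by ring
        rw [e4]; exact h1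
    have h1 := pos_add k M c E t m
    have h2 := pos_succ_le (E := E) hk hM1 hMc (t + m)
    rw [← hZ] at h2
    have h3 : l ≤ LL k M c E (t + 1) m + (2 * Z + 1) := by omega
    have h4 : 2 ^ c * l ≤ 2 ^ c * (LL k M c E (t + 1) m + (2 * Z + 1)) := Nat.mul_le_mul_left _ h3
    rw [Nat.mul_add] at h4
    omega

end

/-- The infinite word over `Fin (k+1)`. -/
noncomputable def ww (k M c E : ℕ) (n : ℕ) : Fin (k + 1) := Fin.ofNat (k + 1) (wv k M c E n)

theorem ww_val {k : ℕ} (hk : 1 ≤ k) (M c E n : ℕ) : (ww k M c E n).val = wv k M c E n := by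
  unfold ww
  rw [Fin.val_ofNat]
  exact Nat.mod_eq_of_lt (by have := wv_le hk M c E n; omega)

theorem ACE_ww_le {k M κ c E : ℕ} (hk : 1 ≤ k) (hM : 2 ≤ M) (hκ : M = k * κ + 1)
    (hMc : M < 2 ^ c) (hc : 2 ≤ c) (hE : 2 ^ c ≤ E) (hE2 : 4 * 2 ^ c * 2 ^ c * (k * M) ≤ E) :
    ACE (ww k M c E) ≤ 1 + ((32 * M + 1 : ℕ) : ℝ≥0∞) / 2 ^ c := by
  set C := 32 * 2 ^ c * (E + 4 * 2 ^ c) + 2 ^ c * (2 * (E + 4 * 2 ^ c) + 1) with hC
  set R := 32 * M with hR
  unfold ACE
  refine limsup_le_of_le (by isBoundedDefault) ?_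
  filter_upwards [eventually_ge_atTop ((R + 1 + 2 ^ c) * C + C)] with m hm
  refine iSup_le fun i => expo_le fun p hp hper => ?_
  rcases le_or_gt m p with hmp | hmp
  · refine le_trans ?_ (le_self_add (a := (1 : ℝ≥0∞)))
    refine ENNReal.div_le_of_le_mul ?_
    rw [one_mul]
    exact_mod_cast hmp
  · have h1 : 2 ^ c * (m - p) ≤ R * p + C := by
      refine letter_bound hk hM hκ hMc hc hE hE2 (P := i) hp fun j hj => ?_
      have := congrArg Fin.val (hper j (by omega))
      rw [ww_val hk, ww_val hk] at this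
      exact this
    have h2 : C ≤ p := by
      by_contra hcon
      push Not at hcon
      have e1 : 2 ^ c * m = 2 ^ c * (m - p) + 2 ^ c * p := by
        rw [← Nat.mul_add]; congr 1; omega
      have e2 : 2 ^ c * m ≤ (R + 2 ^ c) * p + C := by
        rw [e1, Nat.add_mul]; omega
      have e3 : (R + 2 ^ c) * p ≤ (R + 2 ^ c) * C := Nat.mul_le_mul_left _ hcon.le
      have e4 : m ≤ 2 ^ c * m := Nat.le_mul_of_pos_left m (by positivity)
      have e5 : (R + 1 + 2 ^ c) * C = (R + 2 ^ c) * C + C := by ring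
      omega
    have h3 : 2 ^ c * m ≤ (2 ^ c + (R + 1)) * p := by
      have e1 : 2 ^ c * m = 2 ^ c * (m - p) + 2 ^ c * p := by
        rw [← Nat.mul_add]; congr 1; omega
      have e2 : (2 ^ c + (R + 1)) * p = 2 ^ c * p + (R * p + p) := by ring
      omega
    have h4 : ((2 : ℝ≥0∞) ^ c) * m ≤ (2 ^ c + ((R + 1 : ℕ) : ℝ≥0∞)) * p := by exact_mod_cast h3
    have hpow0 : (2 : ℝ≥0∞) ^ c ≠ 0 := by positivity
    have hpowt : (2 : ℝ≥0∞) ^ c ≠ ⊤ := by
      exact ENNReal.pow_ne_top (by norm_num)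
    refine ENNReal.div_le_of_le_mul ?_
    have h5 : (1 + ((R + 1 : ℕ) : ℝ≥0∞) / 2 ^ c : ℝ≥0∞)
        = (2 ^ c + ((R + 1 : ℕ) : ℝ≥0∞)) / 2 ^ c := by
      rw [ENNReal.add_div, ENNReal.div_self hpow0 hpowt]
    rw [h5, ← ENNReal.mul_div_right_comm]
    rw [ENNReal.le_div_iff_mul_le (Or.inl hpow0) (Or.inl hpowt), mul_comm]
    exact h4

end Pool.Agent.Lib.MP_52ae34_co.Exact
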