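import Mathlib
import Pool.Agent.Lib.MP_52ae34_co.Defs
import Pool.Agent.Lib.MP_52ae34_co.CFT

set_option autoImplicit false

namespace Pool.Agent.Lib.MP_52ae34_co

open Filter
open scoped ENNReal

variable {α : Type*} {β : Type*}

/-- Cut positions of the factorization of `h(w)` into images of letters. -/
def cut (h : List α → List β) (w : ℕ → α) (p : ℕ) : ℕ := (h (factor w 0 p)).length

theorem morphism_nil {h : List α → List β} (hm : IsMorphism h) : h [] = [] := by
  have := hm [] []
  simp only [List.append_nil] at this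
  have h2 := congrArg List.length this
  rw [List.length_append] at h2
  exact List.length_eq_zero_iff.mp (by omega)

theorem cut_zero {h : List α → List β} (hm : IsMorphism h) (w : ℕ → α) : cut h w 0 = 0 := by
  unfold cut; rw [factor_zero, morphism_nil hm]; rfl

theorem cut_add {h : List α → List β} (hm : IsMorphism h) (w : ℕ → α) (p k : ℕ) :
    cut h w (p + k) = cut h w p + (h (factor w p k)).length := by
  unfold cut
  rw [factor_add, hm, List.length_append, zero_add]

theorem cut_succ {h : List α → List β} (hm : IsMorphism h) (w : ℕ → α) (p : ℕ) :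
    cut h w (p + 1) = cut h w p + (h [w p]).length := by
  rw [cut_add hm, factor_one]

theorem image_factor {h : List α → List β} (hm : IsMorphism h) {w : ℕ → α} {x : ℕ → β}
    (him : IsImage h w x) (p k : ℕ) :
    h (factor w p k) = factor x (cut h w p) (h (factor w p k)).length := by
  have h1 := him (p + k)
  have h2 := him p
  rw [factor_add, hm, List.length_append, factor_add, ← h2, zero_add, zero_add] at h1
  exact List.append_cancel_left h1

theorem length_pos {h : List α → List β} (hm : IsMorphism h) (hinj : Function.Injective h)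
    (a : α) : 1 ≤ (h [a]).length := by
  by_contra hcon
  have h0 : (h [a]).length = 0 := by omega
  have h1 : h [a] = h [] := by rw [List.length_eq_zero_iff.mp h0, morphism_nil hm]
  have := hinj h1
  simp at this

theorem cut_lt_succ {h : List α → List β} (hm : IsMorphism h) (hinj : Function.Injective h)
    (w : ℕ → α) (p : ℕ) : cut h w p < cut h w (p + 1) := by
  rw [cut_succ hm]
  have := length_pos hm hinj (w p)
  omega

theorem cut_strictMono {h : List α → List β} (hm : IsMorphism h) (hinj : Function.Injective h)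
    (w : ℕ → α) : StrictMono (cut h w) := strictMono_nat_of_lt_succ (cut_lt_succ hm hinj w)

theorem le_cut_sub {h : List α → List β} (hm : IsMorphism h) (hinj : Function.Injective h)
    (w : ℕ → α) (p k : ℕ) : cut h w p + k ≤ cut h w (p + k) := by
  induction k with
  | zero => simp
  | succ k ih =>
    have := cut_lt_succ hm hinj w (p + k)
    have e : p + (k + 1) = p + k + 1 := by ring
    rw [e]; omega

theorem cut_add_le {h : List α → List β} (hm : IsMorphism h) {N : ℕ}
    (hN : ∀ a, (h [a]).length ≤ N) (w : ℕ → α) (p k : ℕ) :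
    cut h w (p + k) ≤ cut h w p + N * k := by
  induction k with
  | zero => simp
  | succ k ih =>
    have e : p + (k + 1) = p + k + 1 := by ring
    rw [e, cut_succ hm]
    have := hN (w (p + k))
    rw [mul_add, mul_one]
    omega

/-- The index of the letter of `w` whose image covers the position `c ≥ 1` (in the sense
`cut p < c ≤ cut (p+1)`). -/
theorem exists_cover {h : List α → List β} (hm : IsMorphism h) (hinj : Function.Injective h)
    (w : ℕ → α) (c : ℕ) (hc : 1 ≤ c) : ∃ p, cut h w p < c ∧ c ≤ cut h w (p + 1) := by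
  classical
  have hex : ∃ p, c ≤ cut h w (p + 1) := by
    refine ⟨c, ?_⟩
    have := le_cut_sub hm hinj w 0 (c + 1)
    rw [zero_add] at this
    omega
  refine ⟨Nat.find hex, ?_, Nat.find_spec hex⟩
  rcases Nat.eq_zero_or_pos (Nat.find hex) with h0 | h0
  · rw [h0, cut_zero hm]; omega
  · have := Nat.find_min hex (m := Nat.find hex - 1) (by omega)
    rw [Nat.sub_add_cancel h0] at this
    omega

theorem x_cut {h : List α → List β} (hm : IsMorphism h) {w : ℕ → α} {x : ℕ → β}
    (him : IsImage h w x) (p u : ℕ) (hu : u < (h [w p]).length) :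
    (h [w p])[u]? = some (x (cut h w p + u)) := by
  have := image_factor hm him p 1
  rw [factor_one] at this
  rw [this, getElem?_factor _ _ _ _ hu]

theorem sub_mod_dvd {j A q : ℕ} (h : A ≤ j) (hq : q ∣ A) : (j - A) % q = j % q := by
  obtain ⟨c, rfl⟩ := hq
  obtain ⟨k, rfl⟩ := Nat.exists_eq_add_of_le h
  rw [Nat.add_sub_cancel_left, Nat.mul_add_mod]

/-- If `y` and `z` commute then `|z|` is a period of `y`. -/
theorem period_of_commute {y z : List α} (hyz : y ++ z = z ++ y) (j : ℕ)
    (hj : j + z.length < y.length) : y[j]? = y[j + z.length]? := by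
  have h1 : (y ++ z)[j + z.length]? = y[j + z.length]? := by
    rw [List.getElem?_append, if_pos hj]
  have h2 : (z ++ y)[j + z.length]? = y[j]? := by
    rw [List.getElem?_append, if_neg (by omega)]
    congr 1
    omega
  rw [← h1, ← h2, hyz]

/-- Returns to the same residue modulo a period of `h(w)` commute. -/
theorem period_of_returns {h : List α → List β} (hm : IsMorphism h)
    (hinj : Function.Injective h) {w : ℕ → α} {x : ℕ → β} (him : IsImage h w x)
    {I m q : ℕ} (hper : HasPer x I m q) {P P' a b : ℕ}
    (hPa : P ≤ a) (hab : a ≤ b) (hbP : b ≤ P')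
    (hI : I ≤ cut h w P) (hI' : cut h w P' ≤ I + m)
    (h1 : q ∣ cut h w P' - cut h w P) (h2 : q ∣ cut h w b - cut h w a)
    (h3 : q ∣ cut h w a - cut h w P) : HasPer w P (P' - P) (b - a) := by
  have hmono := (cut_strictMono hm hinj w).monotone
  have c1 : cut h w P ≤ cut h w a := hmono hPa
  have c2 : cut h w a ≤ cut h w b := hmono hab
  have c3 : cut h w b ≤ cut h w P' := hmono hbP
  -- images
  have e1 := image_factor hm him P (P' - P)
  have e2 := image_factor hm him a (b - a)
  have l1 : (h (factor w P (P' - P))).length = cut h w P' - cut h w P := by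
    have := cut_add hm w P (P' - P)
    rw [Nat.add_sub_cancel' (by omega)] at this
    omega
  have l2 : (h (factor w a (b - a))).length = cut h w b - cut h w a := by
    have := cut_add hm w a (b - a)
    rw [Nat.add_sub_cancel' (by omega)] at this
    omega
  rw [l1] at e1
  rw [l2] at e2
  set A := cut h w P' - cut h w P with hA
  set B := cut h w b - cut h w a with hB
  -- the run seen from the first cut
  have hX : HasPer x (cut h w P) A q := by
    have := hper.sub (cut h w P - I) A (by omega)
    have e : I + (cut h w P - I) = cut h w P := by omega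
    rw [e] at this
    exact this
  have hval : ∀ j, j < A → x (cut h w P + j) = x (cut h w P + j % q) := fun j hj => hX.eq_mod j hj
  have e2' : factor x (cut h w a) B = factor x (cut h w P) B := by
    apply List.ext_getElem?
    intro j
    by_cases hj : j < B
    · rw [getElem?_factor _ _ _ _ hj, getElem?_factor _ _ _ _ hj]
      have g1 := hval (cut h w a - cut h w P + j) (by omega)
      have g2 := hval j (by omega)
      have g3 : (cut h w a - cut h w P + j) % q = j % q := by
        obtain ⟨c, hc⟩ := h3
        rw [hc, Nat.mul_add_mod]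
      have g4 : cut h w P + (cut h w a - cut h w P + j) = cut h w a + j := by omega
      rw [g4, g3] at g1
      rw [g1, g2]
    · rw [List.getElem?_eq_none (by simp; omega), List.getElem?_eq_none (by simp; omega)]
  rw [e2'] at e2
  have hcomm : factor x (cut h w P) A ++ factor x (cut h w P) B
      = factor x (cut h w P) B ++ factor x (cut h w P) A := by
    apply List.ext_getElem?
    intro j
    rw [List.getElem?_append, List.getElem?_append, length_factor, length_factor]
    have hBA : B ≤ A := by omega
    by_cases hjB : j < B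
    · rw [if_pos (by omega), if_pos hjB, getElem?_factor _ _ _ _ (by omega),
        getElem?_factor _ _ _ _ hjB]
    · rw [if_neg hjB]
      by_cases hjAB : j < A + B
      · rw [getElem?_factor _ _ _ (j - B) (by omega)]
        have g2 := hval (j - B) (by omega)
        have m2 : (j - B) % q = j % q := by
          exact sub_mod_dvd (by omega) h2
        rw [g2, m2]
        by_cases hjA : j < A
        · rw [if_pos hjA, getElem?_factor _ _ _ _ hjA, hval j hjA]
        · rw [if_neg hjA, getElem?_factor _ _ _ _ (by omega)]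
          have g1 := hval (j - A) (by omega)
          have m1 : (j - A) % q = j % q := by
            exact sub_mod_dvd (by omega) h1
          rw [g1, m1]
      · rw [if_neg (by omega), List.getElem?_eq_none (by simp; omega),
          List.getElem?_eq_none (by simp; omega)]
  rw [← e1, ← e2, ← hm, ← hm] at hcomm
  have hc := hinj hcomm
  intro j hj
  have := period_of_commute hc j (by simpa using hj)
  rw [length_factor, getElem?_factor _ _ _ _ (by omega), getElem?_factor _ _ _ _ hj,
    Option.some.injEq] at this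
  rw [this, add_assoc]

/-- A bound for runs in `w`. -/
theorem run_bound {w : ℕ → α} {T l0 : ℕ} (hl0 : 1 ≤ l0)
    (hT : ∀ p, l0 ≤ p → ∀ i, ¬ HasPer w i (T * p) p) {P m g : ℕ} (hg : 1 ≤ g)
    (hper : HasPer w P m g) : (l0 ≤ g → m < T * g) ∧ m < T * (l0 + g) := by
  constructor
  · intro h
    by_contra hcon
    exact hT g h P (hper.mono_len (by omega))
  · by_contra hcon
    -- the multiple of `g` in `[l0, l0+g)`
    set k := (l0 + g - 1) / g with hk
    have h1 : k * g ≤ l0 + g - 1 := Nat.div_mul_le_self _ _
    have h2 : l0 + g - 1 < k * g + g := by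
      have := Nat.lt_div_mul_add (a := l0 + g - 1) (b := g) (by omega)
      exact this
    have h3 : l0 ≤ k * g := by omega
    have h4 : T * (k * g) ≤ m := by
      have : T * (k * g) ≤ T * (l0 + g) := Nat.mul_le_mul_left _ (by omega)
      omega
    exact hT (k * g) h3 P ((hper.mul k).mono_len h4)

/-- Among `s + 1` numbers in an interval of length `D` there are two whose difference `d`
satisfies `s * d ≤ D`. -/
theorem exists_small_gap (s : ℕ) (e : ℕ → ℕ) (he : StrictMono e) (hs : 1 ≤ s) :
    ∃ t < s, s * (e (t + 1) - e t) ≤ e s - e 0 := by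
  by_contra hcon
  push Not at hcon
  have key : ∀ t, t ≤ s → t * (e s - e 0 + 1) ≤ s * (e t - e 0) := by
    intro t
    induction t with
    | zero => intro _; simp
    | succ t ih =>
      intro ht
      have h1 := ih (by omega)
      have h2 := hcon t (by omega)
      have h3 : e 0 ≤ e t := he.monotone (by omega)
      have h4 : e t ≤ e (t + 1) := he.monotone (by omega)
      have h5 : e (t + 1) - e 0 = (e (t + 1) - e t) + (e t - e 0) := by omega
      have h6 : s * (e (t + 1) - e 0) = s * (e (t + 1) - e t) + s * (e t - e 0) := by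
        rw [h5, Nat.mul_add]
      have h7 : (t + 1) * (e s - e 0 + 1) = t * (e s - e 0 + 1) + (e s - e 0 + 1) := by ring
      omega
  have h1 := key s le_rfl
  have h2 := Nat.le_of_mul_le_mul_left h1 (by omega)
  omega

/-- The main consequence: if `s ≥ T` cuts return to the same residue then they are close. -/
theorem returns_close {h : List α → List β} (hm : IsMorphism h)
    (hinj : Function.Injective h) {w : ℕ → α} {x : ℕ → β} (him : IsImage h w x)
    {T l0 : ℕ} (hT1 : 1 ≤ T) (hl0 : 1 ≤ l0)
    (hT : ∀ p, l0 ≤ p → ∀ i, ¬ HasPer w i (T * p) p)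
    {I m q : ℕ} (hper : HasPer x I m q) {s : ℕ} (hs : T ≤ s) (e : ℕ → ℕ) (he : StrictMono e)
    (hI : I ≤ cut h w (e 0)) (hI' : cut h w (e s) ≤ I + m)
    (hres : ∀ t ≤ s, q ∣ cut h w (e t) - cut h w (e 0)) : e s - e 0 < 2 * (T * l0) := by
  have hs1 : 1 ≤ s := le_trans hT1 hs
  obtain ⟨t, ht, hgap⟩ := exists_small_gap s e he hs1
  have hmono := (cut_strictMono hm hinj w).monotone
  have m1 : e 0 ≤ e t := he.monotone (by omega)
  have m2 : e t < e (t + 1) := he (by omega)
  have m3 : e (t + 1) ≤ e s := he.monotone (by omega)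
  have c1 := hmono m1
  have c2 := hmono m2.le
  have c3 := hmono m3
  have hdvd : q ∣ cut h w (e (t + 1)) - cut h w (e t) := by
    have := Nat.dvd_sub (hres (t + 1) (by omega)) (hres t (by omega))
    have e1 : cut h w (e (t + 1)) - cut h w (e 0) - (cut h w (e t) - cut h w (e 0))
        = cut h w (e (t + 1)) - cut h w (e t) := by omega
    rwa [e1] at this
  have hp := period_of_returns hm hinj him hper m1 m2.le m3 hI hI' (hres s le_rfl) hdvd
    (hres t (by omega))
  obtain ⟨b1, b2⟩ := run_bound hl0 hT (by omega) hp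
  by_cases hg : l0 ≤ e (t + 1) - e t
  · exfalso
    have h1 := b1 hg
    have h2 : T * (e (t + 1) - e t) ≤ s * (e (t + 1) - e t) := Nat.mul_le_mul_right _ hs
    omega
  · have h3 : T * (l0 + (e (t + 1) - e t)) ≤ T * (l0 + l0) := Nat.mul_le_mul_left _ (by omega)
    have h4 : T * (l0 + l0) = 2 * (T * l0) := by ring
    omega

/-- Pigeonhole: among the cut positions `e 0 < e 1 < ... < e K` with `K ≥ c * s` coloured by `c`
colours there is a monochromatic increasing sequence of length `s + 1`. -/
theorem exists_mono_seq {ι : Type*} [Fintype ι] (K s : ℕ)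
    (f : ℕ → ι) (hK : Fintype.card ι * s ≤ K) :
    ∃ e : ℕ → ℕ, StrictMono e ∧ e s ≤ K ∧ ∀ t ≤ s, f (e t) = f (e 0) := by
  classical
  obtain ⟨y, -, hy⟩ := Finset.exists_lt_card_fiber_of_mul_lt_card_of_maps_to
    (s := Finset.range (K + 1)) (t := (Finset.univ : Finset ι)) (f := f) (n := s)
    (fun a _ => Finset.mem_univ _) (by simp; omega)
  set F := (Finset.range (K + 1)).filter (fun a => f a = y) with hF
  have hcard : s + 1 ≤ F.card := hy
  obtain ⟨F', hF', hF'c⟩ := Finset.exists_subset_card_eq hcard
  let o := F'.orderEmbOfFin hF'c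
  refine ⟨fun t => if ht : t < s + 1 then o ⟨t, ht⟩ else K + t, ?_, ?_, ?_⟩
  · intro a b hab
    have hmem : ∀ z, o z ∈ F := fun z => hF' (Finset.orderEmbOfFin_mem F' hF'c z)
    dsimp only
    by_cases hb : b < s + 1
    · rw [dif_pos (by omega : a < s + 1), dif_pos hb]
      exact o.strictMono (by simpa using hab)
    · rw [dif_neg hb]
      by_cases ha : a < s + 1
      · rw [dif_pos ha]
        have := hmem ⟨a, ha⟩
        rw [hF, Finset.mem_filter, Finset.mem_range] at this
        omega
      · rw [dif_neg ha]; omega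
  · dsimp only
    rw [dif_pos (by omega : s < s + 1)]
    have := hF' (Finset.orderEmbOfFin_mem F' hF'c ⟨s, by omega⟩)
    rw [hF, Finset.mem_filter, Finset.mem_range] at this
    have h2 := this.1
    change o ⟨s, _⟩ ≤ K
    change o ⟨s, _⟩ < K + 1 at h2
    omega
  · intro t ht
    dsimp only
    rw [dif_pos (by omega : t < s + 1), dif_pos (by omega : 0 < s + 1)]
    have h1 := hF' (Finset.orderEmbOfFin_mem F' hF'c ⟨t, by omega⟩)
    have h2 := hF' (Finset.orderEmbOfFin_mem F' hF'c ⟨0, by omega⟩)
    rw [hF, Finset.mem_filter] at h1 h2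
    exact h1.2.trans h2.2.symm

/-- Runs of period `q` in the image have length bounded in terms of `q`. -/
theorem short_runs {h : List α → List β} (hm : IsMorphism h)
    (hinj : Function.Injective h) {w : ℕ → α} {x : ℕ → β} (him : IsImage h w x)
    {T l0 N : ℕ} (hT1 : 1 ≤ T) (hl0 : 1 ≤ l0) (hN : ∀ a, (h [a]).length ≤ N)
    (hT : ∀ p, l0 ≤ p → ∀ i, ¬ HasPer w i (T * p) p)
    {I m q : ℕ} (hq : 1 ≤ q) (hper : HasPer x I m q) :
    m < N * (q * (2 * (T * l0)) + 2) := by
  by_contra hcon
  set s := 2 * (T * l0) with hs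
  have hsT : T ≤ s := by
    have : T ≤ T * l0 := Nat.le_mul_of_pos_right T hl0
    omega
  -- first cut
  have hp0 : ∃ p0, I ≤ cut h w p0 ∧ cut h w p0 ≤ I + N := by
    rcases Nat.eq_zero_or_pos I with h0 | h0
    · exact ⟨0, by rw [cut_zero hm]; omega, by rw [cut_zero hm]; omega⟩
    · obtain ⟨p, hp1, hp2⟩ := exists_cover hm hinj w I h0
      refine ⟨p + 1, hp2, ?_⟩
      have := cut_add_le hm hN w p 1
      omega
  obtain ⟨p0, h1, h2⟩ := hp0
  have hlast : cut h w (p0 + q * s) ≤ I + m := by
    have h3 := cut_add_le hm hN w p0 (q * s)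
    have h4 : N * (q * s + 2) = N * (q * s) + N + N := by ring
    omega
  have hqpos : 0 < q := hq
  obtain ⟨e, he, heK, hef⟩ := exists_mono_seq (ι := Fin q) (q * s) s
    (fun t => ⟨cut h w (p0 + t) % q, Nat.mod_lt _ hqpos⟩) (by simp)
  have hmono := (cut_strictMono hm hinj w).monotone
  have hclose := returns_close hm hinj him hT1 hl0 hT hper hsT (fun t => p0 + e t)
    (fun a b hab => by have := he hab; dsimp only; omega)
    (le_trans h1 (hmono (by omega))) (le_trans (hmono (by omega)) hlast) (by
      intro t ht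
      have := hef t ht
      simp only [Fin.mk.injEq] at this
      exact (Nat.modEq_iff_dvd' (hmono (by
        have := he.monotone (Nat.zero_le t)
        omega))).mp this.symm)
  have hlen : s ≤ e s - e 0 := by
    have := he.add_le_nat s 0
    simp only [add_zero] at this
    omega
  try dsimp only at hclose
  omega

/-- In every window of a suitable bounded length of the image there is a position which is not
the centre of a square of half length at most `N`. -/
theorem exists_crit_pos {h : List α → List β} (hm : IsMorphism h)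
    (hinj : Function.Injective h) {w : ℕ → α} {x : ℕ → β} (him : IsImage h w x)
    {T l0 N : ℕ} (hT1 : 1 ≤ T) (hl0 : 1 ≤ l0) (hN1 : 1 ≤ N) (hN : ∀ a, (h [a]).length ≤ N)
    (hT : ∀ p, l0 ≤ p → ∀ i, ¬ HasPer w i (T * p) p) (A : ℕ) (hA : N ≤ A) :
    ∃ c, A ≤ c ∧ c < A + N * (N * (2 * (T * l0)) + 2) ∧
      ∀ δ, 1 ≤ δ → δ ≤ N → ∃ t < δ, x (c - δ + t) ≠ x (c + t) := by
  set W := N * (N * (2 * (T * l0)) + 2) with hW
  have hWpos : 0 < W := by rw [hW]; positivity
  obtain ⟨i, hi, hcrit⟩ := exists_critical (factor x A W) (by simpa using hWpos)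
  rw [length_factor] at hi
  refine ⟨A + i, by omega, by omega, fun δ hδ1 hδN => ?_⟩
  by_contra hcon
  push Not at hcon
  have hrep : LocalRep (factor x A W) i δ := by
    intro a ha1 ha2 ha3
    rw [length_factor] at ha3
    rw [getElem?_factor _ _ _ _ (by omega), getElem?_factor _ _ _ _ ha3, Option.some.injEq]
    have := hcon (a + δ - i) (by omega)
    have e1 : A + i - δ + (a + δ - i) = A + a := by omega
    have e2 : A + i + (a + δ - i) = A + (a + δ) := by omega
    rw [e1, e2] at this
    exact this
  have hper := hcrit δ hδ1 hrep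
  have hper' : HasPer x A W δ := by
    intro j hj
    have := hper j (by simpa using hj)
    rw [getElem?_factor _ _ _ _ (by omega), getElem?_factor _ _ _ _ hj,
      Option.some.injEq] at this
    rw [this, add_assoc]
  have h1 := short_runs hm hinj him hT1 hl0 hN hT hδ1 hper'
  have h2 : N * (δ * (2 * (T * l0)) + 2) ≤ W := by
    rw [hW]
    exact Nat.mul_le_mul_left _ (Nat.add_le_add_right (Nat.mul_le_mul_right _ hδN) _)
  omega

/-- Offsets: the same letter cannot cover two critical positions with different offsets. -/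
theorem offset_eq {h : List α → List β} (hm : IsMorphism h)
    {w : ℕ → α} {x : ℕ → β} (him : IsImage h w x) {N : ℕ} (hN : ∀ a, (h [a]).length ≤ N)
    {I m q : ℕ} (hper : HasPer x I m q) {c c' p p' : ℕ}
    (hc : I + N ≤ c) (hc' : I + N ≤ c') (hcm : c + N ≤ I + m) (hcm' : c' + N ≤ I + m)
    (hcc : (c - I) % q = (c' - I) % q)
    (hcrit : ∀ δ, 1 ≤ δ → δ ≤ N → ∃ t < δ, x (c - δ + t) ≠ x (c + t))
    (hp1 : cut h w p < c) (hp1' : cut h w p' < c') (hp2' : c' ≤ cut h w (p' + 1))
    (hww : w p = w p') : ¬ (c - cut h w p < c' - cut h w p') := by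
  intro hlt
  set o := c - cut h w p with ho
  set o' := c' - cut h w p' with ho'
  have hlen : o' ≤ (h [w p']).length := by
    have := cut_succ hm w p'
    omega
  have hδN : o' - o ≤ N := by have := hN (w p'); omega
  obtain ⟨t, ht, hne⟩ := hcrit (o' - o) (by omega) hδN
  apply hne
  have hval : ∀ j j', j < m → j' < m → j % q = j' % q → x (I + j) = x (I + j') := by
    intro j j' hj hj' hjj
    rw [hper.eq_mod j hj, hper.eq_mod j' hj', hjj]
  -- x (c + t) and x (c' - δ + t) are the same letter of the image of `w p`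
  have g1 := x_cut hm him p (o + t) (by rw [hww]; omega)
  have g2 := x_cut hm him p' (o + t) (by omega)
  rw [hww] at g1
  rw [g1, Option.some.injEq] at g2
  have e1 : cut h w p + (o + t) = c + t := by omega
  have e2 : cut h w p' + (o + t) = c' - (o' - o) + t := by omega
  rw [e1, e2] at g2
  rw [g2]
  have g3 := hval (c - I - (o' - o) + t) (c' - I - (o' - o) + t) (by omega) (by omega) (by
    have k1 : (c - I - (o' - o) + t + (o' - o)) % q = (c' - I - (o' - o) + t + (o' - o)) % q := by
      have e3 : c - I - (o' - o) + t + (o' - o) = c - I + t := by omega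
      have e4 : c' - I - (o' - o) + t + (o' - o) = c' - I + t := by omega
      rw [e3, e4, Nat.add_mod, hcc, ← Nat.add_mod]
    exact Nat.ModEq.add_right_cancel' (o' - o) k1)
  have e5 : I + (c - I - (o' - o) + t) = c - (o' - o) + t := by omega
  have e6 : I + (c' - I - (o' - o) + t) = c' - (o' - o) + t := by omega
  rw [e5, e6] at g3
  exact g3

/-- The length of a run of large period in the image. -/
theorem run_length_le [Fintype α] {h : List α → List β} (hm : IsMorphism h)
    (hinj : Function.Injective h) {w : ℕ → α} {x : ℕ → β} (him : IsImage h w x)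
    {T l0 N : ℕ} (hT1 : 1 ≤ T) (hl0 : 1 ≤ l0) (hN1 : 1 ≤ N) (hN : ∀ a, (h [a]).length ≤ N)
    (hT : ∀ p, l0 ≤ p → ∀ i, ¬ HasPer w i (T * p) p)
    {I m q : ℕ} (hq : N * (2 * (T * l0)) ≤ q) (hper : HasPer x I m q) :
    m < Fintype.card α * T * q + (2 * N + N * (N * (2 * (T * l0)) + 2)) := by
  by_contra hcon
  set W := N * (N * (2 * (T * l0)) + 2) with hW
  set K := Fintype.card α * T with hK
  have hTl : 1 ≤ T * l0 := Nat.mul_pos hT1 hl0
  have hqN : N ≤ q := by
    have : N * 1 ≤ N * (2 * (T * l0)) := Nat.mul_le_mul_left _ (by omega)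
    omega
  obtain ⟨c0, hc0, hc0', hcrit0⟩ := exists_crit_pos hm hinj him hT1 hl0 hN1 hN hT (I + N) (by omega)
  rw [← hW] at hc0'
  -- the critical positions
  have hck : ∀ k, k ≤ K → c0 + k * q + N ≤ I + m := by
    intro k hk
    have : k * q ≤ K * q := Nat.mul_le_mul_right _ hk
    omega
  have hval : ∀ j j', j < m → j' < m → j % q = j' % q → x (I + j) = x (I + j') := by
    intro j j' hj hj' hjj
    rw [hper.eq_mod j hj, hper.eq_mod j' hj', hjj]
  have hcrit : ∀ k, k ≤ K → ∀ δ, 1 ≤ δ → δ ≤ N →
      ∃ t < δ, x (c0 + k * q - δ + t) ≠ x (c0 + k * q + t) := by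
    intro k hk δ hδ1 hδN
    obtain ⟨t, ht, hne⟩ := hcrit0 δ hδ1 hδN
    refine ⟨t, ht, fun heq => hne ?_⟩
    have hk' := hck k hk
    have e1 := hval (c0 - I - δ + t) (c0 - I - δ + t + k * q) (by omega) (by omega) (by
      rw [Nat.add_mul_mod_self_right])
    have e2 := hval (c0 - I + t) (c0 - I + t + k * q) (by omega) (by omega) (by
      rw [Nat.add_mul_mod_self_right])
    have a1 : I + (c0 - I - δ + t) = c0 - δ + t := by omega
    have a2 : I + (c0 - I - δ + t + k * q) = c0 + k * q - δ + t := by omega
    have a3 : I + (c0 - I + t) = c0 + t := by omega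
    have a4 : I + (c0 - I + t + k * q) = c0 + k * q + t := by omega
    rw [a1, a2] at e1
    rw [a3, a4] at e2
    rw [e1, e2, heq]
  have hcov : ∀ k : ℕ, ∃ p, cut h w p < c0 + k * q ∧ c0 + k * q ≤ cut h w (p + 1) :=
    fun k => exists_cover hm hinj w _ (by omega)
  choose P hP1 hP2 using hcov
  have hmono := (cut_strictMono hm hinj w).monotone
  have hPlow : ∀ k, c0 + k * q ≤ cut h w (P k) + N := by
    intro k
    have := cut_add_le hm hN w (P k) 1
    have := hP2 k
    omega
  have hPmono : StrictMono P := by
    refine strictMono_nat_of_lt_succ fun k => ?_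
    by_contra hle
    have h1 : P (k + 1) + 1 ≤ P k + 1 := by omega
    have h2 := hmono h1
    have h3 := hP2 (k + 1)
    have h4 := hP1 k
    have h5 := cut_add_le hm hN w (P k) 1
    have h6 : (k + 1) * q = k * q + q := by ring
    omega
  obtain ⟨e, he, heK, hef⟩ := exists_mono_seq (ι := α) K T (fun k => w (P k)) le_rfl
  have hoff : ∀ t, t ≤ T → c0 + e t * q - cut h w (P (e t)) = c0 + e 0 * q - cut h w (P (e 0)) := by
    intro t ht
    have het : e t ≤ K := le_trans (he.monotone ht) heK
    have he0 : e 0 ≤ K := le_trans (he.monotone (Nat.zero_le T)) heK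
    have k1 := hck (e t) het
    have k2 := hck (e 0) he0
    have hmod : (c0 + e t * q - I) % q = (c0 + e 0 * q - I) % q := by
      have a1 : c0 + e t * q - I = (c0 - I) + e t * q := by omega
      have a2 : c0 + e 0 * q - I = (c0 - I) + e 0 * q := by omega
      rw [a1, a2, Nat.add_mul_mod_self_right, Nat.add_mul_mod_self_right]
    have b1 := offset_eq hm him hN hper (c := c0 + e t * q) (c' := c0 + e 0 * q)
      (p := P (e t)) (p' := P (e 0)) (by omega) (by omega) k1 k2 hmod (hcrit _ het)
      (hP1 _) (hP1 _) (hP2 _) (hef t ht)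
    have b2 := offset_eq hm him hN hper (c := c0 + e 0 * q) (c' := c0 + e t * q)
      (p := P (e 0)) (p' := P (e t)) (by omega) (by omega) k2 k1 hmod.symm (hcrit _ he0)
      (hP1 _) (hP1 _) (hP2 _) (hef t ht).symm
    omega
  have hclose := returns_close hm hinj him hT1 hl0 hT hper le_rfl (fun t => P (e t))
    (fun a b hab => hPmono (he hab))
    (by have := hPlow (e 0); omega)
    (by have := hP1 (e T); have := hck (e T) heK; omega)
    (by
      intro t ht
      have h1 := hoff t ht
      have h2 := hP1 (e t)
      have h3 := hP1 (e 0)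
      have h4 : e 0 ≤ e t := he.monotone (Nat.zero_le t)
      have h5 : cut h w (P (e t)) - cut h w (P (e 0)) = (e t - e 0) * q := by
        rw [Nat.sub_mul]
        have : e 0 * q ≤ e t * q := Nat.mul_le_mul_right _ h4
        omega
      try dsimp only
      rw [h5]
      exact Dvd.intro_left _ rfl)
  try dsimp only at hclose
  have h1 := hoff T le_rfl
  have h2 := hP1 (e T)
  have h3 := hP1 (e 0)
  have h4 : e 0 + 1 ≤ e T := he (by omega : 0 < T)
  have h5 : e 0 * q + q ≤ e T * q := by
    have := Nat.mul_le_mul_right q h4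
    rw [add_mul, one_mul] at this
    exact this
  have h6 : P (e 0) ≤ P (e T) := (hPmono (he (by omega : 0 < T))).le
  have h7 := cut_add_le hm hN w (P (e 0)) (P (e T) - P (e 0))
  rw [Nat.add_sub_cancel' h6] at h7
  have h8 : N * (P (e T) - P (e 0)) < N * (2 * (T * l0)) :=
    Nat.mul_lt_mul_of_pos_left hclose (by omega)
  omega

/-- **Upper bound.** If `ACE(w) < T` then `ACE(h(w)) ≤ |Σ| * T`. -/
theorem ACE_image_le [Fintype α] {h : List α → List β} (hm : IsMorphism h)
    (hinj : Function.Injective h) {w : ℕ → α} {x : ℕ → β} (him : IsImage h w x)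
    {T : ℕ} (hT : ACE w < T) : ACE x ≤ ((Fintype.card α * T : ℕ) : ℝ≥0∞) := by
  have hT1 : 1 ≤ T := by
    rcases Nat.eq_zero_or_pos T with h | h
    · subst h; simp at hT
    · exact h
  obtain ⟨l0, hl0, hTp⟩ := exists_no_power hT
  obtain ⟨N0, hN0⟩ : ∃ N : ℕ, ∀ a, (h [a]).length ≤ N := by
    refine ⟨Finset.univ.sup (fun a => (h [a]).length), fun a => ?_⟩
    exact Finset.le_sup (f := fun a => (h [a]).length) (Finset.mem_univ a)
  set N := N0 + 1 with hNdef
  have hN : ∀ a, (h [a]).length ≤ N := fun a => le_trans (hN0 a) (by omega)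
  have hN1 : 1 ≤ N := by omega
  set C := 2 * N + N * (N * (2 * (T * l0)) + 2) with hC
  refine ENNReal.le_of_forall_pos_le_add fun ε hε _ => ?_
  -- a large threshold for the period
  obtain ⟨Q, hQ⟩ : ∃ Q : ℕ, (C : ℝ) ≤ ε * Q := by
    obtain ⟨Q, hQ⟩ := exists_nat_ge ((C : ℝ) / ε)
    refine ⟨Q, ?_⟩
    have hε' : (0 : ℝ) < ε := by exact_mod_cast hε
    rw [div_le_iff₀ hε'] at hQ
    linarith [mul_comm (Q : ℝ) (ε : ℝ)]
  set Q' := max Q (N * (2 * (T * l0))) with hQ'
  unfold ACE
  refine limsup_le_of_le (by isBoundedDefault) ?_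
  filter_upwards [eventually_ge_atTop (N * (Q' * (2 * (T * l0)) + 2))] with m hmM
  refine iSup_le fun i => expo_le fun p hp hper => ?_
  have hpQ : Q' < p := by
    by_contra hcon
    have h1 := short_runs hm hinj him hT1 hl0 hN hTp hp hper
    have h2 : N * (p * (2 * (T * l0)) + 2) ≤ N * (Q' * (2 * (T * l0)) + 2) :=
      Nat.mul_le_mul_left _ (Nat.add_le_add_right (Nat.mul_le_mul_right _ (by omega)) _)
    omega
  have h1 := run_length_le hm hinj him hT1 hl0 hN1 hN hTp
    (le_trans (le_max_right _ _) hpQ.le) hper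
  refine ENNReal.div_le_of_le_mul ?_
  have h2 : (m : ℝ) ≤ ((Fintype.card α * T : ℕ) + ε) * p := by
    have h3 : (m : ℝ) ≤ ((Fintype.card α * T : ℕ) : ℝ) * p + C := by
      exact_mod_cast h1.le
    have h4 : (C : ℝ) ≤ ε * p := by
      refine le_trans hQ ?_
      have h5 : (Q : ℝ) ≤ p := by exact_mod_cast le_trans (le_max_left _ _) hpQ.le
      have hε' : (0 : ℝ) ≤ ε := ε.2
      exact mul_le_mul_of_nonneg_left h5 hε'
    nlinarith
  have h3 : (m : NNReal) ≤ ((Fintype.card α * T : ℕ) + ε) * p := by
    rw [← NNReal.coe_le_coe]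
    push_cast
    push_cast at h2
    exact h2
  have h4 : ((m : NNReal) : ℝ≥0∞) ≤ (((Fintype.card α * T : ℕ) + ε) * p : NNReal) :=
    ENNReal.coe_le_coe.mpr h3
  push_cast at h4 ⊢
  exact h4

end Pool.Agent.Lib.MP_52ae34_co
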