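import Mathlib
import Pool.Agent.Lib.MP_52ae34_co.Upper
import Pool.Agent.Lib.MP_52ae34_co.ExactWord

set_option autoImplicit false

/-! The injective morphism of the sharp lower bound. -/

namespace Pool.Agent.Lib.MP_52ae34_co.Exact

open Filter
open scoped ENNReal

/-- Images of infinite words under injective morphisms exist. -/
theorem exists_image {α β : Type*} {h : List α → List β} (hm : IsMorphism h)
    (hinj : Function.Injective h) (w : ℕ → α) : ∃ x : ℕ → β, IsImage h w x := by
  have hlen : ∀ m, m < (h (factor w 0 (m + 1))).length := by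
    intro m
    have := le_cut_sub hm hinj w 0 (m + 1)
    rw [zero_add] at this
    unfold cut at this
    omega
  have hpre : ∀ n s j, j < (h (factor w 0 n)).length →
      (h (factor w 0 (n + s)))[j]? = (h (factor w 0 n))[j]? := by
    intro n s j hj
    rw [factor_add, hm, List.getElem?_append_left hj]
  refine ⟨fun m => (h (factor w 0 (m + 1))).get ⟨m, hlen m⟩, fun n => ?_⟩
  apply List.ext_getElem?
  intro j
  by_cases hj : j < (h (factor w 0 n)).length
  · rw [getElem?_factor _ _ _ _ hj, zero_add]
    rw [List.get_eq_getElem, ← List.getElem?_eq_getElem]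
    have key : (h (factor w 0 n))[j]? = (h (factor w 0 (j + 1)))[j]? := by
      rcases le_total n (j + 1) with h1 | h1
      · obtain ⟨s, hs⟩ := Nat.exists_eq_add_of_le h1
        rw [hs, hpre n s j hj]
      · obtain ⟨s, hs⟩ := Nat.exists_eq_add_of_le h1
        rw [hs, hpre (j + 1) s j (hlen j)]
    exact key
  · push Not at hj
    rw [List.getElem?_eq_none hj, List.getElem?_eq_none (by rw [length_factor]; exact hj)]

/-- Number of leading letters `a` in the code word of the letter `i < k`. -/
def ll (k E i : ℕ) : ℕ := (k - 1 - i) * E

/-- Number of trailing letters `a` in the code word of the letter `i < k`. -/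
def rr (k E i : ℕ) : ℕ := if i = k - 1 then E else (i + 2) * E

section code

variable {Γ : Type*} (a b : Γ) (k E : ℕ)

/-- The code words: the filler `k` is sent to `a^k`, the letter `i < k` to
`a^(ll i) b a^(rr i)`. -/
def cw (i : ℕ) : List Γ :=
  if i = k then List.replicate k a
  else List.replicate (ll k E i) a ++ b :: List.replicate (rr k E i) a

/-- The morphism. -/
def hh (l : List (Fin (k + 1))) : List Γ := l.flatMap fun i => cw a b k E i.val

theorem hh_morphism : IsMorphism (hh a b k E) := by
  intro x y
  unfold hh
  rw [List.flatMap_append]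

theorem hh_single (i : Fin (k + 1)) : hh a b k E [i] = cw a b k E i.val := by
  unfold hh
  simp

theorem cw_filler : cw a b k E k = List.replicate k a := by
  unfold cw; rw [if_pos rfl]

theorem cw_letter {i : ℕ} (hi : i < k) :
    cw a b k E i = List.replicate (ll k E i) a ++ b :: List.replicate (rr k E i) a := by
  unfold cw; rw [if_neg (by omega)]

theorem cw_filler_get {u : ℕ} (hu : u < k) : (cw a b k E k)[u]? = some a := by
  rw [cw_filler, List.getElem?_replicate, if_pos hu]

theorem cw_letter_length {i : ℕ} (hi : i < k) :
    (cw a b k E i).length = ll k E i + 1 + rr k E i := by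
  rw [cw_letter a b k E hi]
  simp only [List.length_append, List.length_replicate, List.length_cons]
  ring

theorem cw_letter_get_lt {i u : ℕ} (hi : i < k) (hu : u < ll k E i) :
    (cw a b k E i)[u]? = some a := by
  rw [cw_letter a b k E hi, List.getElem?_append_left (by simpa using hu),
    List.getElem?_replicate, if_pos hu]

theorem cw_letter_get_eq {i : ℕ} (hi : i < k) :
    (cw a b k E i)[ll k E i]? = some b := by
  rw [cw_letter a b k E hi, List.getElem?_append_right (by simp)]
  simp

theorem cw_letter_get_gt {i u : ℕ} (hi : i < k) (hu : ll k E i < u)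
    (hu2 : u < (cw a b k E i).length) : (cw a b k E i)[u]? = some a := by
  rw [cw_letter_length a b k E hi] at hu2
  rw [cw_letter a b k E hi, List.getElem?_append_right (by simpa using hu.le)]
  rw [List.length_replicate]
  obtain ⟨v, hv⟩ : ∃ v, u - ll k E i = v + 1 := ⟨u - ll k E i - 1, by omega⟩
  rw [hv, List.getElem?_cons_succ, List.getElem?_replicate, if_pos (by omega)]

variable {a b k E}

theorem replicate_b_inj (hab : a ≠ b) {n n' : ℕ} {R R' : List Γ}
    (h : List.replicate n a ++ b :: R = List.replicate n' a ++ b :: R') : n = n' ∧ R = R' := by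
  have key : ∀ {n n' : ℕ} {R R' : List Γ},
      List.replicate n a ++ b :: R = List.replicate n' a ++ b :: R' → ¬ n < n' := by
    intro n n' R R' h hlt
    have h1 : (List.replicate n a ++ b :: R)[n]? = (List.replicate n' a ++ b :: R')[n]? := by rw [h]
    rw [List.getElem?_append_right (by simp), List.getElem?_append_left (by simpa using hlt),
      List.getElem?_replicate, if_pos hlt] at h1
    simp only [List.length_replicate, Nat.sub_self, List.getElem?_cons_zero] at h1
    exact hab (Option.some.inj h1).symm
  have hn : n = n' := by
    rcases lt_trichotomy n n' with h1 | h1 | h1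
    · exact absurd h1 (key h)
    · exact h1
    · exact absurd h1 (key h.symm)
  subst hn
  have h1 := List.append_cancel_left h
  exact ⟨rfl, (List.cons.inj h1).2⟩

theorem decomp (x : List (Fin (k + 1))) :
    (∃ z, x = List.replicate z (Fin.last k)) ∨
      ∃ (z : ℕ) (i : Fin (k + 1)) (x' : List (Fin (k + 1))), i.val < k ∧
        x = List.replicate z (Fin.last k) ++ i :: x' := by
  induction x with
  | nil => exact Or.inl ⟨0, rfl⟩
  | cons s x ih =>
    by_cases hs : s.val < k
    · exact Or.inr ⟨0, s, x, hs, rfl⟩
    · have hs' : s = Fin.last k := by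
        apply Fin.ext
        rw [Fin.val_last]
        have := s.isLt
        omega
      subst hs'
      rcases ih with ⟨z, hz⟩ | ⟨z, i, x', hi, hx⟩
      · exact Or.inl ⟨z + 1, by rw [hz, List.replicate_succ]⟩
      · exact Or.inr ⟨z + 1, i, x', hi, by rw [hx, List.replicate_succ]; rfl⟩

theorem hh_replicate (z : ℕ) :
    hh a b k E (List.replicate z (Fin.last k)) = List.replicate (k * z) a := by
  induction z with
  | zero => simp [hh]
  | succ z ih =>
    have h1 : hh a b k E (List.replicate (z + 1) (Fin.last k))
        = cw a b k E k ++ hh a b k E (List.replicate z (Fin.last k)) := by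
      rw [List.replicate_succ]
      unfold hh
      rw [List.flatMap_cons, Fin.val_last]
    rw [h1, ih, cw_filler, List.replicate_append_replicate]
    congr 1; ring

theorem hh_letter (z : ℕ) (i : Fin (k + 1)) (hi : i.val < k) (x' : List (Fin (k + 1))) :
    hh a b k E (List.replicate z (Fin.last k) ++ i :: x')
      = List.replicate (k * z + ll k E i.val) a
        ++ b :: (List.replicate (rr k E i.val) a ++ hh a b k E x') := by
  have h1 : hh a b k E (i :: x') = cw a b k E i.val ++ hh a b k E x' := by
    unfold hh
    rw [List.flatMap_cons]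
  rw [hh_morphism a b k E, hh_replicate, h1, cw_letter a b k E hi, List.append_assoc,
    List.cons_append, ← List.append_assoc, List.replicate_append_replicate]

theorem hh_injective (hk : 1 ≤ k) (hab : a ≠ b) {Δ : ℕ} (hE : E = k * Δ + 1) :
    Function.Injective (hh a b k E) := by
  have main : ∀ (n : ℕ) (x y : List (Fin (k + 1))), x.length ≤ n →
      hh a b k E x = hh a b k E y → x = y := by
    intro n
    induction n with
    | zero =>
      intro x y hx h
      have hx0 : x = [] := List.length_eq_zero_iff.mp (by omega)
      subst hx0
      have h0 : hh a b k E [] = [] := rfl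
      rw [h0] at h
      rcases decomp y with ⟨z, hz⟩ | ⟨z, i, x', hi, hx⟩
      · rw [hz, hh_replicate] at h
        have := congrArg List.length h
        rw [List.length_nil, List.length_replicate] at this
        have hz0 : z = 0 := by
          rcases Nat.eq_zero_or_pos z with h1 | h1
          · exact h1
          · have := Nat.mul_pos (show 0 < k by omega) h1
            omega
        rw [hz, hz0]; rfl
      · exfalso
        rw [hx, hh_letter z i hi x'] at h
        have := congrArg List.length h
        simp at this
    | succ n ih =>
      intro x y hxn h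
      rcases decomp x with ⟨z, hz⟩ | ⟨z, i, x', hi, hx⟩
      · rcases decomp y with ⟨z', hz'⟩ | ⟨z', i', y', hi', hy⟩
        · rw [hz, hz', hh_replicate, hh_replicate] at h
          have := congrArg List.length h
          rw [List.length_replicate, List.length_replicate] at this
          have hzz : z = z' := Nat.eq_of_mul_eq_mul_left (by omega) this
          rw [hz, hz', hzz]
        · exfalso
          rw [hz, hy, hh_replicate, hh_letter z' i' hi' y'] at h
          have : b ∈ List.replicate (k * z) a := by rw [h]; simp
          exact hab (List.eq_of_mem_replicate this).symm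
      · rcases decomp y with ⟨z', hz'⟩ | ⟨z', i', y', hi', hy⟩
        · exfalso
          rw [hx, hz', hh_replicate, hh_letter z i hi x'] at h
          have : b ∈ List.replicate (k * z') a := by rw [← h]; simp
          exact hab (List.eq_of_mem_replicate this).symm
        · rw [hx, hy, hh_letter z i hi x', hh_letter z' i' hi' y'] at h
          obtain ⟨h1, h2⟩ := replicate_b_inj hab h
          have hll : ∀ j, ll k E j % k = (k - 1 - j) % k := by
            intro j
            unfold ll
            rw [hE]
            have : (k - 1 - j) * (k * Δ + 1) = (k - 1 - j) + k * ((k - 1 - j) * Δ) := by ring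
            rw [this, Nat.add_mul_mod_self_left]
          have h3 : (k * z + ll k E i.val) % k = (k * z' + ll k E i'.val) % k := by rw [h1]
          rw [Nat.mul_add_mod, Nat.mul_add_mod, hll, hll, Nat.mod_eq_of_lt (by omega),
            Nat.mod_eq_of_lt (by omega)] at h3
          have hii : i = i' := Fin.ext (by omega)
          subst hii
          have h4 : k * z = k * z' := by omega
          have hzz : z = z' := Nat.eq_of_mul_eq_mul_left (by omega) h4
          subst hzz
          have h5 := List.append_cancel_left h2
          have h6 : x'.length ≤ n := by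
            rw [hx] at hxn
            simp only [List.length_append, List.length_cons, List.length_replicate] at hxn
            omega
          rw [hx, hy, ih x' y' h6 h5]
  intro x y h
  exact main x.length x y le_rfl h

end code

/-- Positions of the letter `b` in the image. -/
def bp (k M c E : ℕ) : ℕ → ℕ
  | 0 => k * zf k M c E 0 + ll k E (trk k M 0)
  | τ + 1 => bp k M c E τ + rr k E (trk k M τ) + k * zf k M c E (τ + 1)
      + ll k E (trk k M (τ + 1)) + 1

theorem bp_succ (k M c E τ : ℕ) : bp k M c E (τ + 1) =
    bp k M c E τ + rr k E (trk k M τ) + k * zf k M c E (τ + 1) + ll k E (trk k M (τ + 1)) + 1 := rfl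

theorem bp_strictMono (k M c E : ℕ) : StrictMono (bp k M c E) :=
  strictMono_nat_of_lt_succ fun τ => by rw [bp_succ]; omega

section image

variable {Γ : Type*} {a b : Γ} {k M c E : ℕ}

theorem cut_fill (hk : 1 ≤ k) {P s : ℕ} (h : ∀ u < s, ∀ τ, pos k M c E τ ≠ P + u) :
    cut (hh a b k E) (ww k M c E) (P + s) = cut (hh a b k E) (ww k M c E) P + k * s := by
  induction s with
  | zero => simp
  | succ s ih =>
    have h1 := ih fun u hu => h u (by omega)
    have e : P + (s + 1) = P + s + 1 := by ring
    rw [e, cut_succ (hh_morphism a b k E), h1, hh_single, ww_val hk,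
      wv_not (h s (by omega)), cw_filler, List.length_replicate]
    ring

theorem cut_tok (hk : 1 ≤ k) (τ : ℕ) :
    cut (hh a b k E) (ww k M c E) (pos k M c E τ + 1) =
      cut (hh a b k E) (ww k M c E) (pos k M c E τ)
        + (ll k E (trk k M τ) + 1 + rr k E (trk k M τ)) := by
  rw [cut_succ (hh_morphism a b k E), hh_single, ww_val hk, wv_pos,
    cw_letter_length a b k E (trk_lt hk M τ)]

theorem bp_eq (hk : 1 ≤ k) (τ : ℕ) :
    bp k M c E τ = cut (hh a b k E) (ww k M c E) (pos k M c E τ) + ll k E (trk k M τ) := by
  induction τ with
  | zero =>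
    have h1 : cut (hh a b k E) (ww k M c E) (0 + zf k M c E 0)
        = cut (hh a b k E) (ww k M c E) 0 + k * zf k M c E 0 := by
      refine cut_fill hk fun u hu τ hτ => ?_
      have h2 := (pos_strictMono k M c E).monotone (Nat.zero_le τ)
      have h3 : pos k M c E 0 = zf k M c E 0 := rfl
      omega
    rw [cut_zero (hh_morphism a b k E), zero_add, zero_add] at h1
    have h3 : pos k M c E 0 = zf k M c E 0 := rfl
    have h4 : bp k M c E 0 = k * zf k M c E 0 + ll k E (trk k M 0) := rfl
    rw [h3, h1, h4]
  | succ τ ih =>
    have h1 : cut (hh a b k E) (ww k M c E) (pos k M c E τ + 1 + zf k M c E (τ + 1))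
        = cut (hh a b k E) (ww k M c E) (pos k M c E τ + 1) + k * zf k M c E (τ + 1) := by
      refine cut_fill hk fun u hu τ' hτ' => ?_
      have h2 : τ < τ' := by
        rw [← (pos_strictMono k M c E).lt_iff_lt (a := τ)]; omega
      have h3 : pos k M c E (τ + 1) ≤ pos k M c E τ' := (pos_strictMono k M c E).monotone (by omega)
      rw [pos_succ] at h3
      omega
    have e : pos k M c E (τ + 1) = pos k M c E τ + 1 + zf k M c E (τ + 1) := by
      rw [pos_succ]; ring
    rw [e, h1, cut_tok hk, bp_succ, ih]
    ring

theorem x_eq (hk : 1 ≤ k) (hab : a ≠ b) {Δ : ℕ} (hE : E = k * Δ + 1) {x : ℕ → Γ}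
    (him : IsImage (hh a b k E) (ww k M c E) x) (n : ℕ) :
    (x n = b ∧ ∃ τ, bp k M c E τ = n) ∨ (x n = a ∧ ∀ τ, bp k M c E τ ≠ n) := by
  have hm := hh_morphism a b k E
  have hinj := hh_injective hk hab hE
  have hmono := cut_strictMono hm hinj (ww k M c E)
  obtain ⟨p, hp1, hp2⟩ := exists_cover hm hinj (ww k M c E) (n + 1) (by omega)
  obtain ⟨u, hu⟩ := Nat.exists_eq_add_of_le (show cut (hh a b k E) (ww k M c E) p ≤ n by omega)
  have hlen : u < (hh a b k E [ww k M c E p]).length := by
    rw [cut_succ hm] at hp2; omega
  have hx := x_cut hm him p u hlen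
  rw [← hu] at hx
  -- a token whose `b` is at `n` sits at `p`
  have huniq : ∀ τ, bp k M c E τ = n → pos k M c E τ = p := by
    intro τ hτ
    rw [bp_eq (a := a) (b := b) hk] at hτ
    have h1 := cut_tok (a := a) (b := b) (M := M) (c := c) (E := E) hk τ
    have h2 : cut (hh a b k E) (ww k M c E) (pos k M c E τ)
        < cut (hh a b k E) (ww k M c E) (p + 1) := by omega
    have h3 : cut (hh a b k E) (ww k M c E) p
        < cut (hh a b k E) (ww k M c E) (pos k M c E τ + 1) := by omega
    rw [hmono.lt_iff_lt] at h2 h3
    omega
  by_cases hex : ∃ τ, pos k M c E τ = p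
  · obtain ⟨τ, rfl⟩ := hex
    have hw : (ww k M c E (pos k M c E τ)).val = trk k M τ := by rw [ww_val hk, wv_pos]
    rw [hh_single, hw] at hx hlen
    have hi := trk_lt hk M τ
    rcases lt_trichotomy u (ll k E (trk k M τ)) with h | h | h
    · right
      rw [cw_letter_get_lt a b k E hi h] at hx
      refine ⟨(Option.some.inj hx).symm, fun τ' hτ' => ?_⟩
      have h1 := (pos_strictMono k M c E).injective (huniq τ' hτ')
      subst h1
      rw [bp_eq (a := a) (b := b) hk] at hτ'
      omega
    · left
      rw [h, cw_letter_get_eq a b k E hi] at hx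
      refine ⟨(Option.some.inj hx).symm, τ, ?_⟩
      rw [bp_eq (a := a) (b := b) hk]
      omega
    · right
      rw [cw_letter_get_gt a b k E hi h hlen] at hx
      refine ⟨(Option.some.inj hx).symm, fun τ' hτ' => ?_⟩
      have h1 := (pos_strictMono k M c E).injective (huniq τ' hτ')
      subst h1
      rw [bp_eq (a := a) (b := b) hk] at hτ'
      omega
  · right
    push Not at hex
    have hw : (ww k M c E p).val = k := by rw [ww_val hk, wv_not hex]
    rw [hh_single, hw] at hx hlen
    rw [cw_filler, List.length_replicate] at hlen
    rw [cw_filler_get a b k E hlen] at hx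
    exact ⟨(Option.some.inj hx).symm, fun τ hτ => hex τ (huniq τ hτ)⟩

end image

end Pool.Agent.Lib.MP_52ae34_co.Exact
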