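import Mathlib
import Pool.Agent.Lib.MP_52ae34_co.ExactCode

set_option autoImplicit false

/-! High powers in the image of the word of the sharp lower bound. -/

namespace Pool.Agent.Lib.MP_52ae34_co.Exact

open Filter
open scoped ENNReal

/-- Distance between consecutive `b`'s inside block `j`. -/
def dgap (k M c E j g p : ℕ) : ℕ :=
  if p = 0 then k * E + k * (2 * 2 ^ c + g) + 1
  else if g = M - 1 then (k + 1) * E + k * (3 * 2 ^ c + sg c (tA k j + p)) + 1
  else k * E + k * (2 ^ c + sg c ((M - 1) * tA k j + g * (k * j) + p)) + 1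

theorem rotate_sum {k : ℕ} (hk : 1 ≤ k) (E i : ℕ) :
    rr k E (i % k) + ll k E ((i + 1) % k) = k * E := by
  have h1 : i % k < k := Nat.mod_lt _ (by omega)
  unfold rr ll
  by_cases h : i % k = k - 1
  · have h2 : (i + 1) % k = 0 := by
      rw [Nat.add_mod, h]
      rcases Nat.eq_or_lt_of_le hk with h3 | h3
      · rw [← h3]
      · rw [Nat.mod_eq_of_lt h3, Nat.sub_add_cancel hk, Nat.mod_self]
    rw [if_pos h, h2, Nat.sub_zero]
    obtain ⟨k', rfl⟩ : ∃ k', k = k' + 1 := ⟨k - 1, by omega⟩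
    rw [Nat.add_sub_cancel]
    linarith
  · have h2 : (i + 1) % k = i % k + 1 := by
      rw [Nat.add_mod, Nat.mod_eq_of_lt (show 1 < k by omega)]
      exact Nat.mod_eq_of_lt (by omega)
    rw [if_neg h, h2, ← Nat.add_mul]
    congr 1
    omega

theorem keep_sum {k : ℕ} (E i : ℕ) (h1 : i < k) (h : i ≠ k - 1) :
    rr k E i + ll k E i = (k + 1) * E := by
  unfold rr ll
  rw [if_neg h, ← Nat.add_mul]
  congr 1
  omega

theorem keep_sum_last {k : ℕ} (E : ℕ) :
    rr k E (k - 1) + ll k E (k - 1) = E := by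
  unfold rr ll
  rw [if_pos rfl]
  simp

theorem keep_track {k M κ : ℕ} (hk : 1 ≤ k) (hM : 2 ≤ M) (hκ : M = k * κ + 1) {G : ℕ}
    (hG : G < nb k M) (hg : G % M = M - 1) : G % k = k - 1 ↔ G = k * M - 1 := by
  obtain ⟨n1, n2, n3⟩ := nb_eq hk hM
  have e1 := Nat.div_add_mod G M
  have h2 : G % k = (G / M) % k := by
    rw [mod_k hκ G, hg, hκ, Nat.add_sub_cancel, Nat.add_mul_mod_self_left]
  constructor
  · intro h
    rw [h2] at h
    have hω : G / M < 2 * k - 1 := by
      by_contra hcon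
      push Not at hcon
      have := Nat.mul_le_mul_left M hcon
      have e : M * (2 * k - 1) + M = 2 * (k * M) := by
        obtain ⟨k', rfl⟩ : ∃ k', k = k' + 1 := ⟨k - 1, by omega⟩
        have : 2 * (k' + 1) - 1 = 2 * k' + 1 := by omega
        rw [this]; ring
      omega
    have h3 : G / M = k - 1 := by
      rcases Nat.lt_or_ge (G / M) k with h4 | h4
      · rw [Nat.mod_eq_of_lt h4] at h; exact h
      · rw [Nat.mod_eq_sub_mod h4, Nat.mod_eq_of_lt (by omega)] at h; omega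
    rw [h3, hg] at e1
    have e : M * (k - 1) + M = k * M := by
      obtain ⟨k', rfl⟩ : ∃ k', k = k' + 1 := ⟨k - 1, by omega⟩
      rw [Nat.add_sub_cancel]; ring
    omega
  · intro h
    rw [h]
    have e : k * M - 1 = (k - 1) + k * (M - 1) := by
      obtain ⟨M', rfl⟩ : ∃ M', M = M' + 1 := ⟨M - 1, by omega⟩
      rw [Nat.add_sub_cancel, Nat.mul_add, mul_one]
      omega
    rw [e, Nat.add_mul_mod_self_left]
    exact Nat.mod_eq_of_lt (by omega)

section

variable {k M κ c E : ℕ}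

/-- Distances between consecutive `b`'s inside a block. -/
theorem bp_step (hk : 1 ≤ k) (hM : 2 ≤ M) (hκ : M = k * κ + 1) {j s : ℕ}
    (hs : s + 1 < nb k M * (k * j + 1)) :
    bp k M c E (tB (nb k M) k j + s + 1) = bp k M c E (tB (nb k M) k j + s)
      + dgap k M c E j ((s + 1) / (k * j + 1) % M) ((s + 1) % (k * j + 1)) := by
  obtain ⟨n1, n2, n3⟩ := nb_eq hk hM
  have hnb : 1 ≤ nb k M := by omega
  have h1 := Nat.div_add_mod (s + 1) (k * j + 1)
  rw [mul_comm] at h1
  have h2 : (s + 1) % (k * j + 1) < k * j + 1 := Nat.mod_lt _ (by omega)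
  have h3 : (s + 1) / (k * j + 1) < nb k M := by
    rw [Nat.div_lt_iff_lt_mul (by omega)]; exact hs
  generalize (s + 1) / (k * j + 1) = G at *
  generalize (s + 1) % (k * j + 1) = p at *
  have hst : st (nb k M) k (tB (nb k M) k j + s + 1) = (j, G, p) := by
    have e : tB (nb k M) k j + s + 1 = tB (nb k M) k j + G * (k * j + 1) + p := by omega
    rw [e]
    exact st_of hnb h3 (by omega)
  rw [bp_succ]
  unfold zf trk
  rw [hst]
  by_cases hp : p = 0
  · subst hp
    have hG : G ≠ 0 := by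
      rintro rfl
      omega
    have hst' : st (nb k M) k (tB (nb k M) k j + s) = (j, G - 1, k * j) := by
      have e0 : G * (k * j + 1) = (G - 1) * (k * j + 1) + (k * j + 1) := by
        obtain ⟨G', rfl⟩ : ∃ G', G = G' + 1 := ⟨G - 1, by omega⟩
        rw [Nat.add_sub_cancel]; ring
      have e : tB (nb k M) k j + s = tB (nb k M) k j + (G - 1) * (k * j + 1) + k * j := by omega
      rw [e]
      exact st_of hnb (by omega) le_rfl
    rw [hst']
    have ht1 : tt k M (j, G - 1, k * j) = (G - 1) % k := by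
      unfold tt
      dsimp only
      rw [Nat.add_mul_mod_self_left]
      simp
    have ht2 : tt k M (j, G, 0) = (G - 1 + 1) % k := by
      unfold tt
      dsimp only
      rw [Nat.sub_add_cancel (by omega : 1 ≤ G), add_zero]
      simp
    rw [ht1, ht2, zt_special (s := (j, G, 0)) rfl hG]
    dsimp only
    unfold dgap
    rw [if_pos rfl]
    have := rotate_sum hk E (G - 1)
    omega
  · have hst' : st (nb k M) k (tB (nb k M) k j + s) = (j, G, p - 1) := by
      have e : tB (nb k M) k j + s = tB (nb k M) k j + G * (k * j + 1) + (p - 1) := by omega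
      rw [e]
      exact st_of hnb (by omega) (by omega)
    rw [hst']
    unfold dgap
    rw [if_neg hp]
    by_cases hg : G % M = M - 1
    · have ht1 : tt k M (j, G, p - 1) = G % k := by unfold tt; dsimp only; rw [if_pos hg]
      have ht2 : tt k M (j, G, p) = G % k := by unfold tt; dsimp only; rw [if_pos hg]
      rw [ht1, ht2, if_pos hg]
      have hkt := keep_track hk hM hκ h3 hg
      by_cases hG : G = k * M - 1
      · rw [zt_dense hk (by omega) (s := (j, G, p)) hp hG, hkt.mpr hG]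
        dsimp only
        have h5 := keep_sum_last (k := k) E
        have e5 : k * (E + (3 * 2 ^ c + sg c (tA k j + p)))
            = k * E + k * (3 * 2 ^ c + sg c (tA k j + p)) := by ring
        have e6 : (k + 1) * E = k * E + E := by ring
        omega
      · rw [zt_keep (s := (j, G, p)) hp hg hG]
        dsimp only
        have hne : G % k ≠ k - 1 := fun h => hG (hkt.mp h)
        have h5 := keep_sum E (G % k) (Nat.mod_lt _ (by omega)) hne
        omega
    · have ht1 : tt k M (j, G, p - 1) = (G + (p - 1)) % k := by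
        unfold tt; dsimp only; rw [if_neg hg]
      have ht2 : tt k M (j, G, p) = (G + (p - 1) + 1) % k := by
        unfold tt; dsimp only; rw [if_neg hg]; congr 1; omega
      rw [ht1, ht2, if_neg hg, zt_rot (s := (j, G, p)) hp hg]
      dsimp only
      have h5 := rotate_sum hk E (G + (p - 1))
      omega

theorem dgap_bounds (hk : 1 ≤ k) (hMc : M < 2 ^ c) (j : ℕ) {g : ℕ} (hg : g < M) (p : ℕ) :
    k * E + k * 2 ^ c + 1 ≤ dgap k M c E j g p ∧
      dgap k M c E j g p ≤ (k + 1) * E + k * (4 * 2 ^ c) + 1 := by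
  unfold dgap
  have h1 := sg_lt c (tA k j + p)
  have h2 := sg_lt c ((M - 1) * tA k j + g * (k * j) + p)
  have e6 : (k + 1) * E = k * E + E := by ring
  split_ifs
  · have a1 : k * 2 ^ c ≤ k * (2 * 2 ^ c + g) := Nat.mul_le_mul_left _ (by omega)
    have a2 : k * (2 * 2 ^ c + g) ≤ k * (4 * 2 ^ c) := Nat.mul_le_mul_left _ (by omega)
    omega
  · have a1 : k * 2 ^ c ≤ k * (3 * 2 ^ c + sg c (tA k j + p)) := Nat.mul_le_mul_left _ (by omega)
    have a2 : k * (3 * 2 ^ c + sg c (tA k j + p)) ≤ k * (4 * 2 ^ c) :=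
      Nat.mul_le_mul_left _ (by omega)
    omega
  · have a1 : k * 2 ^ c ≤ k * (2 ^ c + sg c ((M - 1) * tA k j + g * (k * j) + p)) :=
      Nat.mul_le_mul_left _ (by omega)
    have a2 : k * (2 ^ c + sg c ((M - 1) * tA k j + g * (k * j) + p)) ≤ k * (4 * 2 ^ c) :=
      Nat.mul_le_mul_left _ (by omega)
    omega

theorem bp_shift (hk : 1 ≤ k) (hM : 2 ≤ M) (hκ : M = k * κ + 1) {j q : ℕ}
    (hq : bp k M c E (tB (nb k M) k j + M * (k * j + 1)) = bp k M c E (tB (nb k M) k j) + q)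
    (s : ℕ) (hs : s + M * (k * j + 1) < nb k M * (k * j + 1)) :
    bp k M c E (tB (nb k M) k j + s + M * (k * j + 1)) = bp k M c E (tB (nb k M) k j + s) + q := by
  induction s with
  | zero => simpa using hq
  | succ s ih =>
    have h1 := ih (by omega)
    have h2 := bp_step (c := c) (E := E) hk hM hκ (j := j) (s := s) (by omega)
    have h3 := bp_step (c := c) (E := E) hk hM hκ (j := j) (s := s + M * (k * j + 1)) (by omega)
    have e0 : s + M * (k * j + 1) + 1 = s + 1 + M * (k * j + 1) := by ring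
    rw [e0, Nat.add_mul_div_right _ _ (by omega : 0 < k * j + 1), Nat.add_mul_mod_self_right,
      Nat.add_mod_right] at h3
    have e1 : tB (nb k M) k j + (s + 1) + M * (k * j + 1)
        = tB (nb k M) k j + (s + M * (k * j + 1)) + 1 := by ring
    have e2 : tB (nb k M) k j + (s + 1) = tB (nb k M) k j + s + 1 := by ring
    have e3 : tB (nb k M) k j + (s + M * (k * j + 1))
        = tB (nb k M) k j + s + M * (k * j + 1) := by ring
    rw [e1, e2, h2, h3, e3, h1]
    ring

theorem bp_shift_mul (hk : 1 ≤ k) (hM : 2 ≤ M) (hκ : M = k * κ + 1) {j q : ℕ}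
    (hq : bp k M c E (tB (nb k M) k j + M * (k * j + 1)) = bp k M c E (tB (nb k M) k j) + q)
    (s u : ℕ) (hs : u + s * (M * (k * j + 1)) < nb k M * (k * j + 1)) :
    bp k M c E (tB (nb k M) k j + u + s * (M * (k * j + 1)))
      = bp k M c E (tB (nb k M) k j + u) + s * q := by
  induction s with
  | zero => simp
  | succ s ih =>
    have e0 : (s + 1) * (M * (k * j + 1)) = s * (M * (k * j + 1)) + M * (k * j + 1) := by ring
    rw [e0] at hs
    have h1 := ih (by omega)
    have h2 := bp_shift hk hM hκ hq (u + s * (M * (k * j + 1))) (by omega)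
    have e1 : tB (nb k M) k j + u + (s + 1) * (M * (k * j + 1))
        = tB (nb k M) k j + (u + s * (M * (k * j + 1))) + M * (k * j + 1) := by ring
    have e2 : tB (nb k M) k j + (u + s * (M * (k * j + 1)))
        = tB (nb k M) k j + u + s * (M * (k * j + 1)) := by ring
    rw [e1, h2, e2, h1]
    ring

theorem bp_bounds (hk : 1 ≤ k) (hM : 2 ≤ M) (hκ : M = k * κ + 1) (hMc : M < 2 ^ c) {j s : ℕ}
    (n : ℕ) (hs : s + n < nb k M * (k * j + 1)) :
    bp k M c E (tB (nb k M) k j + s) + n * (k * E + k * 2 ^ c + 1)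
        ≤ bp k M c E (tB (nb k M) k j + s + n) ∧
      bp k M c E (tB (nb k M) k j + s + n) ≤
        bp k M c E (tB (nb k M) k j + s) + n * ((k + 1) * E + k * (4 * 2 ^ c) + 1) := by
  induction n with
  | zero => simp
  | succ n ih =>
    obtain ⟨h1, h2⟩ := ih (by omega)
    have h3 := bp_step (c := c) (E := E) hk hM hκ (j := j) (s := s + n) (by omega)
    obtain ⟨h4, h5⟩ := dgap_bounds (E := E) hk hMc j
      (Nat.mod_lt ((s + n + 1) / (k * j + 1)) (by omega : M > 0)) ((s + n + 1) % (k * j + 1))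
    have e1 : tB (nb k M) k j + s + (n + 1) = tB (nb k M) k j + (s + n) + 1 := by ring
    have e2 : tB (nb k M) k j + (s + n) = tB (nb k M) k j + s + n := by ring
    rw [e1, h3, e2]
    have e3 : (n + 1) * (k * E + k * 2 ^ c + 1)
        = n * (k * E + k * 2 ^ c + 1) + (k * E + k * 2 ^ c + 1) := by ring
    have e4 : (n + 1) * ((k + 1) * E + k * (4 * 2 ^ c) + 1)
        = n * ((k + 1) * E + k * (4 * 2 ^ c) + 1) + ((k + 1) * E + k * (4 * 2 ^ c) + 1) := by ring
    rw [e3, e4]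
    omega

/-- The separator in front of a block is long. -/
theorem block_sep (hk : 1 ≤ k) (hM : 2 ≤ M) {j : ℕ} (hj : 1 ≤ j) :
    ∀ τ < tB (nb k M) k j, bp k M c E τ + (k * E + k * (2 * 2 ^ c) + 1)
        ≤ bp k M c E (tB (nb k M) k j) := by
  have hnb := nb_pos hk hM
  intro τ hτ
  obtain ⟨B, hB⟩ : ∃ B, tB (nb k M) k j = B + 1 := ⟨tB (nb k M) k j - 1, by omega⟩
  have hst := st_B (k := k) hnb j
  rw [hB] at hst hτ ⊢
  have hz : zf k M c E (B + 1) = 2 * 2 ^ c + M := by
    unfold zf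
    rw [hst]
    exact zt_special_zero rfl rfl
  have ht : trk k M (B + 1) = 0 := by
    unfold trk tt
    rw [hst]
    simp
  have hr : E ≤ rr k E (trk k M B) := by
    unfold rr
    split_ifs
    · exact le_rfl
    · exact Nat.le_mul_of_pos_left E (by omega)
  have hl : ll k E 0 + E = k * E := by
    unfold ll
    obtain ⟨k', rfl⟩ : ∃ k', k = k' + 1 := ⟨k - 1, by omega⟩
    rw [Nat.add_sub_cancel, Nat.sub_zero]
    ring
  rw [bp_succ, hz, ht]
  have h1 := (bp_strictMono k M c E).monotone (show τ ≤ B by omega)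
  have h2 : k * (2 * 2 ^ c) ≤ k * (2 * 2 ^ c + M) := Nat.mul_le_mul_left _ (by omega)
  omega

/-- The arithmetic of one block. -/
theorem block_core {f : ℕ → ℕ} (hmono : StrictMono f) {k M N B L j G Dmin Dmax : ℕ} (hk : 1 ≤ k)
    (hM : 2 ≤ M) (n1 : N + 1 = 2 * (k * M)) (hB : 1 ≤ B) (hjL : j < L)
    (hsep : ∀ τ < B, f τ + G ≤ f B)
    (hshift : ∀ q, f (B + M * L) = f B + q → ∀ s, s + M * L < N * L →
      f (B + s + M * L) = f (B + s) + q)
    (hshiftm : ∀ q, f (B + M * L) = f B + q → ∀ s u, u + s * (M * L) < N * L →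
      f (B + u + s * (M * L)) = f (B + u) + s * q)
    (hgap : f (B + M * L) = f (B + (M * L - 1)) + G)
    (hb1 : f B + M * L * Dmin ≤ f (B + M * L))
    (hb2 : f (B + M * L) ≤ f (B + ((M - 1) * L - 1)) + (L + 1) * Dmax)
    (hD4 : Dmax ≤ 4 * Dmin) (hD : 1 ≤ Dmin) (hG : 1 ≤ G) :
    ∃ i q m, j < q ∧ q ≤ m ∧ (2 * k * M - 8) * q ≤ m * M ∧
      ∀ n, i ≤ n → n + q < i + m → ((∃ τ, f τ = n) ↔ ∃ τ, f τ = n + q) := by
  have hkM : 1 * 2 ≤ k * M := Nat.mul_le_mul hk hM
  have hML : M * L < N * L := Nat.mul_lt_mul_of_pos_right (by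
    have : M ≤ k * M := Nat.le_mul_of_pos_left M hk
    omega) (by omega)
  obtain ⟨q, hq⟩ := Nat.exists_eq_add_of_le (hmono.monotone (show B ≤ B + M * L by omega))
  -- arithmetic of the number of tokens
  have hNL : N * L + L = 2 * k * (M * L) := by
    have : (N + 1) * L = 2 * (k * M) * L := by rw [n1]
    have e : (N + 1) * L = N * L + L := by ring
    have e' : 2 * (k * M) * L = 2 * k * (M * L) := by ring
    omega
  have h2k : 2 * k * (M * L) = (2 * k - 1) * (M * L) + M * L := by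
    obtain ⟨k', rfl⟩ : ∃ k', k = k' + 1 := ⟨k - 1, by omega⟩
    have : 2 * (k' + 1) - 1 = 2 * k' + 1 := by omega
    rw [this]; ring
  have h2kq : 2 * k * q = (2 * k - 1) * q + q := by
    obtain ⟨k', rfl⟩ : ∃ k', k = k' + 1 := ⟨k - 1, by omega⟩
    have : 2 * (k' + 1) - 1 = 2 * k' + 1 := by omega
    rw [this]; ring
  have hM1L : M * L = (M - 1) * L + L := by
    obtain ⟨M', rfl⟩ : ∃ M', M = M' + 1 := ⟨M - 1, by omega⟩
    rw [Nat.add_sub_cancel]; ring
  have hM1L' : L ≤ (M - 1) * L := Nat.le_mul_of_pos_left L (by omega)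
  -- the last token of the block
  have hlast := hshiftm q hq (2 * k - 1) ((M - 1) * L - 1) (by omega)
  have elast : B + ((M - 1) * L - 1) + (2 * k - 1) * (M * L) = B + (N * L - 1) := by omega
  rw [elast] at hlast
  have hqmin : M * L * Dmin ≤ q := by omega
  have hjq : j < q := by
    have h1 : L ≤ M * L := Nat.le_mul_of_pos_left L (by omega)
    have h2 : M * L ≤ M * L * Dmin := Nat.le_mul_of_pos_right _ (by omega)
    omega
  obtain ⟨i, hi⟩ : ∃ i, f B + 1 = i + G := by
    have := hsep 0 (by omega)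
    exact ⟨f B + 1 - G, by omega⟩
  have hfirst : f B ≤ f (B + ((M - 1) * L - 1)) := hmono.monotone (by omega)
  have hkq : q ≤ (2 * k - 1) * q := Nat.le_mul_of_pos_left q (by omega)
  obtain ⟨m, hm⟩ : ∃ m, f (B + (N * L - 1)) + 1 = i + m :=
    ⟨f (B + (N * L - 1)) + 1 - i, by omega⟩
  refine ⟨i, q, m, hjq, by omega, ?_, ?_⟩
  · -- the length
    have h1 : 2 * k * q ≤ m + (L + 1) * Dmax := by omega
    have h2 : 2 * k * q * M ≤ m * M + (L + 1) * Dmax * M := by
      have := Nat.mul_le_mul_right M h1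
      rw [Nat.add_mul] at this
      exact this
    have h3 : (L + 1) * Dmax * M ≤ 8 * q := by
      calc (L + 1) * Dmax * M ≤ (2 * L) * (4 * Dmin) * M :=
            Nat.mul_le_mul_right _ (Nat.mul_le_mul (by omega) hD4)
        _ = 8 * (M * L * Dmin) := by ring
        _ ≤ 8 * q := Nat.mul_le_mul_left _ hqmin
    have h4 : (2 * k * M - 8) * q = 2 * k * q * M - 8 * q := by
      rw [Nat.sub_mul]
      congr 1
      ring
    omega
  · intro n hn hn'
    constructor
    · rintro ⟨τ, hτ⟩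
      have h1 : B ≤ τ := by
        by_contra hcon
        push Not at hcon
        have := hsep τ hcon
        omega
      obtain ⟨s, rfl⟩ := Nat.exists_eq_add_of_le h1
      have h2 : s + M * L < N * L := by
        by_contra hcon
        push Not at hcon
        have h3 := hshift q hq (N * L - 1 - M * L) (by omega)
        have e1 : B + (N * L - 1 - M * L) + M * L = B + (N * L - 1) := by omega
        rw [e1] at h3
        have h4 : f (B + (N * L - 1 - M * L)) < f (B + s) := hmono (by omega)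
        omega
      refine ⟨B + s + M * L, ?_⟩
      rw [hshift q hq s h2, hτ]
    · rintro ⟨τ, hτ⟩
      have h1 : B + (M * L - 1) < τ := by
        rw [← hmono.lt_iff_lt]; omega
      have h2 : τ ≤ B + (N * L - 1) := by
        rw [← hmono.le_iff_le]; omega
      obtain ⟨s, rfl⟩ : ∃ s, τ = B + s + M * L := ⟨τ - (B + M * L), by omega⟩
      refine ⟨B + s, ?_⟩
      rw [hshift q hq s (by omega)] at hτ
      omega

theorem hasPer_image {Γ : Type*} {a b : Γ} (hk : 1 ≤ k) (hM : 2 ≤ M) (hκ : M = k * κ + 1)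
    (hMc : M < 2 ^ c) (hab : a ≠ b) {Δ : ℕ} (hE : E = k * Δ + 1) {x : ℕ → Γ}
    (him : IsImage (hh a b k E) (ww k M c E) x) {j : ℕ} (hj : 1 ≤ j) :
    ∃ i q m, j < q ∧ q ≤ m ∧ (2 * k * M - 8) * q ≤ m * M ∧ HasPer x i m q := by
  obtain ⟨n1, n2, n3⟩ := nb_eq hk hM
  have hkM : M ≤ k * M := Nat.le_mul_of_pos_left M hk
  have hjk : j ≤ k * j := Nat.le_mul_of_pos_left j hk
  have hML : (M + 1) * (k * j + 1) ≤ nb k M * (k * j + 1) := Nat.mul_le_mul_right _ (by omega)
  have hML' : (M + 1) * (k * j + 1) = M * (k * j + 1) + (k * j + 1) := by ring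
  have hM1L : M * (k * j + 1) = (M - 1) * (k * j + 1) + (k * j + 1) := by
    obtain ⟨M', rfl⟩ : ∃ M', M = M' + 1 := ⟨M - 1, by omega⟩
    rw [Nat.add_sub_cancel]; ring
  have hM1L' : k * j + 1 ≤ (M - 1) * (k * j + 1) := Nat.le_mul_of_pos_left _ (by omega)
  have hBpos : 1 ≤ tB (nb k M) k j := by
    obtain ⟨j', rfl⟩ : ∃ j', j = j' + 1 := ⟨j - 1, by omega⟩
    rw [tB_succ]
    have : 1 * 1 ≤ nb k M * (k * j' + 1) := Nat.mul_le_mul (by omega) (by omega)
    omega
  obtain ⟨i, q, m, h1, h2, h3, h4⟩ := block_core (f := bp k M c E) (bp_strictMono k M c E)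
    (k := k) (M := M) (N := nb k M) (B := tB (nb k M) k j) (L := k * j + 1) (j := j)
    (G := k * E + k * (2 * 2 ^ c) + 1) (Dmin := k * E + k * 2 ^ c + 1)
    (Dmax := (k + 1) * E + k * (4 * 2 ^ c) + 1) hk hM n1 hBpos (by omega)
    (block_sep (c := c) (E := E) hk hM hj)
    (fun q hq s hs => bp_shift hk hM hκ hq s hs)
    (fun q hq s u hs => bp_shift_mul hk hM hκ hq s u hs)
    (by
      have h1 := bp_step (c := c) (E := E) hk hM hκ (j := j) (s := M * (k * j + 1) - 1) (by omega)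
      have e0 : M * (k * j + 1) - 1 + 1 = M * (k * j + 1) := by omega
      rw [e0, Nat.mul_div_cancel _ (by omega : 0 < k * j + 1), Nat.mod_self,
        Nat.mul_mod_left] at h1
      have e1 : tB (nb k M) k j + (M * (k * j + 1) - 1) + 1 = tB (nb k M) k j + M * (k * j + 1) := by
        omega
      rw [e1] at h1
      rw [h1]
      unfold dgap
      rw [if_pos rfl, add_zero])
    (by
      have := (bp_bounds (c := c) (E := E) hk hM hκ hMc (j := j) (s := 0) (M * (k * j + 1))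
        (by omega)).1
      rw [add_zero] at this
      exact this)
    (by
      have := (bp_bounds (c := c) (E := E) hk hM hκ hMc (j := j) (s := (M - 1) * (k * j + 1) - 1)
        (k * j + 1 + 1) (by omega)).2
      have e9 : tB (nb k M) k j + ((M - 1) * (k * j + 1) - 1) + (k * j + 1 + 1)
          = tB (nb k M) k j + M * (k * j + 1) := by omega
      rw [e9] at this
      exact this)
    (by
      have e6 : (k + 1) * E = k * E + E := by ring
      have e7 : E ≤ k * E := Nat.le_mul_of_pos_left E hk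
      have e8 : k * (4 * 2 ^ c) = 4 * (k * 2 ^ c) := by ring
      omega)
    (by omega) (by omega)
  refine ⟨i, q, m, h1, h2, h3, ?_⟩
  intro n' hn'
  have hiff := h4 (i + n') (by omega) (by omega)
  rcases x_eq hk hab hE him (i + n') with ⟨a1, a2⟩ | ⟨a1, a2⟩
  · rcases x_eq hk hab hE him (i + n' + q) with ⟨a3, _⟩ | ⟨_, a4⟩
    · rw [a1, a3]
    · obtain ⟨τ, hτ⟩ := hiff.mp a2
      exact absurd hτ (a4 τ)
  · rcases x_eq hk hab hE him (i + n' + q) with ⟨_, a4⟩ | ⟨a3, _⟩
    · obtain ⟨τ, hτ⟩ := hiff.mpr a4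
      exact absurd hτ (a2 τ)
    · rw [a1, a3]

theorem le_ACE_image {Γ : Type*} {a b : Γ} (hk : 1 ≤ k) (hM : 2 ≤ M) (hκ : M = k * κ + 1)
    (hMc : M < 2 ^ c) (hab : a ≠ b) {Δ : ℕ} (hE : E = k * Δ + 1) {x : ℕ → Γ}
    (him : IsImage (hh a b k E) (ww k M c E) x) :
    ((2 * k * M - 8 : ℕ) : ℝ≥0∞) ≤ ACE x * M := by
  have hM0 : (M : ℝ≥0∞) ≠ 0 := by exact_mod_cast (by omega : M ≠ 0)
  have hMt : (M : ℝ≥0∞) ≠ ⊤ := ENNReal.natCast_ne_top M
  rw [← ENNReal.div_le_iff_le_mul (Or.inl hM0) (Or.inl hMt)]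
  unfold ACE
  refine le_limsup_of_frequently_le' ?_
  rw [frequently_atTop]
  intro n0
  obtain ⟨i, q, m, hq, hqm, hlen, hper⟩ := hasPer_image hk hM hκ hMc hab hE him
    (j := n0 + 1) (by omega)
  refine ⟨m, by omega, ?_⟩
  refine le_trans ?_ (le_iSup (fun i => expo (factor x i m)) i)
  refine le_trans ?_ (le_expo hper (by omega))
  have hq0 : (q : ℝ≥0∞) ≠ 0 := by exact_mod_cast (by omega : q ≠ 0)
  have hqt : (q : ℝ≥0∞) ≠ ⊤ := ENNReal.natCast_ne_top q
  rw [ENNReal.le_div_iff_mul_le (Or.inl hq0) (Or.inl hqt), ← ENNReal.mul_div_right_comm]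
  refine ENNReal.div_le_of_le_mul ?_
  exact_mod_cast hlen

end

/-- The sharp lower bound for `S`. -/
theorem le_S {Γ : Type*} [Nontrivial Γ] {k : ℕ} (hk : 1 ≤ k) :
    ((2 * k : ℕ) : ℝ≥0∞) ≤ S (Fin (k + 1)) Γ := by
  obtain ⟨a, b, hab⟩ := exists_pair_ne Γ
  set Q := S (Fin (k + 1)) Γ with hQ
  have key : ∀ κ c, 1 ≤ κ → k * κ + 1 < 2 ^ c → 2 ≤ c →
      ((2 * k * (k * κ + 1) - 8 : ℕ) : ℝ≥0∞)
        ≤ Q * (1 + ((32 * (k * κ + 1) + 1 : ℕ) : ℝ≥0∞) / 2 ^ c) * ((k * κ + 1 : ℕ) : ℝ≥0∞) := by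
    intro κ c hκ1 hMc hc
    set M := k * κ + 1 with hM
    have hM2 : 2 ≤ M := by
      have : 1 * 1 ≤ k * κ := Nat.mul_le_mul hk hκ1
      omega
    set Δ := 2 ^ c + 4 * 2 ^ c * 2 ^ c * (k * M) with hΔ
    have hkΔ : Δ ≤ k * Δ := Nat.le_mul_of_pos_left Δ hk
    have hm := hh_morphism a b k (k * Δ + 1)
    have hinj := hh_injective (E := k * Δ + 1) hk hab rfl
    obtain ⟨x, him⟩ := exists_image hm hinj (ww k M c (k * Δ + 1))
    have h1 := le_ACE_image hk hM2 hM hMc hab rfl him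
    have h2 : ACE (ww k M c (k * Δ + 1)) ≤ 1 + ((32 * M + 1 : ℕ) : ℝ≥0∞) / 2 ^ c := by
      refine ACE_ww_le hk hM2 hM hMc hc ?_ ?_
      · have : 2 ^ c ≤ Δ := by rw [hΔ]; exact Nat.le_add_right _ _
        omega
      · have : 4 * 2 ^ c * 2 ^ c * (k * M) ≤ Δ := by rw [hΔ]; exact Nat.le_add_left _ _
        omega
    have h3 : ACE x ≤ ACEinj Γ (ww k M c (k * Δ + 1)) := by
      unfold ACEinj
      exact le_iSup_of_le (hh a b k (k * Δ + 1))
        (le_iSup_of_le x (le_iSup_of_le ⟨hm, hinj, him⟩ le_rfl))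
    have htop : ACE (ww k M c (k * Δ + 1)) ≠ ⊤ := by
      refine ne_top_of_le_ne_top ?_ h2
      refine ENNReal.add_ne_top.mpr ⟨ENNReal.one_ne_top, ?_⟩
      exact ENNReal.div_ne_top (ENNReal.natCast_ne_top _) (by positivity)
    have h0 : ACE (ww k M c (k * Δ + 1)) ≠ 0 := by
      have := one_le_ACE (ww k M c (k * Δ + 1))
      intro h; rw [h] at this; simp at this
    have h4 : ACEinj Γ (ww k M c (k * Δ + 1)) / ACE (ww k M c (k * Δ + 1)) ≤ Q := by
      rw [hQ]
      unfold S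
      exact le_iSup₂ (f := fun (w : ℕ → Fin (k + 1)) (_ : ACE w ≠ ⊤) => ACEinj Γ w / ACE w)
        (ww k M c (k * Δ + 1)) htop
    refine le_trans h1 (mul_le_mul' ?_ le_rfl)
    calc ACE x ≤ ACEinj Γ (ww k M c (k * Δ + 1)) := h3
      _ = ACEinj Γ (ww k M c (k * Δ + 1)) / ACE (ww k M c (k * Δ + 1))
            * ACE (ww k M c (k * Δ + 1)) := (ENNReal.div_mul_cancel h0 htop).symm
      _ ≤ Q * (1 + ((32 * M + 1 : ℕ) : ℝ≥0∞) / 2 ^ c) := mul_le_mul' h4 h2
  -- let `c` tend to infinity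
  have key2 : ∀ κ, 1 ≤ κ → ((2 * k * (k * κ + 1) - 8 : ℕ) : ℝ≥0∞)
      ≤ Q * ((k * κ + 1 : ℕ) : ℝ≥0∞) := by
    intro κ hκ1
    have hlim : Tendsto (fun c : ℕ => Q * (1 + ((32 * (k * κ + 1) + 1 : ℕ) : ℝ≥0∞) / 2 ^ c)
        * ((k * κ + 1 : ℕ) : ℝ≥0∞)) atTop
        (nhds (Q * (1 + 0) * ((k * κ + 1 : ℕ) : ℝ≥0∞))) := by
      refine ENNReal.Tendsto.mul_const ?_ (Or.inr (ENNReal.natCast_ne_top _))
      refine ENNReal.Tendsto.const_mul ?_ (Or.inl (by simp))
      refine Tendsto.add tendsto_const_nhds ?_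
      have h1 : Tendsto (fun c : ℕ => (2 : ℝ≥0∞) ^ c) atTop (nhds ⊤) := by
        exact ENNReal.tendsto_pow_atTop_nhds_top_iff.mpr (by norm_num)
      have h2 := ENNReal.Tendsto.const_div (a := ((32 * (k * κ + 1) + 1 : ℕ) : ℝ≥0∞)) h1
        (Or.inr (ENNReal.natCast_ne_top _))
      simpa using h2
    rw [add_zero, mul_one] at hlim
    refine ge_of_tendsto hlim ?_
    filter_upwards [eventually_ge_atTop (k * κ + 2)] with c hc
    have hlt : c < 2 ^ c := Nat.lt_two_pow_self
    have hkκ : 1 * 1 ≤ k * κ := Nat.mul_le_mul hk hκ1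
    exact key κ c hκ1 (by omega) (by omega)
  -- let `κ` tend to infinity
  have key3 : ∀ κ : ℕ, 1 ≤ κ → ((2 * k : ℕ) : ℝ≥0∞) ≤ Q + 8 / (κ : ℝ≥0∞) := by
    intro κ hκ1
    have h1 := key2 κ hκ1
    set M := k * κ + 1 with hM
    have hM0 : (M : ℝ≥0∞) ≠ 0 := by exact_mod_cast (by omega : M ≠ 0)
    have hMt : (M : ℝ≥0∞) ≠ ⊤ := ENNReal.natCast_ne_top M
    have h2 : ((2 * k * M : ℕ) : ℝ≥0∞) ≤ Q * M + 8 := by
      calc ((2 * k * M : ℕ) : ℝ≥0∞) ≤ ((2 * k * M - 8 + 8 : ℕ) : ℝ≥0∞) := by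
            exact_mod_cast (by omega : 2 * k * M ≤ 2 * k * M - 8 + 8)
        _ = ((2 * k * M - 8 : ℕ) : ℝ≥0∞) + 8 := by push_cast; rfl
        _ ≤ Q * M + 8 := add_le_add h1 le_rfl
    have h3 : ((2 * k : ℕ) : ℝ≥0∞) ≤ (Q * M + 8) / M := by
      rw [ENNReal.le_div_iff_mul_le (Or.inl hM0) (Or.inl hMt)]
      exact_mod_cast h2
    refine le_trans h3 ?_
    rw [ENNReal.add_div, ENNReal.mul_div_cancel_right hM0 hMt]
    refine add_le_add le_rfl (ENNReal.div_le_div_left ?_ _)
    have : κ ≤ M := by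
      have := Nat.le_mul_of_pos_left κ hk
      omega
    exact_mod_cast this
  have hlim : Tendsto (fun κ : ℕ => Q + 8 / (κ : ℝ≥0∞)) atTop (nhds (Q + 0)) := by
    refine Tendsto.add tendsto_const_nhds ?_
    have h2 := ENNReal.Tendsto.const_div (a := (8 : ℝ≥0∞)) ENNReal.tendsto_nat_nhds_top
      (Or.inr (by norm_num))
    simpa using h2
  rw [add_zero] at hlim
  refine ge_of_tendsto hlim ?_
  filter_upwards [eventually_ge_atTop 1] with κ hκ
  exact key3 κ hκ

end Pool.Agent.Lib.MP_52ae34_co.Exact
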