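import Mathlib
import Pool.Agent.Lib.MP_52ae34_co.Upper

set_option autoImplicit false

/-! Positions of an infinite word at which the suffix is lexicographically locally maximal. -/

namespace Pool.Agent.Lib.MP_52ae34_co

/-- Lexicographic comparison of the suffixes of `y` starting at `i` and `j`. -/
def Lt (y : ℕ → ℕ) (i j : ℕ) : Prop :=
  ∃ t, (∀ s < t, y (i + s) = y (j + s)) ∧ y (i + t) < y (j + t)

theorem Lt.irrefl (y : ℕ → ℕ) (i : ℕ) : ¬ Lt y i i := by
  rintro ⟨t, -, h⟩
  exact lt_irrefl _ h

theorem Lt.trans {y : ℕ → ℕ} {i j k : ℕ} (h1 : Lt y i j) (h2 : Lt y j k) : Lt y i k := by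
  obtain ⟨t1, a1, b1⟩ := h1
  obtain ⟨t2, a2, b2⟩ := h2
  rcases lt_trichotomy t1 t2 with h | h | h
  · refine ⟨t1, fun s hs => ?_, ?_⟩
    · rw [a1 s hs, a2 s (by omega)]
    · rw [← a2 t1 h]; exact b1
  · subst h
    refine ⟨t1, fun s hs => ?_, ?_⟩
    · rw [a1 s hs, a2 s hs]
    · exact lt_trans b1 b2
  · refine ⟨t2, fun s hs => ?_, ?_⟩
    · rw [a1 s (by omega), a2 s hs]
    · rw [a1 t2 h]; exact b2

/-- Common beginnings may be removed. -/
theorem Lt.strip {y : ℕ → ℕ} {i j : ℕ} (h : Lt y i j) (u : ℕ)
    (hu : ∀ s < u, y (i + s) = y (j + s)) : Lt y (i + u) (j + u) := by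
  obtain ⟨t, a, b⟩ := h
  have htu : u ≤ t := by
    by_contra hcon
    push Not at hcon
    have := hu t hcon
    omega
  refine ⟨t - u, fun s hs => ?_, ?_⟩
  · have := a (u + s) (by omega)
    rw [← add_assoc, ← add_assoc] at this
    exact this
  · have e1 : i + u + (t - u) = i + t := by omega
    have e2 : j + u + (t - u) = j + t := by omega
    rw [e1, e2]; exact b

/-- Common beginnings may be added. -/
theorem Lt.unstrip {y : ℕ → ℕ} {i j : ℕ} (u : ℕ) (h : Lt y (i + u) (j + u))
    (hu : ∀ s < u, y (i + s) = y (j + s)) : Lt y i j := by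
  obtain ⟨t, a, b⟩ := h
  refine ⟨u + t, fun s hs => ?_, ?_⟩
  · by_cases hsu : s < u
    · exact hu s hsu
    · have := a (s - u) (by omega)
      have e1 : i + u + (s - u) = i + s := by omega
      have e2 : j + u + (s - u) = j + s := by omega
      rw [e1, e2] at this; exact this
  · rw [← add_assoc, ← add_assoc]; exact b

/-- The number with digits `y i, ..., y (i+K-1)` in base `B`. -/
def dval (y : ℕ → ℕ) (B i : ℕ) : ℕ → ℕ
  | 0 => 0
  | K + 1 => dval y B i K * B + y (i + K)

theorem dval_lt {y : ℕ → ℕ} {B : ℕ} (hB : ∀ n, y n < B) (i K : ℕ) : dval y B i K < B ^ K := by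
  induction K with
  | zero => simp [dval]
  | succ K ih =>
    rw [dval, pow_succ]
    have h1 := hB (i + K)
    have h2 : (dval y B i K + 1) * B ≤ B ^ K * B := Nat.mul_le_mul_right _ ih
    rw [add_mul, one_mul] at h2
    omega

theorem dval_eq {y : ℕ → ℕ} {B : ℕ} (hB : ∀ n, y n < B) {i j K : ℕ}
    (h : dval y B i K = dval y B j K) : ∀ s < K, y (i + s) = y (j + s) := by
  induction K with
  | zero => intro s hs; omega
  | succ K ih =>
    rw [dval, dval] at h
    have h1 := hB (i + K)
    have h2 := hB (j + K)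
    have h3 : dval y B i K = dval y B j K := by
      rcases lt_trichotomy (dval y B i K) (dval y B j K) with h4 | h4 | h4
      · exfalso
        have := Nat.mul_le_mul_right B h4
        rw [Nat.succ_mul] at this
        omega
      · exact h4
      · exfalso
        have := Nat.mul_le_mul_right B h4
        rw [Nat.succ_mul] at this
        omega
    rw [h3] at h
    intro s hs
    rcases Nat.lt_or_ge s K with h5 | h5
    · exact ih h3 s h5
    · have : s = K := by omega
      subst this; omega

theorem dval_lt_Lt {y : ℕ → ℕ} {B : ℕ} (hB : ∀ n, y n < B) {i j K : ℕ}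
    (h : dval y B i K < dval y B j K) : Lt y i j := by
  induction K with
  | zero => simp [dval] at h
  | succ K ih =>
    rw [dval, dval] at h
    have h1 := hB (i + K)
    have h2 := hB (j + K)
    rcases lt_trichotomy (dval y B i K) (dval y B j K) with h4 | h4 | h4
    · exact ih h4
    · rw [h4] at h
      exact ⟨K, dval_eq hB h4, by omega⟩
    · exfalso
      have := Nat.mul_le_mul_right B h4
      rw [Nat.succ_mul] at this
      omega

/-- `c` is a strict local maximum (at distance at most `M`) for the lexicographic order. -/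
def LMax (y : ℕ → ℕ) (M c : ℕ) : Prop :=
  ∀ δ, 1 ≤ δ → δ ≤ M → Lt y (c + δ) c ∧ (δ ≤ c → Lt y (c - δ) c)

theorem exists_LMax {y : ℕ → ℕ} {B K M : ℕ} (hB : ∀ n, y n < B)
    (hK : ∀ δ, 1 ≤ δ → δ ≤ M → ∀ i, ¬ HasPer y i (K + δ) δ) (n : ℕ) :
    ∀ c0, B ^ K ≤ dval y B c0 K + n → ∃ c, c ≤ c0 + n * M ∧ c0 ≤ c + n * M ∧ LMax y M c := by
  have hper : ∀ δ, 1 ≤ δ → δ ≤ M → ∀ i, dval y B i K ≠ dval y B (i + δ) K := by
    intro δ h1 h2 i heq
    apply hK δ h1 h2 i
    intro s hs
    have := dval_eq hB heq s (by omega)
    rw [this]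
    congr 1; ring
  induction n with
  | zero =>
    intro c0 h
    have := dval_lt hB c0 K
    omega
  | succ n ih =>
    intro c0 h
    by_cases hmax : LMax y M c0
    · exact ⟨c0, by omega, by omega, hmax⟩
    · unfold LMax at hmax
      push Not at hmax
      obtain ⟨δ, h1, h2, h3⟩ := hmax
      have e1 : (n + 1) * M = n * M + M := by ring
      by_cases h4 : Lt y (c0 + δ) c0
      · obtain ⟨h5, h6⟩ := h3 h4
        have h7 : dval y B c0 K < dval y B (c0 - δ) K := by
          have h8 := hper δ h1 h2 (c0 - δ)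
          rw [Nat.sub_add_cancel h5] at h8
          rcases lt_trichotomy (dval y B c0 K) (dval y B (c0 - δ) K) with h9 | h9 | h9
          · exact h9
          · exact absurd h9.symm h8
          · exact absurd (dval_lt_Lt hB h9) h6
        obtain ⟨c, a1, a2, a3⟩ := ih (c0 - δ) (by omega)
        exact ⟨c, by omega, by omega, a3⟩
      · have h7 : dval y B c0 K < dval y B (c0 + δ) K := by
          have h8 := hper δ h1 h2 c0
          rcases lt_trichotomy (dval y B c0 K) (dval y B (c0 + δ) K) with h9 | h9 | h9
          · exact h9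
          · exact absurd h9 h8
          · exact absurd (dval_lt_Lt hB h9) h4
        obtain ⟨c, a1, a2, a3⟩ := ih (c0 + δ) (by omega)
        exact ⟨c, by omega, by omega, a3⟩

/-- At a local maximum there is no square. -/
theorem LMax.crit {y : ℕ → ℕ} {M c : ℕ} (h : LMax y M c) {δ : ℕ} (h1 : 1 ≤ δ) (h2 : δ ≤ M)
    (hc : δ ≤ c) : ∃ t < δ, y (c - δ + t) ≠ y (c + t) := by
  by_contra hcon
  push Not at hcon
  obtain ⟨h3, h4⟩ := h δ h1 h2
  have h5 := (h4 hc).strip δ hcon
  rw [Nat.sub_add_cancel hc] at h5
  exact Lt.irrefl y c (h5.trans h3)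

/-- The numbering of the letters of an infinite word with finitely many letters. -/
theorem exists_numbering {β : Type*} {x : ℕ → β} (hfin : (Set.range x).Finite) :
    ∃ (y : ℕ → ℕ) (B : ℕ), (∀ n, y n < B) ∧ ∀ i j, y i = y j ↔ x i = x j := by
  classical
  have : Finite (Set.range x) := hfin
  obtain ⟨B, ⟨e⟩⟩ := Finite.exists_equiv_fin (Set.range x)
  refine ⟨fun n => (e ⟨x n, n, rfl⟩).val, B, fun n => (e _).isLt, fun i j => ?_⟩
  constructor
  · intro h
    have h1 := e.injective (Fin.ext h)
    exact congrArg Subtype.val h1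
  · intro h
    dsimp only
    congr 2
    exact Subtype.ext h

/-- **Key lemma.** If every letter covers the local maximum `c` we get a contradiction. -/
theorem no_full_cover {α β : Type*} [Finite α] [Nonempty α] {h : List α → List β} {x : ℕ → β}
    {y : ℕ → ℕ} (hy : ∀ i j, y i = y j ↔ x i = x j) {N c : ℕ} (hN : ∀ a, (h [a]).length ≤ N)
    (hmax : LMax y (2 * N) c) (hc : 2 * N ≤ c) (o : α → ℕ) (ho1 : ∀ a, 1 ≤ o a)
    (ho2 : ∀ a, o a ≤ (h [a]).length)
    (F1 : ∀ a, ∀ s < (h [a]).length, (h [a])[s]? = some (x (c - o a + s)))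
    (σ ω : α → α)
    (F2 : ∀ a, ∀ s < (h [σ a]).length,
      (h [σ a])[s]? = some (x (c - o a + (h [a]).length + s)))
    (F3 : ∀ a, ∀ s < (h [ω a]).length,
      (h [ω a])[s]? = some (x (c - o a - (h [ω a]).length + s))) : False := by
  have key : ∀ a, Lt y (c - o a + (h [a]).length)
      (c - o (ω (σ a)) + (h [ω (σ a)]).length) := by
    intro a
    set b := σ a with hb
    set g := ω b with hg
    have n1 := hN a
    have n2 := hN b
    have n3 := hN g
    have a1 := ho1 a
    have a2 := ho1 b
    have a3 := ho1 g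
    have b1 := ho2 a
    have b2 := ho2 b
    have b3 := ho2 g
    -- first comparison
    have h1 : Lt y (c - o a + (h [a]).length) (c - o b) := by
      refine Lt.unstrip (o b) ?_ ?_
      · have e1 : c - o b + o b = c := by omega
        have e2 : c - o a + (h [a]).length + o b = c + ((h [a]).length - o a + o b) := by omega
        rw [e1, e2]
        exact (hmax ((h [a]).length - o a + o b) (by omega) (by omega)).1
      · intro s hs
        rw [hy]
        have f1 := F2 a s (by rw [← hb]; omega)
        have f2 := F1 b s (by omega)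
        rw [← hb] at f1
        rw [f1, Option.some.injEq] at f2
        exact f2
    have h2 : Lt y (c - o b) (c - o g + (h [g]).length) := by
      have h3 : Lt y (c - (o b + ((h [g]).length - o g))) c :=
        (hmax (o b + ((h [g]).length - o g)) (by omega) (by omega)).2 (by omega)
      have h4 := h3.strip ((h [g]).length - o g) (by
        intro s hs
        rw [hy]
        have f1 := F3 b (o g + s) (by rw [← hg]; omega)
        have f2 := F1 g (o g + s) (by omega)
        rw [← hg] at f1
        rw [f1, Option.some.injEq] at f2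
        have e1 : c - (o b + ((h [g]).length - o g)) + s = c - o b - (h [g]).length + (o g + s) := by
          omega
        have e2 : c + s = c - o g + (o g + s) := by omega
        rw [e1, e2]
        exact f2)
      have e1 : c - (o b + ((h [g]).length - o g)) + ((h [g]).length - o g) = c - o b := by omega
      have e2 : c + ((h [g]).length - o g) = c - o g + (h [g]).length := by omega
      rw [e1, e2] at h4
      exact h4
    exact h1.trans h2
  let r : α → α → Prop := fun a b => Lt y (c - o b + (h [b]).length) (c - o a + (h [a]).length)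
  haveI : IsTrans α r := ⟨fun a b d h1 h2 => Lt.trans h2 h1⟩
  haveI : Std.Irrefl r := ⟨fun a => Lt.irrefl y _⟩
  have hwf : WellFounded r := Finite.wellFounded_of_trans_of_irrefl r
  obtain ⟨a0⟩ := (inferInstance : Nonempty α)
  obtain ⟨a, -, ha⟩ := hwf.has_min Set.univ ⟨a0, trivial⟩
  exact ha (ω (σ a)) trivial (key a)

end Pool.Agent.Lib.MP_52ae34_co
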