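import Mathlib
import Pool.Agent.Lib.MP_52ae34_co.Lex

set_option autoImplicit false

/-! The sharp upper bound: if `ACE(w) < T` then `ACE(h(w)) ≤ (|Σ| - 1) T`. -/

namespace Pool.Agent.Lib.MP_52ae34_co

open Filter
open scoped ENNReal

variable {α : Type*} {β : Type*}

theorem range_finite [Finite α] {h : List α → List β} (hm : IsMorphism h)
    (hinj : Function.Injective h) {w : ℕ → α} {x : ℕ → β} (him : IsImage h w x) :
    (Set.range x).Finite := by
  classical
  have hfin : (⋃ a : α, {b | b ∈ h [a]}).Finite := Set.finite_iUnion fun a => by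
    have : {b | b ∈ h [a]} = ((h [a]).toFinset : Set β) := by ext b; simp
    rw [this]
    exact Finset.finite_toSet _
  refine hfin.subset ?_
  rintro _ ⟨n, rfl⟩
  obtain ⟨p, hp1, hp2⟩ := exists_cover hm hinj w (n + 1) (by omega)
  have hlen : n - cut h w p < (h [w p]).length := by
    rw [cut_succ hm] at hp2; omega
  have := x_cut hm him p (n - cut h w p) hlen
  have e : cut h w p + (n - cut h w p) = n := by omega
  rw [e] at this
  refine Set.mem_iUnion.mpr ⟨w p, ?_⟩
  exact List.mem_of_getElem? this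

/-- The length of a run of large period in the image (sharp form). -/
theorem run_length_le2 [Fintype α] [Nonempty α] {h : List α → List β} (hm : IsMorphism h)
    (hinj : Function.Injective h) {w : ℕ → α} {x : ℕ → β} (him : IsImage h w x)
    {T l0 N : ℕ} (hT1 : 1 ≤ T) (hl0 : 1 ≤ l0) (hN1 : 1 ≤ N) (hN : ∀ a, (h [a]).length ≤ N)
    (hT : ∀ p, l0 ≤ p → ∀ i, ¬ HasPer w i (T * p) p) :
    ∃ C : ℕ, ∀ I m q : ℕ, C ≤ q → HasPer x I m q → m < (Fintype.card α - 1) * T * q + C := by
  classical
  obtain ⟨y, B, hB, hy⟩ := exists_numbering (range_finite hm hinj him)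
  set K := N * (2 * N * (2 * (T * l0)) + 2) with hKdef
  have hK : ∀ δ, 1 ≤ δ → δ ≤ 2 * N → ∀ i, ¬ HasPer y i (K + δ) δ := by
    intro δ h1 h2 i hper
    have hper' : HasPer x i (K + δ) δ := fun j hj => (hy _ _).mp (hper j hj)
    have h3 := short_runs hm hinj him hT1 hl0 hN hT h1 hper'
    have h4 : N * (δ * (2 * (T * l0)) + 2) ≤ K := by
      rw [hKdef]
      exact Nat.mul_le_mul_left _ (Nat.add_le_add_right (Nat.mul_le_mul_right _ h2) _)
    omega
  set V := B ^ K * (2 * N) with hV
  refine ⟨2 * V + 4 * N + N * (2 * (T * l0)), fun I m q hq hper => ?_⟩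
  by_contra hcon
  set n1 := Fintype.card α - 1 with hn1
  set KK := n1 * T with hKK
  obtain ⟨c0, hc1, hc2, hmax⟩ := exists_LMax hB hK (B ^ K) (I + V + 2 * N) (by omega)
  rw [← hV] at hc1 hc2
  have hck : ∀ k, k ≤ KK → c0 + k * q + 2 * N ≤ I + m := by
    intro k hk
    have : k * q ≤ KK * q := Nat.mul_le_mul_right _ hk
    omega
  have hval : ∀ j j', j < m → j' < m → j % q = j' % q → x (I + j) = x (I + j') := by
    intro j j' hj hj' hjj
    rw [hper.eq_mod j hj, hper.eq_mod j' hj', hjj]
  -- translation to the base position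
  have htrans : ∀ k ≤ KK, ∀ s, I ≤ s → s < c0 + 2 * N → x (s + k * q) = x s := by
    intro k hk s h1 h2
    have h3 := hck k hk
    have h4 := hval (s - I + k * q) (s - I) (by omega) (by omega) (by
      rw [Nat.add_mul_mod_self_right])
    have e1 : I + (s - I + k * q) = s + k * q := by omega
    have e2 : I + (s - I) = s := by omega
    rw [e1, e2] at h4
    exact h4
  have hcrit0 : ∀ δ, 1 ≤ δ → δ ≤ N → ∃ t < δ, x (c0 - δ + t) ≠ x (c0 + t) := by
    intro δ h1 h2
    obtain ⟨t, ht, hne⟩ := hmax.crit h1 (by omega : δ ≤ 2 * N) (by omega)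
    exact ⟨t, ht, fun heq => hne ((hy _ _).mpr heq)⟩
  have hcrit : ∀ k, k ≤ KK → ∀ δ, 1 ≤ δ → δ ≤ N →
      ∃ t < δ, x (c0 + k * q - δ + t) ≠ x (c0 + k * q + t) := by
    intro k hk δ hδ1 hδN
    obtain ⟨t, ht, hne⟩ := hcrit0 δ hδ1 hδN
    refine ⟨t, ht, fun heq => hne ?_⟩
    have e1 := htrans k hk (c0 - δ + t) (by omega) (by omega)
    have e2 := htrans k hk (c0 + t) (by omega) (by omega)
    have a1 : c0 - δ + t + k * q = c0 + k * q - δ + t := by omega
    have a2 : c0 + t + k * q = c0 + k * q + t := by omega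
    rw [a1] at e1
    rw [a2] at e2
    rw [← e1, ← e2, heq]
  have hcov : ∀ k : ℕ, ∃ p, cut h w p < c0 + k * q ∧ c0 + k * q ≤ cut h w (p + 1) :=
    fun k => exists_cover hm hinj w _ (by omega)
  choose P hP1 hP2 using hcov
  have hmono := (cut_strictMono hm hinj w).monotone
  have hPlow : ∀ k, c0 + k * q ≤ cut h w (P k) + N := by
    intro k
    have := cut_add_le hm hN w (P k) 1
    have := hP2 k
    omega
  have hqN : N ≤ q := by omega
  have hPmono : StrictMono P := by
    refine strictMono_nat_of_lt_succ fun k => ?_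
    by_contra hle
    have h1 : P (k + 1) + 1 ≤ P k + 1 := by omega
    have h2 := hmono h1
    have h3 := hP2 (k + 1)
    have h4 := hP1 k
    have h5 := cut_add_le hm hN w (P k) 1
    have h6 : (k + 1) * q = k * q + q := by ring
    omega
  -- equal letters have equal offsets
  have hoffset : ∀ k ≤ KK, ∀ k' ≤ KK, w (P k) = w (P k') →
      c0 + k * q - cut h w (P k) = c0 + k' * q - cut h w (P k') := by
    intro k hk k' hk' hw
    have k1 := hck k hk
    have k2 := hck k' hk'
    have hmod : (c0 + k * q - I) % q = (c0 + k' * q - I) % q := by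
      have a1 : c0 + k * q - I = (c0 - I) + k * q := by omega
      have a2 : c0 + k' * q - I = (c0 - I) + k' * q := by omega
      rw [a1, a2, Nat.add_mul_mod_self_right, Nat.add_mul_mod_self_right]
    have b1 := offset_eq hm him hN hper (c := c0 + k * q) (c' := c0 + k' * q)
      (p := P k) (p' := P k') (by omega) (by omega) (by omega) (by omega) hmod (hcrit _ hk)
      (hP1 _) (hP1 _) (hP2 _) hw
    have b2 := offset_eq hm him hN hper (c := c0 + k' * q) (c' := c0 + k * q)
      (p := P k') (p' := P k) (by omega) (by omega) (by omega) (by omega) hmod.symm (hcrit _ hk')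
      (hP1 _) (hP1 _) (hP2 _) hw.symm
    omega
  by_cases hmiss : ∃ a0, ∀ k ≤ KK, w (P k) ≠ a0
  · obtain ⟨a0, ha0⟩ := hmiss
    obtain ⟨e, he, heK, hef⟩ := exists_mono_seq (ι := {a : α // a ≠ a0}) KK T
      (fun k => ⟨w (P (min k KK)), ha0 _ (min_le_right _ _)⟩) (by
        rw [hKK, hn1]
        refine Nat.mul_le_mul_right _ ?_
        rw [Fintype.card_subtype_compl, Fintype.card_subtype_eq])
    have hef' : ∀ t ≤ T, w (P (e t)) = w (P (e 0)) := by
      intro t ht
      have h1 := congrArg Subtype.val (hef t ht)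
      have het : e t ≤ KK := le_trans (he.monotone ht) heK
      have he0 : e 0 ≤ KK := le_trans (he.monotone (Nat.zero_le T)) heK
      dsimp only at h1
      rw [min_eq_left het, min_eq_left he0] at h1
      exact h1
    have hoff : ∀ t, t ≤ T →
        c0 + e t * q - cut h w (P (e t)) = c0 + e 0 * q - cut h w (P (e 0)) := by
      intro t ht
      have het : e t ≤ KK := le_trans (he.monotone ht) heK
      have he0 : e 0 ≤ KK := le_trans (he.monotone (Nat.zero_le T)) heK
      exact hoffset _ het _ he0 (hef' t ht)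
    have hclose := returns_close hm hinj him hT1 hl0 hT hper le_rfl (fun t => P (e t))
      (fun a b hab => hPmono (he hab))
      (by have := hPlow (e 0); omega)
      (by have := hP1 (e T); have := hck (e T) heK; omega)
      (by
        intro t ht
        have h1 := hoff t ht
        have h2 := hP1 (e t)
        have h3 := hP1 (e 0)
        have h4 : e 0 ≤ e t := he.monotone (Nat.zero_le t)
        have h5 : cut h w (P (e t)) - cut h w (P (e 0)) = (e t - e 0) * q := by
          rw [Nat.sub_mul]
          have : e 0 * q ≤ e t * q := Nat.mul_le_mul_right _ h4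
          omega
        try dsimp only
        rw [h5]
        exact Dvd.intro_left _ rfl)
    try dsimp only at hclose
    have h1 := hoff T le_rfl
    have h2 := hP1 (e T)
    have h3 := hP1 (e 0)
    have h4 : e 0 + 1 ≤ e T := he (by omega : 0 < T)
    have h5 : e 0 * q + q ≤ e T * q := by
      have := Nat.mul_le_mul_right q h4
      rw [add_mul, one_mul] at this
      exact this
    have h6 : P (e 0) ≤ P (e T) := (hPmono (he (by omega : 0 < T))).le
    have h7 := cut_add_le hm hN w (P (e 0)) (P (e T) - P (e 0))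
    rw [Nat.add_sub_cancel' h6] at h7
    have h8 : N * (P (e T) - P (e 0)) < N * (2 * (T * l0)) :=
      Nat.mul_lt_mul_of_pos_left hclose (by omega)
    omega
  · -- every letter covers
    push Not at hmiss
    choose κ hκ1 hκ2 using hmiss
    have hcut1 : ∀ a, cut h w (P (κ a) + 1) = cut h w (P (κ a)) + (h [a]).length := by
      intro a
      rw [cut_succ hm, hκ2 a]
    have hPpos : ∀ a, 1 ≤ P (κ a) := by
      intro a
      by_contra hcon2
      have h0 : P (κ a) = 0 := by omega
      have h1 := hPlow (κ a)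
      rw [h0, cut_zero hm] at h1
      omega
    have hlen : ∀ a, 1 ≤ (h [a]).length := length_pos hm hinj
    refine no_full_cover (h := h) (x := x) hy hN hmax (by omega)
      (fun a => c0 + κ a * q - cut h w (P (κ a))) ?_ ?_ ?_
      (fun a => w (P (κ a) + 1)) (fun a => w (P (κ a) - 1)) ?_ ?_
    · intro a
      have := hP1 (κ a)
      omega
    · intro a
      have h1 := hP2 (κ a)
      rw [hcut1 a] at h1
      omega
    · intro a s hs
      have h1 := hP1 (κ a)
      have h2 := hPlow (κ a)
      have h3 := hP2 (κ a)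
      rw [hcut1 a] at h3
      have h4 := hN a
      have h5 := x_cut hm him (P (κ a)) s (by rw [hκ2 a]; exact hs)
      rw [hκ2 a] at h5
      rw [h5]
      congr 1
      have h6 := htrans (κ a) (hκ1 a) (c0 - (c0 + κ a * q - cut h w (P (κ a))) + s) (by omega)
        (by omega)
      rw [← h6]
      congr 1
      omega
    · intro a s hs
      have h1 := hP1 (κ a)
      have h2 := hPlow (κ a)
      have h3 := hP2 (κ a)
      rw [hcut1 a] at h3
      have h4 := hN a
      have h4' := hN (w (P (κ a) + 1))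
      have h5 := x_cut hm him (P (κ a) + 1) s hs
      rw [hcut1 a] at h5
      rw [h5]
      congr 1
      have h6 := htrans (κ a) (hκ1 a)
        (c0 - (c0 + κ a * q - cut h w (P (κ a))) + (h [a]).length + s) (by omega) (by omega)
      rw [← h6]
      congr 1
      omega
    · intro a s hs
      have h1 := hP1 (κ a)
      have h2 := hPlow (κ a)
      have h4' := hN (w (P (κ a) - 1))
      have h5 := x_cut hm him (P (κ a) - 1) s hs
      have h7 := cut_succ hm w (P (κ a) - 1)
      rw [Nat.sub_add_cancel (hPpos a)] at h7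
      rw [h5]
      congr 1
      have h6 := htrans (κ a) (hκ1 a)
        (c0 - (c0 + κ a * q - cut h w (P (κ a))) - (h [w (P (κ a) - 1)]).length + s)
        (by omega) (by omega)
      rw [← h6]
      congr 1
      omega

/-- **Sharp upper bound.** If `ACE(w) < T` then `ACE(h(w)) ≤ (|Σ| - 1) * T`. -/
theorem ACE_image_le2 [Fintype α] [Nonempty α] {h : List α → List β} (hm : IsMorphism h)
    (hinj : Function.Injective h) {w : ℕ → α} {x : ℕ → β} (him : IsImage h w x)
    {T : ℕ} (hT : ACE w < T) : ACE x ≤ (((Fintype.card α - 1) * T : ℕ) : ℝ≥0∞) := by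
  have hT1 : 1 ≤ T := by
    rcases Nat.eq_zero_or_pos T with h | h
    · subst h; simp at hT
    · exact h
  obtain ⟨l0, hl0, hTp⟩ := exists_no_power hT
  obtain ⟨N0, hN0⟩ : ∃ N : ℕ, ∀ a, (h [a]).length ≤ N := by
    refine ⟨Finset.univ.sup (fun a => (h [a]).length), fun a => ?_⟩
    exact Finset.le_sup (f := fun a => (h [a]).length) (Finset.mem_univ a)
  set N := N0 + 1 with hNdef
  have hN : ∀ a, (h [a]).length ≤ N := fun a => le_trans (hN0 a) (by omega)
  have hN1 : 1 ≤ N := by omega
  obtain ⟨C, hC⟩ := run_length_le2 hm hinj him hT1 hl0 hN1 hN hTp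
  set nT := (Fintype.card α - 1) * T with hnT
  refine ENNReal.le_of_forall_pos_le_add fun ε hε _ => ?_
  obtain ⟨Q, hQ⟩ : ∃ Q : ℕ, (C : ℝ) ≤ ε * Q := by
    obtain ⟨Q, hQ⟩ := exists_nat_ge ((C : ℝ) / ε)
    refine ⟨Q, ?_⟩
    have hε' : (0 : ℝ) < ε := by exact_mod_cast hε
    rw [div_le_iff₀ hε'] at hQ
    linarith [mul_comm (Q : ℝ) (ε : ℝ)]
  set Q' := max Q C with hQ'
  unfold ACE
  refine limsup_le_of_le (by isBoundedDefault) ?_
  filter_upwards [eventually_ge_atTop (N * (Q' * (2 * (T * l0)) + 2))] with m hmM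
  refine iSup_le fun i => expo_le fun p hp hper => ?_
  have hpQ : Q' < p := by
    by_contra hcon
    have h1 := short_runs hm hinj him hT1 hl0 hN hTp hp hper
    have h2 : N * (p * (2 * (T * l0)) + 2) ≤ N * (Q' * (2 * (T * l0)) + 2) :=
      Nat.mul_le_mul_left _ (Nat.add_le_add_right (Nat.mul_le_mul_right _ (by omega)) _)
    omega
  have h1 := hC i m p (le_trans (le_max_right _ _) hpQ.le) hper
  refine ENNReal.div_le_of_le_mul ?_
  have h2 : (m : ℝ) ≤ ((nT : ℕ) + ε) * p := by
    have h3 : (m : ℝ) ≤ ((nT : ℕ) : ℝ) * p + C := by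
      exact_mod_cast h1.le
    have h4 : (C : ℝ) ≤ ε * p := by
      refine le_trans hQ ?_
      have h5 : (Q : ℝ) ≤ p := by exact_mod_cast le_trans (le_max_left _ _) hpQ.le
      have hε' : (0 : ℝ) ≤ ε := ε.2
      exact mul_le_mul_of_nonneg_left h5 hε'
    nlinarith
  have h3 : (m : NNReal) ≤ ((nT : ℕ) + ε) * p := by
    rw [← NNReal.coe_le_coe]
    push_cast
    exact h2
  have h4 : ((m : NNReal) : ℝ≥0∞) ≤ (((nT : ℕ) + ε) * p : NNReal) :=
    ENNReal.coe_le_coe.mpr h3
  push_cast at h4 ⊢
  exact h4

end Pool.Agent.Lib.MP_52ae34_co
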